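import Pool.Agent.H631.TH.ZStm

/-!
# Project TH: a countable base with null frontiers
-/

set_option autoImplicit false

namespace Pool.Agent.H631.THD.BASE

open MeasureTheory Set Filter Topology Pool.Agent.H631.TH

theorem th_BASE : S_BASE := by
  intro X _ _ _ _ μ _
  rcases isEmpty_or_nonempty X with hX | hX
  · exact ⟨fun _ => ∅, fun _ => isOpen_empty, fun _ => by rw [frontier_empty, measure_empty],
      fun x => (hX.false x).elim⟩
  · letI := TopologicalSpace.upgradeIsCompletelyMetrizable X
    have key : ∀ p : ℕ × ℚ × ℚ, ∃ B : Set X, IsOpen B ∧ μ (frontier B) = 0 ∧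
        (p.2.1 < p.2.2 →
          Metric.ball (TopologicalSpace.denseSeq X p.1) (p.2.1 : ℝ) ⊆ B ∧
          B ⊆ Metric.ball (TopologicalSpace.denseSeq X p.1) (p.2.2 : ℝ)) := by
      intro p
      by_cases hp : p.2.1 < p.2.2
      · have hp' : (p.2.1 : ℝ) < (p.2.2 : ℝ) := by exact_mod_cast hp
        obtain ⟨r, hr, h0⟩ := exists_null_frontier_thickening μ
          ({TopologicalSpace.denseSeq X p.1} : Set X) hp'
        refine ⟨Metric.thickening r {TopologicalSpace.denseSeq X p.1}, Metric.isOpen_thickening,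
          h0, fun _ => ?_⟩
        rw [Metric.thickening_singleton]
        exact ⟨Metric.ball_subset_ball hr.1.le, Metric.ball_subset_ball hr.2.le⟩
      · exact ⟨∅, isOpen_empty, by rw [frontier_empty, measure_empty], fun h => absurd h hp⟩
    choose B hB1 hB2 hB3 using key
    obtain ⟨f, hf⟩ := exists_surjective_nat (ℕ × ℚ × ℚ)
    refine ⟨fun n => B (f n), fun n => hB1 _, fun n => hB2 _, fun x U hU hx => ?_⟩
    obtain ⟨ε, hε, hball⟩ := Metric.isOpen_iff.1 hU x hx
    obtain ⟨b, hb0, hbε⟩ := exists_rat_btwn (half_pos hε)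
    obtain ⟨a, ha0, hab⟩ := exists_rat_btwn hb0
    have hab' : a < b := by exact_mod_cast hab
    obtain ⟨i, hi⟩ := (TopologicalSpace.denseRange_denseSeq X).exists_dist_lt x ha0
    obtain ⟨n, hn⟩ := hf (i, a, b)
    obtain ⟨h1, h2⟩ := hB3 (i, a, b) hab'
    refine ⟨n, ?_, ?_⟩
    · show x ∈ B (f n)
      rw [hn]
      exact h1 (Metric.mem_ball.2 hi)
    · show B (f n) ⊆ U
      rw [hn]
      intro y hy
      apply hball
      have h3 := Metric.mem_ball.1 (h2 hy)
      rw [Metric.mem_ball]
      have h4 := dist_triangle y (TopologicalSpace.denseSeq X i) x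
      rw [dist_comm (TopologicalSpace.denseSeq X i) x] at h4
      have h5 : dist x (TopologicalSpace.denseSeq X i) < a := hi
      have h6 : dist y (TopologicalSpace.denseSeq X i) < b := h3
      linarith

end Pool.Agent.H631.THD.BASE
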