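import Pool.Agent.H631.TH.ZStm

/-!
Binary expansions (statement `S_BIN` of project TH).
-/

set_option autoImplicit false

namespace Pool.Agent.H631.THD.BIN

open Pool.Agent.H631.TH
open MeasureTheory Set Filter Topology

lemma mem_Ico_iff (r : ℝ) (n k : ℕ) :
    r ∈ Ico ((k : ℝ) / 2 ^ n) (((k : ℝ) + 1) / 2 ^ n) ↔ ⌊r * 2 ^ n⌋ = (k : ℤ) := by
  have h2 : (0 : ℝ) < 2 ^ n := by positivity
  rw [mem_Ico, div_le_iff₀ h2, lt_div_iff₀ h2, Int.floor_eq_iff]
  push_cast
  rfl

lemma floor_half (r : ℝ) (n : ℕ) : ⌊r * 2 ^ n⌋ = ⌊r * 2 ^ (n + 1)⌋ / 2 := by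
  rw [Int.floor_eq_iff]
  have h1 := Int.floor_le (r * 2 ^ (n + 1))
  have h2 := Int.lt_floor_add_one (r * 2 ^ (n + 1))
  set m : ℤ := ⌊r * 2 ^ (n + 1)⌋ with hm
  have h3 : r * 2 ^ (n + 1) = 2 * (r * 2 ^ n) := by ring
  rw [h3] at h1 h2
  rcases Int.even_or_odd' m with ⟨q, hq | hq⟩
  · have : m / 2 = q := by omega
    rw [this]
    rw [hq] at h1 h2
    push_cast at h1 h2
    constructor <;> linarith
  · have : m / 2 = q := by omega
    rw [this]
    rw [hq] at h1 h2
    push_cast at h1 h2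
    constructor <;> linarith

lemma part1 (u : List Bool) : ∃ k : ℕ, k < 2 ^ u.length ∧
    {r : ℝ | r ∈ Ico (0 : ℝ) 1 ∧ ∀ i, ∀ hi : i < u.length, dig r i = u[i]} =
      Ico ((k : ℝ) / 2 ^ u.length) (((k : ℝ) + 1) / 2 ^ u.length) := by
  induction u using List.reverseRecOn with
  | nil =>
    refine ⟨0, by simp, ?_⟩
    ext r
    simp
  | append_singleton v b ih =>
    obtain ⟨k, hk, hS⟩ := ih
    refine ⟨2 * k + b.toNat, ?_, ?_⟩
    · rw [List.length_append, List.length_singleton, pow_succ]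
      have : b.toNat ≤ 1 := Bool.toNat_le b
      omega
    · have key : ∀ r : ℝ, (r ∈ Ico (0 : ℝ) 1 ∧ ∀ i, ∀ hi : i < (v ++ [b]).length,
          dig r i = (v ++ [b])[i]) ↔
          (r ∈ Ico (0 : ℝ) 1 ∧ ∀ i, ∀ hi : i < v.length, dig r i = v[i]) ∧
            dig r v.length = b := by
        intro r
        constructor
        · rintro ⟨h0, h1⟩
          refine ⟨⟨h0, ?_⟩, ?_⟩
          · intro i hi
            have := h1 i (by rw [List.length_append]; omega)
            rw [this, List.getElem_append_left hi]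
          · have := h1 v.length (by rw [List.length_append, List.length_singleton]; omega)
            rw [this]
            simp
        · rintro ⟨⟨h0, h1⟩, h2⟩
          refine ⟨h0, ?_⟩
          intro i hi
          rw [List.length_append, List.length_singleton] at hi
          by_cases hiv : i < v.length
          · rw [List.getElem_append_left hiv]
            exact h1 i hiv
          · have : i = v.length := by omega
            subst this
            rw [h2]
            simp
      ext r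
      rw [mem_ofPred_eq, key r, List.length_append, List.length_singleton]
      have hv : (r ∈ Ico (0 : ℝ) 1 ∧ ∀ i, ∀ hi : i < v.length, dig r i = v[i]) ↔
          ⌊r * 2 ^ v.length⌋ = (k : ℤ) := by
        rw [← mem_Ico_iff, ← hS]
        rfl
      rw [hv, mem_Ico_iff, floor_half, dig]
      cases b
      · rw [decide_eq_false_iff_not]
        simp only [Bool.toNat_false]
        push_cast
        omega
      · rw [decide_eq_true_iff]
        simp only [Bool.toNat_true]
        push_cast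
        omega

lemma part2 : ContinuousOn dig {r : ℝ | ∀ (n : ℕ) (k : ℤ), r ≠ k / 2 ^ n} := by
  rw [continuousOn_pi]
  intro n r hr
  apply ContinuousAt.continuousWithinAt
  have h2 : (0 : ℝ) < 2 ^ (n + 1) := by positivity
  set m : ℤ := ⌊r * 2 ^ (n + 1)⌋ with hm
  have h1 : (m : ℝ) / 2 ^ (n + 1) < r := by
    have h3 : (m : ℝ) / 2 ^ (n + 1) ≤ r := by
      rw [div_le_iff₀ h2]; exact Int.floor_le _
    exact lt_of_le_of_ne h3 (fun h => hr (n + 1) m h.symm)
  have h4 : r < ((m : ℝ) + 1) / 2 ^ (n + 1) := by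
    rw [lt_div_iff₀ h2]; exact Int.lt_floor_add_one _
  have h5 : ∀ᶠ s in 𝓝 r, s ∈ Ioo ((m : ℝ) / 2 ^ (n + 1)) (((m : ℝ) + 1) / 2 ^ (n + 1)) :=
    isOpen_Ioo.mem_nhds ⟨h1, h4⟩
  have h6 : (fun s => dig s n) =ᶠ[𝓝 r] fun _ => dig r n := by
    filter_upwards [h5] with s hs
    have : ⌊s * 2 ^ (n + 1)⌋ = m := by
      rw [Int.floor_eq_iff]
      have ha := hs.1
      have hb := hs.2
      rw [div_lt_iff₀ h2] at ha
      rw [lt_div_iff₀ h2] at hb
      exact ⟨ha.le, hb⟩
    simp only [dig]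
    rw [this]
  exact (continuousAt_const).congr h6.symm

lemma part3 (S : Set ℝ) (hS : S ⊆ Ico 0 1) (r : ℝ) (hr : r ∈ Ico (0 : ℝ) 1)
    (h : dig r ∈ closure (dig '' S)) : r ∈ closure S := by
  rw [Metric.mem_closure_iff]
  intro ε hε
  obtain ⟨n, hn⟩ := exists_pow_lt_of_lt_one hε (show (1 / 2 : ℝ) < 1 by norm_num)
  have hopen : IsOpen {f : ℕ → Bool | ∀ i < n, f i = dig r i} := by
    have : {f : ℕ → Bool | ∀ i < n, f i = dig r i} =
        ⋂ i ∈ Finset.range n, {f : ℕ → Bool | f i = dig r i} := by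
      ext f; simp
    rw [this]
    apply isOpen_biInter_finset
    intro i _
    have e : {f : ℕ → Bool | f i = dig r i} = (fun f : ℕ → Bool => f i) ⁻¹' {dig r i} := rfl
    rw [e]
    exact (isOpen_discrete ({dig r i} : Set Bool)).preimage (continuous_apply i)
  obtain ⟨f, hf1, hf2⟩ := mem_closure_iff.1 h _ hopen (fun i _ => rfl)
  obtain ⟨s, hs, rfl⟩ := hf2
  refine ⟨s, hs, ?_⟩
  obtain ⟨k, -, hk⟩ := part1 (List.ofFn fun i : Fin n => dig r i)
  have hlen : (List.ofFn fun i : Fin n => dig r i).length = n := List.length_ofFn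
  have e1 : r ∈ Ico ((k : ℝ) / 2 ^ (List.ofFn fun i : Fin n => dig r i).length)
      (((k : ℝ) + 1) / 2 ^ (List.ofFn fun i : Fin n => dig r i).length) := by
    rw [← hk]
    refine ⟨hr, ?_⟩
    intro i hi
    simp
  have e2 : s ∈ Ico ((k : ℝ) / 2 ^ (List.ofFn fun i : Fin n => dig r i).length)
      (((k : ℝ) + 1) / 2 ^ (List.ofFn fun i : Fin n => dig r i).length) := by
    rw [← hk]
    refine ⟨hS hs, ?_⟩
    intro i hi
    have hi' : i < n := by rw [← hlen]; exact hi
    simp only [List.getElem_ofFn]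
    exact hf1 i hi'
  rw [hlen] at e1 e2
  have h2 : ((k : ℝ) + 1) / 2 ^ n = (k : ℝ) / 2 ^ n + (1 / 2) ^ n := by
    rw [add_div, div_pow, one_pow]
  rw [h2] at e1 e2
  rw [Real.dist_eq, abs_lt]
  constructor
  · linarith [e1.1, e2.2]
  · linarith [e1.2, e2.1]

theorem th_BIN : S_BIN :=
  ⟨part1, part2, fun S hS r hr h => part3 S hS r hr h⟩

end Pool.Agent.H631.THD.BIN
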