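import Pool.Agent.H631.TH.ZStm

set_option autoImplicit false

namespace Pool.Agent.H631.THD.CDF

open Pool.Agent.H631.TH MeasureTheory Set Filter Topology

theorem th_CDF : S_CDF := by
  intro ν _ hν
  have : NullSingletonClass ν := ⟨hν⟩
  have hmono : Monotone (fun r => (ν (Iic r)).toReal) := fun a b hab =>
    ENNReal.toReal_mono (measure_ne_top ν _) (measure_mono (Iic_subset_Iic.2 hab))
  have hint : ∀ a b : ℝ, IntervalIntegrable (fun _ : ℝ => (1 : ℝ)) ν a b := fun a b =>
    intervalIntegrable_const
  have hF : ∀ b : ℝ, (ν (Iic b)).toReal = (ν (Iic 0)).toReal + ∫ _ in (0 : ℝ)..b, (1 : ℝ) ∂ν := by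
    intro b
    have h := intervalIntegral.integral_Iic_sub_Iic (μ := ν) (f := fun _ : ℝ => (1 : ℝ)) (a := 0) (b := b)
      (integrable_const _).integrableOn (integrable_const _).integrableOn
    rw [← h]
    simp only [setIntegral_const, smul_eq_mul, mul_one, Measure.real]
    ring
  have hcont : Continuous (fun r => (ν (Iic r)).toReal) := by
    have h := intervalIntegral.continuous_primitive (μ := ν) hint 0
    have h2 : (fun r => (ν (Iic r)).toReal) =
        fun b => (ν (Iic 0)).toReal + ∫ _ in (0 : ℝ)..b, (1 : ℝ) ∂ν := funext hF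
    rw [h2]
    exact continuous_const.add h
  refine ⟨hcont, hmono, ?_, ?_⟩
  · intro c hc0 hc1
    rcases hc0.eq_or_lt with rfl | hc
    · have h : {r : ℝ | (ν (Iic r)).toReal < 0} = ∅ := by
        ext r
        simp only [mem_ofPred_eq, mem_empty_iff_false, iff_false, not_lt]
        exact ENNReal.toReal_nonneg
      rw [h, measure_empty, ENNReal.ofReal_zero]
    · by_cases hall : ∀ r : ℝ, (ν (Iic r)).toReal < c
      · have h : {r : ℝ | (ν (Iic r)).toReal < c} = univ := by
          ext r
          simp only [mem_ofPred_eq, mem_univ, iff_true]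
          exact hall r
        rw [h]
        have hlim : Tendsto (fun r : ℝ => (ν (Iic r)).toReal) atTop (𝓝 (ν univ).toReal) :=
          (ENNReal.tendsto_toReal (measure_ne_top ν _)).comp (tendsto_measure_Iic_atTop ν)
        have hle : (ν univ).toReal ≤ c := le_of_tendsto hlim (Eventually.of_forall fun r => (hall r).le)
        rw [le_antisymm hc1 hle, ENNReal.ofReal_toReal (measure_ne_top ν _)]
      · push Not at hall
        obtain ⟨r1, hr1⟩ := hall
        have hlim : Tendsto (fun r : ℝ => (ν (Iic r)).toReal) atBot (𝓝 0) := by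
          have h0 : Tendsto (fun r : ℝ => ν (Iic r)) atBot (𝓝 0) := by
            have h1 : Tendsto (fun r : ℝ => ν univ - ν (Ici r)) atBot (𝓝 (ν univ - ν univ)) :=
              ENNReal.Tendsto.sub tendsto_const_nhds (tendsto_measure_Ici_atBot ν)
                (Or.inl (measure_ne_top ν _))
            rw [tsub_self] at h1
            refine h1.congr fun r => ?_
            rw [← measure_congr (Iio_ae_eq_Iic (a := r) (μ := ν)), ← compl_Ici,
              measure_compl measurableSet_Ici (measure_ne_top ν _)]
          have h := (ENNReal.tendsto_toReal ENNReal.zero_ne_top).comp h0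
          rwa [ENNReal.toReal_zero] at h
        obtain ⟨r0, hr0⟩ := (hlim.eventually (gt_mem_nhds hc)).exists
        obtain ⟨b', hb'⟩ := mem_range_of_exists_le_of_exists_ge hcont ⟨r0, hr0.le⟩ ⟨r1, hr1⟩
        set T : Set ℝ := {r : ℝ | c ≤ (ν (Iic r)).toReal} with hT
        have hTc : IsClosed T := isClosed_le continuous_const hcont
        have hTn : T.Nonempty := ⟨r1, hr1⟩
        have hTb : BddBelow T := by
          refine ⟨r0, fun r hr => ?_⟩
          by_contra hlt
          push Not at hlt
          have h1 : (ν (Iic r)).toReal ≤ (ν (Iic r0)).toReal := hmono hlt.le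
          have h2 : c ≤ (ν (Iic r)).toReal := hr
          exact absurd (h2.trans h1) (not_le.2 hr0)
        have hbT : sInf T ∈ T := hTc.csInf_mem hTn hTb
        have hbc : (ν (Iic (sInf T))).toReal = c := by
          apply le_antisymm
          · have h1 : sInf T ≤ b' := csInf_le hTb (by rw [hT, mem_ofPred_eq]; exact hb'.ge)
            have h2 : (ν (Iic (sInf T))).toReal ≤ (ν (Iic b')).toReal := hmono h1
            exact h2.trans hb'.le
          · exact hbT
        have hS : {r : ℝ | (ν (Iic r)).toReal < c} = Iio (sInf T) := by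
          ext r
          rw [mem_ofPred_eq, mem_Iio]
          constructor
          · intro h
            by_contra hlt
            push Not at hlt
            have h1 : (ν (Iic (sInf T))).toReal ≤ (ν (Iic r)).toReal := hmono hlt
            rw [hbc] at h1
            exact absurd h (not_lt.2 h1)
          · intro h
            by_contra hlt
            push Not at hlt
            exact absurd (csInf_le hTb hlt) (not_le.2 h)
        rw [hS, measure_congr Iio_ae_eq_Iic, ← hbc, ENNReal.ofReal_toReal (measure_ne_top ν _)]
  · apply (countable_range (fun q : ℚ => (ν (Iic (q : ℝ))).toReal)).mono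
    rintro c ⟨a, b, hab, ha, hb⟩
    obtain ⟨q, hq1, hq2⟩ := exists_rat_btwn hab
    refine ⟨q, le_antisymm ?_ ?_⟩
    · have h1 : (ν (Iic (q : ℝ))).toReal ≤ (ν (Iic b)).toReal := hmono hq2.le
      exact h1.trans hb.le
    · have h1 : (ν (Iic a)).toReal ≤ (ν (Iic (q : ℝ))).toReal := hmono hq1.le
      exact ha.ge.trans h1

end Pool.Agent.H631.THD.CDF
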