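import Pool.Agent.H631.TH.FStm

/-!
# CNT: names can be replaced by countable ones
-/

set_option autoImplicit false
set_option linter.unusedSectionVars false
set_option linter.unusedVariables false

namespace Pool.Agent.H631.THD.CNT

open Classical Set
open Pool.Agent.H631.TH

theorem th_CNT (hP : S_PRED) : S_CNT := by
  intro M T _ _ Γ hC W hW N hN
  obtain ⟨g, hg1, hg2, hg3⟩ :=
    hP M T Γ hC {q | (∀ i ∉ W, q i = CV.top) ∧ ∃ s ∈ N, le Γ univ q s}
  refine ⟨g, ?_, fun q => ⟨fun h => ?_, fun h => ?_⟩⟩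
  · rintro s ⟨m, hm⟩ i hi
    exact (hg1 m s hm).1 i hi
  · rintro s hs ⟨r, h1, h2⟩
    have hφ : rst W r ∈ {q : Cond M T | (∀ i ∉ W, q i = CV.top) ∧ ∃ s ∈ N, le Γ univ q s} :=
      ⟨fun i hi => rst_notMem r hi, s, hs, rst_le hW (hN s hs) (le_mono (subset_univ W) h2)⟩
    obtain ⟨m, a, hma, r4, h3, h4⟩ := hg3 _ hφ
    have h5 : le Γ W r4 r := le_trans' hW (le_mono (subset_univ W) h3) (rst_eq hW r)
    refine h a ⟨m, hma⟩ ⟨mix W r4 r, le_trans' low_univ (mix_le hW h5) h1, fun i _ => ?_⟩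
    by_cases hi : i ∈ W
    · exact ext_congr i (fun l hl => (mix_mem r4 r (hW i hi l hl)).symm)
        (mix_mem r4 r hi).symm rfl (h4 i (mem_univ i))
    · exact ext_top ((hg1 m a hma).1 i hi)
  · rintro a ⟨m, hma⟩ ⟨r, h1, h2⟩
    obtain ⟨_, s, hs, has⟩ := hg1 m a hma
    exact h s hs ⟨r, h1, le_trans' low_univ h2 has⟩

end Pool.Agent.H631.THD.CNT
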