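import Pool.Agent.H631.TH.GStm

/-!
# A `GNull` real is covered
-/

set_option autoImplicit false
set_option linter.unusedSectionVars false
set_option linter.unusedVariables false

namespace Pool.Agent.H631.THD.COV

open Pool.Agent.H631.TH
open Classical Set

section

variable {M T : Type} [LinearOrder T] [WellFoundedLT T] {Γ : Par M T}

theorem mix_mono {S : Set T} (hS : Low S) {r r' : Cond M T} (q : Cond M T)
    (h : le Γ S r' r) : le Γ univ (mix S r' q) (mix S r q) := by
  intro j _
  by_cases hj : j ∈ S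
  · exact ext_congr j (fun i hi => (mix_mem r' q (hS j hj i hi)).symm) (mix_mem r' q hj).symm
      (mix_mem r q hj).symm (h j hj)
  · exact ext_of_eq ((mix_notMem r' q hj).trans (mix_notMem r q hj).symm)

theorem gd_mono {t t' : T} (ht : t < t') {X : TN M T} {q : Cond M T} {n : ℕ} {r r' : Cond M T}
    (h : Gd Γ t X q n r) (hr : le Γ (Iio t') r' r) : Gd Γ t X q n r' := by
  obtain ⟨h1, l, h2⟩ := h
  have h3 : ext Γ t r' r := hr t ht
  have h4 := ext_stem h3
  refine ⟨h1.trans_le h4.length_le, l, fun v hv hv' => ?_⟩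
  rw [getD_prefix h4 h1] at hv'
  exact (h2 v hv hv').mono (mix_mono (low_iio t) q fun j hj => hr j (lt_trans hj ht))

theorem blk_ge (s : List ℕ) (k : ℕ) : k ≤ blk s k := by
  induction k with
  | zero => exact Nat.zero_le _
  | succ k ih =>
    have : blk s (k + 1) = blk s k + 1 + s.getD (blk s k) 0 := rfl
    omega

/-- the sets to which the choice of a name is applied -/
def VV (Γ : Par M T) (t t' : T) (X : TN M T) (q : Cond M T) (e z : ℕ) : Set (Cond M T) :=
  {r | (∃ n, ((Encodable.decode e : Option (List ℕ)).getD []).length ≤ n ∧ n ≤ z ∧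
      Gd Γ t X q n r) ∨
    (z = 0 ∧ ∀ r', le Γ (Iio t') r' r → ∀ n,
      ((Encodable.decode e : Option (List ℕ)).getD []).length ≤ n → ¬ Gd Γ t X q n r')}

end

theorem th_COV (hR : S_RAW) (hD : S_DN) (hF : S_FB) : S_COV := by
  intro M T _ _ Γ hC hFull t t' ht X hT hP q hq
  obtain ⟨x, hx1, hx2⟩ := hR M T Γ hC (Iio t') (low_iio t') (VV Γ t t' X q)
    (by
      rintro e z p p' (⟨n, h1, h2, h3⟩ | ⟨h1, h2⟩) hle
      · exact Or.inl ⟨n, h1, h2, gd_mono ht h3 hle⟩
      · exact Or.inr ⟨h1, fun r' hr' => h2 r' (le_trans' (low_iio t') hr' hle)⟩)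
    (by
      intro e p
      by_cases h : ∃ r', le Γ (Iio t') r' p ∧ ∃ n,
          ((Encodable.decode e : Option (List ℕ)).getD []).length ≤ n ∧ Gd Γ t X q n r'
      · obtain ⟨r', h1, n, h2, h3⟩ := h
        exact ⟨r', h1, n, Or.inl ⟨n, h2, le_rfl, h3⟩⟩
      · exact ⟨p, le_refl' _ p, 0, Or.inr ⟨rfl, fun r' hr' n hn hg => h ⟨r', hr', n, hn, hg⟩⟩⟩)
  obtain ⟨m, hm⟩ := hFull t' x hx1
  have hq' : le Γ univ (upd q t' ⟨(q t').stem, insert m (q t').pr⟩) q := by
    intro j _
    by_cases hj : j = t'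
    · subst hj
      refine ext_same_stem (by rw [upd_same]) ?_
      rw [upd_same]
      exact Finset.subset_insert _ _
    · exact ext_of_eq (upd_of_ne _ _ hj)
  refine ⟨upd q t' ⟨(q t').stem, insert m (q t').pr⟩, hq', (q t').stem.length, ?_⟩
  rintro u r hr ho s hs ⟨r2, h21, h22⟩
  obtain ⟨r3, h32, k, hk, hb1, hb2, hb3⟩ :=
    ((hF M T Γ t t' (q t').stem.length u).2 r).1 ho r2 h21
  obtain ⟨r1, h13, z, hz⟩ := Val.dense (Γ := Γ) (low_iio t') r3 (Γ t' m)
    (Encodable.encode ((r3 t').stem.take (blk (r3 t').stem k)))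
  have h3q' : le Γ univ r3 (upd q t' ⟨(q t').stem, insert m (q t').pr⟩) :=
    le_trans' low_univ h32 (le_trans' low_univ h21 hr)
  have h3q : le Γ univ r3 q := le_trans' low_univ h3q' hq'
  have hzle : z ≤ (r3 t').stem.getD (blk (r3 t').stem k) 0 := by
    have h := ext_iff.1 (h3q' t' (mem_univ _))
    rw [upd_same] at h
    refine h.2.2 m (Finset.mem_insert_self _ _) _ ?_ hb1 r1 h13 z hz
    exact hk.trans (blk_ge _ _)
  have h1q : le Γ (Iio t') r1 q := le_trans' (low_iio t') h13 (le_mono (subset_univ _) h3q)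
  obtain ⟨r1', h1'1, n, hn, hg⟩ := hD M T Γ t t' ht X q hq r1 h1q (blk (r3 t').stem k)
  have hlen : ((Encodable.decode (Encodable.encode ((r3 t').stem.take (blk (r3 t').stem k))) :
      Option (List ℕ)).getD []).length = blk (r3 t').stem k := by
    rw [Encodable.encodek, Option.getD_some, List.length_take]
    exact min_eq_left hb1.le
  have hV : r1' ∈ VV Γ t t' X q
      (Encodable.encode ((r3 t').stem.take (blk (r3 t').stem k))) z := by
    refine hx2 r1' _ z ?_
    rw [← hm]
    exact hz.mono (low_iio t') h1'1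
  rcases hV with ⟨n', hn1, hn2, hg'⟩ | ⟨_, h⟩
  · rw [hlen] at hn1
    have hblk : blk (r3 t').stem (k + 1) = blk (r3 t').stem k + 1 +
      (r3 t').stem.getD (blk (r3 t').stem k) 0 := rfl
    have hn3 : n' < blk (r3 t').stem (k + 1) := by omega
    have h1'3 : le Γ (Iio t') r1' r3 := le_trans' (low_iio t') h1'1 h13
    have hpre := ext_stem (h1'3 t ht)
    have hget : (r1' t).stem.getD n' 0 = (r3 t).stem.getD n' 0 :=
      getD_prefix hpre (hn3.trans_le hb2)
    obtain ⟨_, l, hl⟩ := hg'
    rw [hget] at hl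
    have h43 : le Γ univ (mix (Iio t') r1' r3) r3 := mix_le (low_iio t') h1'3
    have h4q : le Γ univ (mix (Iio t') r1' r3) q := le_trans' low_univ h43 h3q
    have h4m : le Γ univ (mix (Iio t') r1' r3) (mix (Iio t) r1' q) := by
      intro j _
      by_cases hj : j ∈ Iio t
      · have hj' : j ∈ Iio t' := lt_trans (mem_Iio.1 hj) ht
        exact ext_of_eq ((mix_mem r1' r3 hj').trans (mix_mem r1' q hj).symm)
      · exact ext_congr j (fun _ _ => rfl) rfl (mix_notMem _ _ hj).symm (h4q j (mem_univ _))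
    have hout : ∀ v : List Bool, v.length = l → v ∉ Lc n' ((r3 t).stem.getD n' 0) →
        Out Γ (X v) (mix (Iio t') r1' r3) := fun v h1 h2 => (hl v h1 h2).mono h4m
    have hfin : Out Γ (X u) (mix (Iio t') r1' r3) := by
      rcases le_or_gt l u.length with hlu | hlu
      · refine hT u (u.take l) (List.take_prefix _ _) _ (hout _ ?_ fun hmem => ?_)
        · rw [List.length_take]
          exact min_eq_left hlu
        · exact (hb3 n' hn1 hn3 _ hmem).1 (List.take_prefix _ _)
      · refine hP u l _ hlu.le fun v huv hvl => hout v hvl fun hmem => ?_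
        exact (hb3 n' hn1 hn3 _ hmem).2 huv
    exact hfin s hs ⟨_, le_refl' _ _, le_trans' low_univ h43 (le_trans' low_univ h32 h22)⟩
  · exact h r1' (le_refl' _ _) n (hlen.le.trans hn) hg

end Pool.Agent.H631.THD.COV
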