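import Pool.Agent.H631.TH.FStm

/-!
# The dichotomy for names supported below `γ`
-/

set_option autoImplicit false
set_option linter.unusedSectionVars false

namespace Pool.Agent.H631.THD.DB

open Classical Set
open Pool.Agent.H631.TH

variable {M T : Type} [LinearOrder T] [WellFoundedLT T]

/-- all strings of length `k` -/
noncomputable def strs (k : ℕ) : Finset (List Bool) :=
  (Finset.univ : Finset (Fin k → Bool)).image List.ofFn

theorem mem_strs {k : ℕ} {u : List Bool} : u ∈ strs k ↔ u.length = k := by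
  unfold strs
  rw [Finset.mem_image]
  constructor
  · rintro ⟨v, -, rfl⟩
    exact List.length_ofFn
  · rintro rfl
    exact ⟨u.get, Finset.mem_univ _, List.ofFn_get u⟩

theorem card_strs (k : ℕ) : (strs k).card = 2 ^ k := by
  unfold strs
  rw [Finset.card_image_of_injective _ List.ofFn_injective, Finset.card_univ, Fintype.card_fun,
    Fintype.card_bool, Fintype.card_fin]

/-- witnesses -/
def Wit (Γ : Par M T) (X : TN M T) (c : ℕ) (s : Cond M T) : Prop :=
  ∃ (n : ℕ) (L : Finset (List Bool)), c * L.card < 2 ^ n ∧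
    ∀ u : List Bool, u.length = n → u ∉ L → Out Γ (X u) s

/-- the names `Y c` -/
def Yn (Γ : Par M T) (γ : T) (X : TN M T) (c : ℕ) : TN M T := fun u =>
  {s | (∀ i ∉ Iio γ, s i = CV.top) ∧ (Inn Γ (X u) s ∨ Wit Γ X c s)}

theorem inn_of_mem {Γ : Par M T} {N : Set (Cond M T)} {q s : Cond M T} (hs : s ∈ N)
    (h : le Γ univ q s) : Inn Γ N q := fun r hr ho =>
  ho s hs ⟨r, le_refl' univ r, le_trans' low_univ hr h⟩

theorem out_rst {Γ : Par M T} {W : Set T} (hW : Low W) {N : Set (Cond M T)} (hN : NSup W N)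
    (q : Cond M T) : Out Γ N (rst W q) ↔ Out Γ N q :=
  Out.iff_of_eq hW hN fun _ hi => rst_mem q hi

theorem inn_rst {Γ : Par M T} {W : Set T} (hW : Low W) {N : Set (Cond M T)} (hN : NSup W N)
    {q : Cond M T} (h : Inn Γ N q) : Inn Γ N (rst W q) := by
  intro r hr ho
  have h1 : le Γ W r q := le_trans' hW (le_mono (subset_univ W) hr) (rst_eq hW q)
  refine h (mix W r q) (mix_le hW h1) ?_
  exact (Out.iff_of_eq hW hN fun i hi => mix_mem r q hi).2 ho

theorem decide_all {Γ : Par M T} (X : TN M T) (F : Finset (List Bool)) (p : Cond M T) :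
    ∃ q, le Γ univ q p ∧ ∀ u ∈ F, Out Γ (X u) q ∨ Inn Γ (X u) q := by
  induction F using Finset.induction_on with
  | empty => exact ⟨p, le_refl' univ p, fun u hu => absurd hu (Finset.notMem_empty u)⟩
  | insert v F _ ih =>
    obtain ⟨q1, h1, h2⟩ := ih
    by_cases hI : Inn Γ (X v) q1
    · refine ⟨q1, h1, fun u hu => ?_⟩
      rcases Finset.mem_insert.1 hu with rfl | hu
      · exact Or.inr hI
      · exact h2 u hu
    · unfold Inn at hI
      push Not at hI
      obtain ⟨q2, h3, h4⟩ := hI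
      refine ⟨q2, le_trans' low_univ h3 h1, fun u hu => ?_⟩
      rcases Finset.mem_insert.1 hu with rfl | hu
      · exact Or.inl h4
      · rcases h2 u hu with h5 | h5
        · exact Or.inl (h5.mono h3)
        · exact Or.inr (h5.mono h3)

theorem yn_sup (Γ : Par M T) (γ : T) (X : TN M T) (c : ℕ) : SupT (Iio γ) (Yn Γ γ X c) :=
  fun _ _ hs => hs.1

theorem yn_tree {Γ : Par M T} {γ : T} {X : TN M T} (hT : TreeN Γ X) (c : ℕ) :
    TreeN Γ (Yn Γ γ X c) := by
  intro u v hvu q hq s hs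
  refine hq s ⟨hs.1, ?_⟩
  rcases hs.2 with h | h
  · exact Or.inl fun r hr ho => h r hr (hT u v hvu r ho)
  · exact Or.inr h

theorem yn_fat {Γ : Par M T} {γ : T} {X : TN M T} (hT : TreeN Γ X) (hS : SupT (Iio γ) X)
    (c : ℕ) : FatN Γ (Yn Γ γ X c) := by
  refine ⟨yn_tree hT c, c + 1, fun k p => ?_⟩
  by_cases h1 : ∃ q, le Γ univ q p ∧ Wit Γ X c q
  · obtain ⟨q, hq, n, L, hL, hO⟩ := h1
    refine ⟨q, hq, strs k, ?_, fun u hu => ⟨mem_strs.1 hu, ?_⟩⟩
    · rw [card_strs]
      exact Nat.le_mul_of_pos_left _ (Nat.succ_pos c)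
    · refine inn_of_mem (s := rst (Iio γ) q) ⟨fun i hi => rst_notMem q hi, Or.inr ?_⟩
        (le_rst (low_iio γ) q)
      exact ⟨n, L, hL, fun v hv hv' => (out_rst (low_iio γ) (hS v) q).2 (hO v hv hv')⟩
  · push Not at h1
    obtain ⟨q, hq, hd⟩ := decide_all (Γ := Γ) X (strs k) p
    have h2 := h1 q hq
    refine ⟨q, hq, (strs k).filter fun u => Inn Γ (X u) q, ?_, fun u hu => ?_⟩
    · by_contra hlt
      refine h2 ⟨k, (strs k).filter fun u => Inn Γ (X u) q, ?_, fun u hu hu' => ?_⟩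
      · refine lt_of_le_of_lt (Nat.mul_le_mul_right _ (Nat.le_succ c)) (not_le.1 hlt)
      · have h3 := mem_strs.2 hu
        rcases hd u h3 with h4 | h4
        · exact h4
        · exact absurd (Finset.mem_filter.2 ⟨h3, h4⟩) hu'
    · rw [Finset.mem_filter] at hu
      refine ⟨mem_strs.1 hu.1, ?_⟩
      exact inn_of_mem (s := rst (Iio γ) q) ⟨fun i hi => rst_notMem q hi,
        Or.inl (inn_rst (low_iio γ) (hS u) hu.2)⟩ (le_rst (low_iio γ) q)

theorem th_DB : S_DB := by
  intro M T _ _ Γ γ X hT hS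
  refine ⟨Yn Γ γ X, yn_sup Γ γ X, yn_fat hT hS, fun p => ?_⟩
  by_cases hG : GNull Γ γ X p
  · exact Or.inl ⟨p, le_refl' univ p, hG⟩
  right
  unfold GNull at hG
  push Not at hG
  obtain ⟨N, r, hr, hbad⟩ := hG
  refine ⟨mix (Iio γ) r p, mix_le (low_iio γ) hr, N, ?_⟩
  intro r1 hr1 u hO s hs hc
  obtain ⟨r3, h31, h3s⟩ := hc
  have h1 : le Γ (Iio γ) r3 r1 := le_mono (subset_univ _) h31
  rcases hs.2 with hI | ⟨n, L, hL, hO'⟩
  · refine hI r3 h3s ?_
    refine hO.mono' (low_iio γ) (hS u) (le_trans' (low_iio γ) h1 ?_)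
    exact le_of_eq (low_iio γ) fun i hi => (mix_mem r1 _ hi).symm
  · have h2 : le Γ (Iio γ) r3 r := by
      refine le_trans' (low_iio γ) h1 (le_trans' (low_iio γ) hr1 ?_)
      exact le_of_eq (low_iio γ) fun i hi => mix_mem r p hi
    obtain ⟨v, hv, hvL, hvO⟩ := hbad r3 h2 n L hL.le
    refine hvO ((hO' v hv hvL).mono' (low_iio γ) (hS v) ?_)
    refine le_trans' (low_iio γ) ?_ (le_mono (subset_univ _) h3s)
    exact le_of_eq (low_iio γ) fun i hi => mix_mem r3 p hi

end Pool.Agent.H631.THD.DB
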