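import Pool.Agent.H631.TH.FStm

set_option autoImplicit false

namespace Pool.Agent.H631.THD.DEM

open Pool.Agent.H631.TH Set

open Classical in
theorem le_upd {M T : Type} [LinearOrder T] [WellFoundedLT T] {Γ : Par M T} {j : T}
    {w w' : Cond M T} (v : CV M) (h : le Γ (Iio j) w' w) : le Γ (Iic j) (upd w' j v) (upd w j v) := by
  intro i hi
  rcases eq_or_lt_of_le (show i ≤ j from hi) with rfl | hlt
  · exact ext_of_eq (by rw [upd_same, upd_same])
  · exact ext_congr i (fun l hl => (upd_of_ne w' v (ne_of_lt (lt_trans hl hlt))).symm)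
      (upd_of_ne w' v (ne_of_lt hlt)).symm (upd_of_ne w v (ne_of_lt hlt)).symm (h i hlt)

theorem At_mono {M T : Type} [LinearOrder T] [WellFoundedLT T] {Γ : Par M T} {j : T}
    {X : TN M T} (hS : SupT (Iic j) X) {t : List ℕ} {f : ℕ} {u : List Bool} {w w' : Cond M T}
    (h : le Γ (Iio j) w' w) (hA : At Γ j X t f u w) : At Γ j X t f u w' := by
  obtain ⟨pr, h1, h2⟩ := hA
  exact ⟨pr, fun m hm r hr n hn => h1 m hm r (le_trans' (low_iio j) hr h) n hn,
    h2.mono' (low_iic j) (hS u) (le_upd _ h)⟩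

open Classical in
theorem th_DEM (hP : S_PRED) (hG : S_GLUE) (hX : S_XT) : S_DEM := by
  intro M T _ _ Γ hccc hfull j X hT hS t f k
  have hP1 : ∀ u : List Bool, ∃ g : ℕ → Option (Cond M T),
      (∀ m a, g m = some a → (∀ i ∉ Iio j, a i = CV.top) ∧ At Γ j X t f u a) ∧
      ∀ p : Cond M T, (∀ i ∉ Iio j, p i = CV.top) → At Γ j X t f u p →
        ∃ m a, g m = some a ∧ Cmp (le Γ univ) p a := by
    intro u
    obtain ⟨g, h1, _, h3⟩ := hP M T Γ hccc {w | (∀ i ∉ Iio j, w i = CV.top) ∧ At Γ j X t f u w}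
    exact ⟨g, fun m a hm => h1 m a hm, fun p hp1 hp2 => h3 p ⟨hp1, hp2⟩⟩
  choose g hg1 hg2 using hP1
  let prf : List Bool → Cond M T → Finset M := fun u a =>
    if h : At Γ j X t f u a then Classical.choose h else ∅
  have hprf : ∀ u a, At Γ j X t f u a → (∀ m ∈ prf u a, Bd Γ j a m t f) ∧
      Out Γ (X u) (upd a j ⟨t, prf u a⟩) := by
    intro u a h
    have e : prf u a = Classical.choose h := dif_pos h
    rw [e]
    exact Classical.choose_spec h
  have hG1 : ∀ u : List Bool, ∃ m : M,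
      (∀ i a, g u i = some a → ∀ q, le Γ (Iio j) q a →
        (∀ i' < i, ∀ a', g u i' = some a' → ¬ Cmp (le Γ (Iio j)) q a') →
        ∀ n z, Val (le Γ (Iio j)) q (Γ j m) n z →
          ∀ m' ∈ prf u a, ∀ z', Val (le Γ (Iio j)) q (Γ j m') n z' → z' ≤ z) ∧
      ∀ w, Bd Γ j w m t f := by
    intro u
    obtain ⟨m, h1, h2⟩ := hG M T Γ hccc hfull j (fun i => (g u i).map fun a => (a, prf u a))
    refine ⟨m, fun i a hia q hq hi' n z hz m' hm' z' hz' => ?_, fun w r _ n hn => ?_⟩
    · refine h1 i a (prf u a) (by simp only [hia, Option.map_some]) q hq ?_ n z hz m' hm' z' hz'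
      intro i' hlt a' S' h'
      rw [Option.map_eq_some_iff] at h'
      obtain ⟨b, hb, hb2⟩ := h'
      obtain ⟨rfl, _⟩ := Prod.mk.inj hb2
      exact hi' i' hlt b hb
    · refine h2 (Encodable.encode t) f ?_ r n hn
      intro i a S h' m' hm' q hq z' hz'
      rw [Option.map_eq_some_iff] at h'
      obtain ⟨b, hb, hb2⟩ := h'
      obtain ⟨rfl, rfl⟩ := Prod.mk.inj hb2
      exact (hprf u b (hg1 u i b hb).2).1 m' hm' q hq z' hz'
  choose m hm1 hm2 using hG1
  refine ⟨(List.finite_length_le Bool k).toFinset.image m, ?_, ?_⟩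
  · intro m' hm' w
    obtain ⟨u, _, rfl⟩ := Finset.mem_image.1 hm'
    exact hm2 u w
  · intro w u hu hOut s hs hc
    obtain ⟨r3, h31, h32⟩ := hc
    set E : Finset M := (List.finite_length_le Bool k).toFinset.image m with hE
    have hmE : m u ∈ E := Finset.mem_image.2 ⟨u, by
      rw [Set.Finite.mem_toFinset]; exact hu, rfl⟩
    have h3w : le Γ (Iio j) r3 w := by
      refine le_congr (low_iio j) (fun _ _ => rfl) (fun i hi => ?_) (le_mono (subset_univ (Iio j)) h31)
      exact upd_of_ne w _ (ne_of_lt hi)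
    obtain ⟨w4, h4, hAt4⟩ := ((hX M T Γ j X hT hS t f).2.2 u w).1 hOut r3 h3w
    have hAt4' : At Γ j X t f u (rst (Iio j) w4) := At_mono hS (rst_eq (low_iio j) w4) hAt4
    obtain ⟨i0, a0, hi0, r5, h51, h52⟩ := hg2 u (rst (Iio j) w4)
      (fun i hi => rst_notMem w4 hi) hAt4'
    have hex : ∃ i, ∃ a w5, g u i = some a ∧ le Γ (Iio j) w5 r3 ∧ le Γ (Iio j) w5 a := by
      refine ⟨i0, a0, r5, hi0, ?_, le_mono (subset_univ _) h52⟩
      exact le_trans' (low_iio j) (le_trans' (low_iio j) (le_mono (subset_univ (Iio j)) h51)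
        (rst_eq (low_iio j) w4)) h4
    obtain ⟨a, w5, hga, h5r, h5a⟩ := Nat.find_spec hex
    have hmin : ∀ i' < Nat.find hex, ∀ a', g u i' = some a' → ¬ Cmp (le Γ (Iio j)) w5 a' := by
      rintro i' hlt a' ha' ⟨r, hr1, hr2⟩
      exact Nat.find_min hex hlt ⟨a', r, ha', le_trans' (low_iio j) hr1 h5r, hr2⟩
    obtain ⟨hB, hO⟩ := hprf u a (hg1 u _ a hga).2
    -- the condition `z`
    set z : Cond M T := mix (Iio j) w5 (upd r3 j ⟨(r3 j).stem, (r3 j).pr ∪ prf u a⟩) with hz
    have hzlt : ∀ i, i < j → z i = w5 i := fun i hi => mix_mem _ _ hi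
    have hzj : z j = ⟨(r3 j).stem, (r3 j).pr ∪ prf u a⟩ := by
      rw [hz, mix_notMem _ _ (show j ∉ Iio j from lt_irrefl j), upd_same]
    have hzgt : ∀ i, j < i → z i = r3 i := by
      intro i hi
      rw [hz, mix_notMem _ _ (show i ∉ Iio j from not_lt.2 hi.le), upd_of_ne _ _ (ne_of_gt hi)]
    have hz3 : le Γ univ z r3 := by
      intro i _
      rcases lt_trichotomy i j with hi | rfl | hi
      · exact ext_congr i (fun l hl => (hzlt l (lt_trans hl hi)).symm) (hzlt i hi).symm rfl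
          (h5r i hi)
      · exact ext_same_stem (by rw [hzj]) (by rw [hzj]; exact Finset.subset_union_left)
      · exact ext_of_eq (hzgt i hi)
    have hzw5 : le Γ (Iio j) z w5 := le_of_eq (low_iio j) fun i hi => hzlt i hi
    have hfol3 := ext_iff_fol.1 (h31 j (mem_univ j))
    rw [upd_same] at hfol3
    obtain ⟨hst, _, hfolm⟩ := hfol3
    have hle : le Γ (Iic j) z (upd a j ⟨t, prf u a⟩) := by
      intro i hi
      rcases eq_or_lt_of_le (show i ≤ j from hi) with rfl | hlt
      · rw [ext_iff_fol, upd_same, hzj]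
        refine ⟨hst, Finset.subset_union_right, ?_⟩
        intro m' hm' i' hi1 hi2 r hr n hn
        obtain ⟨r', hr', z', hz'⟩ := Val.dense (Γ := Γ) (low_iio i) r (Γ i (m u))
          (Encodable.encode ((r3 i).stem.take i'))
        have hr'w : le Γ (Iio i) r' w5 :=
          le_trans' (low_iio i) hr' (le_trans' (low_iio i) hr hzw5)
        have h6 : n ≤ z' := hm1 u _ a hga r' (le_trans' (low_iio i) hr'w h5a)
          (fun i'' hlt a' ha' hc => hmin i'' hlt a' ha' (hc.mono (low_iio i) hr'w))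
          _ z' hz' m' hm' n (hn.mono (low_iio i) hr')
        have h7 : z' ≤ (r3 i).stem.getD i' 0 := hfolm (m u) hmE i' hi1 hi2 r'
          (le_trans' (low_iio i) hr'w h5r) z' hz'
        exact h6.trans h7
      · exact ext_congr i (fun l hl => (hzlt l (lt_trans hl hlt)).symm) (hzlt i hlt).symm
          (upd_of_ne a _ (ne_of_lt hlt)).symm (h5a i hlt)
    exact (hO.mono' (low_iic j) (hS u) hle) s hs
      ⟨z, le_refl' univ z, le_trans' low_univ hz3 h32⟩

end Pool.Agent.H631.THD.DEM
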