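import Pool.Agent.H631.TH.FStm

/-!
# DICH: the dichotomy for all names
-/

set_option autoImplicit false

namespace Pool.Agent.H631.THD.DICH

open Pool.Agent.H631.TH
open Set

section

variable {M T : Type} [LinearOrder T] [WellFoundedLT T] {Γ : Par M T}

theorem treeN_congr {X X' : TN M T} (h : ∀ u q, Out Γ (X' u) q ↔ Out Γ (X u) q)
    (hX : TreeN Γ X) : TreeN Γ X' := by
  intro u v huv q hq
  exact (h u q).2 (hX u v huv q ((h v q).1 hq))

theorem gnull_congr {γ : T} {X X' : TN M T} (h : ∀ u q, Out Γ (X' u) q ↔ Out Γ (X u) q)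
    {p : Cond M T} (hX : GNull Γ γ X' p) : GNull Γ γ X p := by
  intro N r hr
  obtain ⟨r', hr', n, L, hL, hu⟩ := hX N r hr
  exact ⟨r', hr', n, L, hL, fun u h1 h2 => (h u _).1 (hu u h1 h2)⟩

theorem capt_congr {γ : T} {X X' Y : TN M T} (h : ∀ u q, Out Γ (X' u) q ↔ Out Γ (X u) q)
    {p : Cond M T} (hX : Capt Γ γ X' Y p) : Capt Γ γ X Y p := by
  intro r hr u hu
  exact hX r hr u ((h u _).2 hu)

theorem dich_congr {γ : T} {X X' : TN M T} (h : ∀ u q, Out Γ (X' u) q ↔ Out Γ (X u) q)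
    (hX : Dich Γ γ X') : Dich Γ γ X := by
  obtain ⟨Y, h1, h2, h3⟩ := hX
  refine ⟨Y, h1, h2, fun p => ?_⟩
  rcases h3 p with ⟨q, hq, hq'⟩ | ⟨q, hq, n, hn⟩
  · exact Or.inl ⟨q, hq, gnull_congr h hq'⟩
  · exact Or.inr ⟨q, hq, n, capt_congr h hn⟩

/-- replacement of a name by a countable one -/
theorem cnt_name (hC : S_CNT) (hccc : CCC Γ) {W : Set T} (hW : Low W) (X : TN M T)
    (hX : SupT W X) : ∃ X' : TN M T, SupT W X' ∧ (∀ u q, Out Γ (X' u) q ↔ Out Γ (X u) q) ∧
      {t | ∃ u, ∃ s ∈ X' u, s t ≠ CV.top}.Countable := by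
  choose g hg1 hg2 using fun u => hC M T Γ hccc W hW (X u) (hX u)
  refine ⟨fun u => {s | ∃ m, g u m = some s}, hg1, hg2, ?_⟩
  have h1 : {t | ∃ u, ∃ s ∈ {s | ∃ m, g u m = some s}, s t ≠ CV.top} ⊆
      ⋃ u : List Bool, ⋃ m : ℕ, {t | ∃ s, g u m = some s ∧ s t ≠ CV.top} := by
    rintro t ⟨u, s, ⟨m, hm⟩, hs⟩
    exact mem_iUnion.2 ⟨u, mem_iUnion.2 ⟨m, s, hm, hs⟩⟩
  refine Countable.mono h1 (countable_iUnion fun u => countable_iUnion fun m => ?_)
  cases hgm : g u m with
  | none =>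
    have h2 : {t : T | ∃ s : Cond M T, (none : Option (Cond M T)) = some s ∧ s t ≠ CV.top} = ∅ := by
      rw [eq_empty_iff_forall_notMem]
      rintro t ⟨s, hs, -⟩
      cases hs
    rw [h2]
    exact countable_empty
  | some a =>
    refine Countable.mono ?_ a.2.countable
    rintro t ⟨s, hs, hst⟩
    have h3 : a = s := Option.some.inj hs
    rw [h3]
    exact hst

/-- the case distinction for a countable name -/
theorem claim_step (hB : S_DB) (hL : S_DL) (hS : S_SUCC) (hccc : CCC Γ) (hfull : Full Γ) (γ β : T)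
    (ih : ∀ j < β, ∀ X : TN M T, TreeN Γ X → SupT (Iio j) X → Dich Γ γ X) (X : TN M T)
    (hT : TreeN Γ X) (hX : SupT (Iio β) X) (hJ : {t | ∃ u, ∃ s ∈ X u, s t ≠ CV.top}.Countable) :
    Dich Γ γ X := by
  obtain ⟨J, hJd⟩ : ∃ J : Set T, J = {t | ∃ u, ∃ s ∈ X u, s t ≠ CV.top} := ⟨_, rfl⟩
  rw [← hJd] at hJ
  have hmem : ∀ u, ∀ s ∈ X u, ∀ t, s t ≠ CV.top → t ∈ J := by
    intro u s hs t ht
    rw [hJd]
    exact ⟨u, s, hs, ht⟩
  have hβ : ∀ t ∈ J, t < β := by
    intro t ht
    rw [hJd] at ht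
    obtain ⟨u, s, hs, hst⟩ := ht
    by_contra hcon
    exact hst (hX u s hs t hcon)
  by_cases hA : ∀ t ∈ J, t < γ
  · refine hB M T Γ γ X hT fun u s hs i hi => ?_
    by_contra hcon
    exact hi (hA i (hmem u s hs i hcon))
  push Not at hA
  obtain ⟨j0, hj0, hγ⟩ := hA
  by_cases hM : ∃ j ∈ J, ∀ t ∈ J, t ≤ j
  · obtain ⟨j, hj, hmax⟩ := hM
    refine hS M T Γ hccc hfull γ j (hγ.trans (hmax j0 hj0)) X hT (fun u s hs i hi => ?_)
      (ih j (hβ j hj))
    by_contra hcon
    exact hi (hmax i (hmem u s hs i hcon))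
  · push Not at hM
    obtain ⟨e, he⟩ := hJ.exists_eq_range ⟨j0, hj0⟩
    have heJ : ∀ n, e n ∈ J := fun n => by
      rw [he]
      exact mem_range_self n
    have hnext : ∀ t : T, ∃ t' : T, t ∈ J → t' ∈ J ∧ t < t' := by
      intro t
      by_cases ht : t ∈ J
      · obtain ⟨t', h1, h2⟩ := hM t ht
        exact ⟨t', fun _ => ⟨h1, h2⟩⟩
      · exact ⟨t, fun h => absurd h ht⟩
    choose nx hnx using hnext
    -- the sequence
    obtain ⟨i, hi0, his⟩ : ∃ i : ℕ → T, i 0 = j0 ∧ ∀ n, i (n + 1) = nx (max (i n) (e n)) :=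
      ⟨fun n => Nat.rec j0 (fun n x => nx (max x (e n))) n, rfl, fun n => rfl⟩
    have hmaxJ : ∀ a b, a ∈ J → b ∈ J → max a b ∈ J := by
      intro a b ha hb
      rcases max_choice a b with h | h
      · rw [h]
        exact ha
      · rw [h]
        exact hb
    have hiJ : ∀ n, i n ∈ J := by
      intro n
      induction n with
      | zero =>
        rw [hi0]
        exact hj0
      | succ n ihn =>
        rw [his]
        exact (hnx _ (hmaxJ _ _ ihn (heJ n))).1
    have hlt : ∀ n, max (i n) (e n) < i (n + 1) := by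
      intro n
      rw [his]
      exact (hnx _ (hmaxJ _ _ (hiJ n) (heJ n))).2
    have hmono : Monotone i :=
      monotone_nat_of_le_succ fun n => (lt_of_le_of_lt (le_max_left _ _) (hlt n)).le
    have hcov : ∀ t ∈ J, ∃ n, t < i n := by
      intro t ht
      rw [he] at ht
      obtain ⟨n, rfl⟩ := ht
      exact ⟨n + 1, lt_of_le_of_lt (le_max_right _ _) (hlt n)⟩
    refine hL M T Γ γ X i hT (fun n => ?_) hmono (fun u s hs => ?_) (fun n => ih (i n) (hβ _ (hiJ n)))
    · have h1 : i 0 ≤ i n := hmono (Nat.zero_le n)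
      rw [hi0] at h1
      exact hγ.trans h1
    · -- finite support
      have hfin : ∀ F : Finset T, (∀ t ∈ F, t ∈ J) → ∃ n, ∀ t ∈ F, t < i n := by
        classical
        intro F
        induction F using Finset.induction_on with
        | empty => exact fun _ => ⟨0, fun t ht => absurd ht (Finset.notMem_empty t)⟩
        | insert a F _ ihF =>
          intro hF
          obtain ⟨n, hn⟩ := ihF fun t ht => hF t (Finset.mem_insert_of_mem ht)
          obtain ⟨m, hm⟩ := hcov a (hF a (Finset.mem_insert_self a F))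
          refine ⟨max n m, fun t ht => ?_⟩
          rcases Finset.mem_insert.1 ht with rfl | ht
          · exact lt_of_lt_of_le hm (hmono (le_max_right _ _))
          · exact lt_of_lt_of_le (hn t ht) (hmono (le_max_left _ _))
      obtain ⟨n, hn⟩ := hfin s.supp fun t ht => hmem u s hs t (Cond.mem_supp.1 ht)
      refine ⟨n, fun t ht => ?_⟩
      by_contra hcon
      exact ht (hn t (Cond.mem_supp.2 hcon))

end

theorem th_DICH (hC : S_CNT) (hB : S_DB) (hL : S_DL) (hS : S_SUCC) : S_DICH := by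
  intro M T _ _ Γ hccc hfull hTc γ X hX
  have claim : ∀ β : T, ∀ X : TN M T, TreeN Γ X → SupT (Iio β) X → Dich Γ γ X := by
    intro β
    induction β using WellFoundedLT.induction with
    | _ β ih =>
      intro X hT hX
      obtain ⟨X', h1, h2, h3⟩ := cnt_name hC hccc (low_iio β) X hX
      exact dich_congr h2 (claim_step hB hL hS hccc hfull γ β ih X' (treeN_congr h2 hT) h1 h3)
  obtain ⟨X', h1, h2, h3⟩ := cnt_name hC hccc (low_univ (T := T)) X
    (fun u s _ i hi => absurd (mem_univ i) hi)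
  obtain ⟨β, hβ⟩ := hTc _ h3
  refine dich_congr h2 (claim β X' (treeN_congr h2 hX) fun u s hs i hi => ?_)
  by_contra hcon
  exact hi (hβ i ⟨u, s, hs, hcon⟩)

end Pool.Agent.H631.THD.DICH
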