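import Pool.Agent.H631.TH.FStm

/-!
# The dichotomy at limits (helper747)
-/

set_option autoImplicit false
set_option linter.unusedSectionVars false

namespace Pool.Agent.H631.THD.DL

open Pool.Agent.H631.TH Classical Set

variable {M T : Type} [LinearOrder T] [WellFoundedLT T]

/-- The name of the set of the `u` that cannot be excluded from `X` by conditions supported
in `W`. -/
def XP (Γ : Par M T) (W : Set T) (X : TN M T) : TN M T := fun u =>
  {r | (∀ t ∉ W, r t = CV.top) ∧ ∀ r', le Γ W r' r → ¬ Out Γ (X u) (rst W r')}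

theorem XP_tree {Γ : Par M T} {W : Set T} {X : TN M T} (hX : TreeN Γ X) :
    TreeN Γ (XP Γ W X) := by
  intro u v huv q hq s hs
  refine hq s ⟨hs.1, fun r' hr' ho => hs.2 r' hr' (hX u v huv _ ho)⟩

theorem XP_sup (Γ : Par M T) (W : Set T) (X : TN M T) : SupT W (XP Γ W X) :=
  fun _ _ hs => hs.1

theorem XP_iff {Γ : Par M T} {V W : Set T} (hV : Low V) (hW : Low W) {X : TN M T}
    (hX : SupT V X) {p : Cond M T} (hp : ∀ t ∈ V, t ∉ W → p t = CV.top) (u : List Bool) :
    Out Γ (XP Γ W X u) p ↔ Out Γ (X u) p := by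
  constructor
  · rintro h s hs ⟨r3, h1, h2⟩
    have h3 : rst W r3 ∉ XP Γ W X u := fun hm => h _ hm ⟨r3, h1, le_rst hW r3⟩
    have h4 : ∃ r', le Γ W r' (rst W r3) ∧ Out Γ (X u) (rst W r') := by
      by_contra hc
      push Not at hc
      exact h3 ⟨fun t ht => rst_notMem r3 ht, hc⟩
    obtain ⟨r', h5, h6⟩ := h4
    have h7 : le Γ W r' r3 := le_congr hW (fun _ _ => rfl) (fun i hi => rst_mem r3 hi) h5
    refine h6 s hs ⟨mix W r' r3, ?_, le_trans' low_univ (mix_le hW h7) h2⟩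
    intro i _
    by_cases hi : i ∈ W
    · exact ext_of_eq ((mix_mem r' r3 hi).trans (rst_mem r' hi).symm)
    · exact ext_top (rst_notMem r' hi)
  · rintro h r hr ⟨r3, h1, h2⟩
    refine hr.2 r3 (le_mono (subset_univ _) h2) (h.mono' hV (hX u) ?_)
    intro j hj
    by_cases hjW : j ∈ W
    · exact ext_congr j (fun i hi => (rst_mem r3 (hW j hjW i hi)).symm) (rst_mem r3 hjW).symm rfl
        (h1 j (mem_univ j))
    · exact ext_top (hp j hj hjW)

theorem th_DL : S_DL := by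
  intro M T _ _ Γ γ X i hX hγ hi hs hd
  have hlow : ∀ n, Low (Iio (i n)) := fun n => low_iio (i n)
  have hV : Low (⋃ n, Iio (i n)) := by
    intro j hj k hk
    rw [mem_iUnion] at hj ⊢
    obtain ⟨n, hn⟩ := hj
    exact ⟨n, hlow n j hn k hk⟩
  have hXV : SupT (⋃ n, Iio (i n)) X := by
    intro u s hsu t ht
    obtain ⟨n, hn⟩ := hs u s hsu
    exact hn t fun h => ht (mem_iUnion.2 ⟨n, h⟩)
  have hsub : ∀ n, Iio γ ⊆ Iio (i n) := fun n => Iio_subset_Iio (hγ n)
  choose Y hY1 hY2 hY3 using fun n =>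
    hd n (XP Γ (Iio (i n)) X) (XP_tree hX) (XP_sup Γ _ X)
  refine ⟨fun k => Y (Nat.unpair k).1 (Nat.unpair k).2, fun k => hY1 _ _, fun k => hY2 _ _, ?_⟩
  intro p
  -- the support of `p` in the union is contained in some `Iio (i n)`
  obtain ⟨n, hn⟩ : ∃ n, ∀ t ∈ ⋃ n, Iio (i n), t ∉ Iio (i n) → p t = CV.top := by
    have h1 : ∀ t : T, ∃ m, t ∈ ⋃ n, Iio (i n) → t ∈ Iio (i m) := by
      intro t
      by_cases ht : t ∈ ⋃ n, Iio (i n)
      · obtain ⟨m, hm⟩ := mem_iUnion.1 ht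
        exact ⟨m, fun _ => hm⟩
      · exact ⟨0, fun h => absurd h ht⟩
    choose m hm using h1
    refine ⟨p.supp.sup m, fun t ht hnt => ?_⟩
    by_contra hpt
    have h2 : m t ≤ p.supp.sup m := Finset.le_sup (Cond.mem_supp.2 hpt)
    exact hnt (Iio_subset_Iio (hi h2) (hm t ht))
  have hmix : ∀ q : Cond M T, le Γ univ q p → le Γ univ (mix (Iio (i n)) q p) p := fun q hq =>
    mix_le (hlow n) (le_mono (subset_univ _) hq)
  -- the conditions agree on `Iio (i n)`
  have hagree : ∀ (q r : Cond M T), ∀ t ∈ Iio (i n),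
      mix (Iio γ) r (mix (Iio (i n)) q p) t = mix (Iio γ) r q t := by
    intro q r t ht
    by_cases h : t ∈ Iio γ
    · rw [mix_mem _ _ h, mix_mem _ _ h]
    · rw [mix_notMem _ _ h, mix_notMem _ _ h, mix_mem _ _ ht]
  have hoff : ∀ (q r : Cond M T), ∀ t ∈ ⋃ n, Iio (i n), t ∉ Iio (i n) →
      mix (Iio γ) r (mix (Iio (i n)) q p) t = CV.top := by
    intro q r t ht hnt
    rw [mix_notMem _ _ (fun h => hnt (hsub n h)), mix_notMem _ _ hnt]
    exact hn t ht hnt
  have hkey : ∀ (q r : Cond M T) (u : List Bool),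
      Out Γ (X u) (mix (Iio γ) r (mix (Iio (i n)) q p)) ↔
        Out Γ (XP Γ (Iio (i n)) X u) (mix (Iio γ) r q) := by
    intro q r u
    rw [← XP_iff hV (hlow n) hXV (hoff q r) u]
    exact Out.iff_of_eq (hlow n) (XP_sup Γ _ X u) (hagree q r)
  have hleq : ∀ (q r : Cond M T), le Γ (Iio γ) r (mix (Iio (i n)) q p) → le Γ (Iio γ) r q :=
    fun q r h => le_congr (low_iio γ) (fun _ _ => rfl)
      (fun t ht => mix_mem q p (hsub n ht)) h
  rcases hY3 n p with ⟨q, hq, hg⟩ | ⟨q, hq, m, hc⟩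
  · left
    refine ⟨mix (Iio (i n)) q p, hmix q hq, ?_⟩
    intro N r hr
    obtain ⟨r', h1, n0, L, h2, h3⟩ := hg N r (hleq q r hr)
    exact ⟨r', h1, n0, L, h2, fun u hu huL => (hkey q r' u).2 (h3 u hu huL)⟩
  · right
    refine ⟨mix (Iio (i n)) q p, hmix q hq, Nat.pair n m, ?_⟩
    intro r hr u ho
    simp only [Nat.unpair_pair]
    exact hc r (hleq q r hr) u ((hkey q r u).1 ho)

end Pool.Agent.H631.THD.DL
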