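import Pool.Agent.H631.TH.GStm

/-!
# TH / DN (helper668): density of good codes
-/

set_option autoImplicit false

namespace Pool.Agent.H631.THD.DN

open Classical Set Pool.Agent.H631.TH

section

variable {M T : Type} [LinearOrder T] [WellFoundedLT T] {Γ : Par M T}

theorem Lc_pair (n l z0 : ℕ) (L : Finset (List Bool)) (h1 : ∀ v ∈ L, v.length = l)
    (h2 : 2 ^ n * L.card ≤ 2 ^ l) : Lc n (Nat.pair (Encodable.encode L) z0) = L := by
  unfold Lc
  rw [Nat.unpair_pair]
  dsimp only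
  rw [Encodable.encodek]
  dsimp only
  rw [if_pos ⟨l, h1, h2⟩]

/-- decide the values at the stem of all promises -/
theorem bound (j : T) (r1 : Cond M T) (e : ℕ) : ∃ w, le Γ (Iio j) w r1 ∧ ∃ z0 : ℕ,
    ∀ m ∈ (r1 j).pr, ∀ t, le Γ (Iio j) t w → ∀ v, Val (le Γ (Iio j)) t (Γ j m) e v → v ≤ z0 := by
  obtain ⟨w, hw, hv⟩ := Val.decideF (Γ := Γ) (low_iio j) (r1 j).pr (fun m => Γ j m) (fun _ => e) r1
  choose! f hf using hv
  refine ⟨w, hw, (r1 j).pr.sup f, fun m hm t ht v hv' => ?_⟩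
  have h1 : Val (le Γ (Iio j)) t (Γ j m) e (f m) := (hf m hm).mono (low_iio j) ht
  rw [Val.unique hv' h1]
  exact Finset.le_sup (f := f) hm

theorem step (j : T) (r1 w r2 : Cond M T) (z0 c : ℕ) (hw : le Γ (Iio j) w r1)
    (hz : ∀ m ∈ (r1 j).pr, ∀ t, le Γ (Iio j) t w →
      ∀ v, Val (le Γ (Iio j)) t (Γ j m) (Encodable.encode (r1 j).stem) v → v ≤ z0)
    (h2 : le Γ (Iio j) r2 w) (hc : z0 ≤ c) :
    le Γ univ (mix (Iio j) r2 (upd r1 j ⟨(r1 j).stem ++ [c], (r1 j).pr⟩)) r1 := by
  intro i _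
  rcases lt_trichotomy i j with hij | rfl | hij
  · have h3 : le Γ (Iio j) r2 r1 := le_trans' (low_iio j) h2 hw
    exact ext_congr i (fun l hl => (mix_mem r2 _ (show l ∈ Iio j from lt_trans hl hij)).symm)
      (mix_mem r2 _ (show i ∈ Iio j from hij)).symm rfl (h3 i hij)
  · have e1 : mix (Iio i) r2 (upd r1 i ⟨(r1 i).stem ++ [c], (r1 i).pr⟩) i =
        ⟨(r1 i).stem ++ [c], (r1 i).pr⟩ := by
      rw [mix_notMem _ _ (show i ∉ Iio i from lt_irrefl i), upd_same]
    rw [ext_iff, e1]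
    refine ⟨List.prefix_append _ _, Finset.Subset.refl _, fun m hm k hk1 hk2 t ht v hv => ?_⟩
    dsimp only at hk2 hv ⊢
    rw [List.length_append, List.length_singleton] at hk2
    have hk : k = (r1 i).stem.length := by omega
    subst hk
    rw [List.take_left] at hv
    have h3 : le Γ (Iio i) t w := by
      refine le_trans' (low_iio i) (le_trans' (low_iio i) ht ?_) h2
      exact mix_eq (low_iio i) _ _
    have h4 := hz m hm t h3 v hv
    have h5 : ((r1 i).stem ++ [c]).getD (r1 i).stem.length 0 = c := by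
      rw [List.getD_append_right _ _ _ _ le_rfl, Nat.sub_self]
      rfl
    rw [h5]
    exact h4.trans hc
  · refine ext_of_eq ?_
    rw [mix_notMem _ _ (show i ∉ Iio j from not_lt.2 hij.le), upd_of_ne _ _ (ne_of_gt hij)]

end

theorem th_DN (hE : S_EX) : S_DN := by
  intro M T _ _ Γ t t' htt X q hG r hr i
  obtain ⟨r1, hr1, hlen, -⟩ := hE M T Γ t r i
  obtain ⟨w, hw, z0, hz⟩ := bound (Γ := Γ) t r1 (Encodable.encode (r1 t).stem)
  have hsub : Iio t ⊆ Iio t' := fun x hx => lt_trans hx htt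
  have hwq : le Γ (Iio t) w q :=
    le_trans' (low_iio t) hw (le_trans' (low_iio t) (le_mono (subset_univ _) hr1)
      (le_mono hsub hr))
  obtain ⟨r2, h2, l, L, hL, hout⟩ := hG (2 ^ (r1 t).stem.length) w hwq
  have hL' : 2 ^ (r1 t).stem.length * (L.filter fun v => v.length = l).card ≤ 2 ^ l :=
    (Nat.mul_le_mul_left _ (Finset.card_filter_le _ _)).trans hL
  have hLc := Lc_pair (r1 t).stem.length l z0 (L.filter fun v => v.length = l)
    (fun v hv => (Finset.mem_filter.1 hv).2) hL'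
  have hst := step (Γ := Γ) t r1 w r2 z0
    (Nat.pair (Encodable.encode (L.filter fun v => v.length = l)) z0) hw hz h2
    (Nat.right_le_pair _ _)
  refine ⟨_, le_mono (subset_univ _) (le_trans' low_univ hst hr1), (r1 t).stem.length, hlen, ?_⟩
  have e1 : mix (Iio t) r2 (upd r1 t ⟨(r1 t).stem ++
      [Nat.pair (Encodable.encode (L.filter fun v => v.length = l)) z0], (r1 t).pr⟩) t =
      ⟨(r1 t).stem ++ [Nat.pair (Encodable.encode (L.filter fun v => v.length = l)) z0],
        (r1 t).pr⟩ := by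
    rw [mix_notMem _ _ (show t ∉ Iio t from lt_irrefl t), upd_same]
  unfold Gd
  rw [e1]
  dsimp only
  refine ⟨by rw [List.length_append, List.length_singleton]; omega, l, fun v hv hvL => ?_⟩
  have h5 : ((r1 t).stem ++ [Nat.pair (Encodable.encode (L.filter fun v => v.length = l)) z0]).getD
      (r1 t).stem.length 0 =
      Nat.pair (Encodable.encode (L.filter fun v => v.length = l)) z0 := by
    rw [List.getD_append_right _ _ _ _ le_rfl, Nat.sub_self]
    rfl
  rw [h5, hLc] at hvL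
  have h6 : v ∉ L := fun h => hvL (Finset.mem_filter.2 ⟨h, hv⟩)
  have h7 : ∀ p : Cond M T, mix (Iio t) (mix (Iio t) r2 p) q = mix (Iio t) r2 q := by
    intro p
    refine Cond.ext' fun x => ?_
    by_cases hx : x ∈ Iio t
    · rw [mix_mem _ _ hx, mix_mem _ _ hx, mix_mem _ _ hx]
    · rw [mix_notMem _ _ hx, mix_notMem _ _ hx]
  rw [h7]
  exact hout v hv h6

end Pool.Agent.H631.THD.DN
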