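import Pool.Agent.H631.TH.GStm

/-!
# Project TH (MP_40b13d_lc): part EX, longer stems
-/

set_option autoImplicit false
set_option linter.unusedSectionVars false

namespace Pool.Agent.H631.THD.EX

open Classical Set Pool.Agent.H631.TH

variable {M T : Type} [LinearOrder T] [WellFoundedLT T]

/-- one number more in the stem at `j` -/
theorem one_step (Γ : Par M T) (j : T) (p : Cond M T) : ∃ q, le Γ univ q p ∧
    (q j).stem.length = (p j).stem.length + 1 ∧ ∀ i, j < i → q i = p i := by
  obtain ⟨w, hw, hd⟩ := Val.decideF (Γ := Γ) (low_iio j) (p j).pr (fun m => Γ j m)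
    (fun _ => Encodable.encode (p j).stem) p
  have hd' : ∀ m : M, ∃ v, m ∈ (p j).pr →
      Val (le Γ (Iio j)) w (Γ j m) (Encodable.encode (p j).stem) v := by
    intro m
    by_cases hm : m ∈ (p j).pr
    · obtain ⟨v, hv⟩ := hd m hm
      exact ⟨v, fun _ => hv⟩
    · exact ⟨0, fun h => absurd h hm⟩
  choose val hval using hd'
  set s := (p j).stem with hs
  set a : ℕ := (p j).pr.sup val with ha
  set q : Cond M T := mix (Iio j) w (upd p j ⟨s ++ [a], (p j).pr⟩) with hq
  have hqj : q j = ⟨s ++ [a], (p j).pr⟩ := by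
    rw [hq, mix_notMem (S := Iio j) _ _ (fun h : j < j => lt_irrefl j h), upd_same]
  have hqlo : ∀ i, i < j → q i = w i := fun i hi => mix_mem (S := Iio j) _ _ hi
  have hqhi : ∀ i, j < i → q i = p i := fun i hi => by
    rw [hq, mix_notMem (S := Iio j) _ _ (fun h : i < j => lt_asymm hi h), upd_of_ne _ _ hi.ne']
  have hqw : le Γ (Iio j) q w := le_of_eq (low_iio j) hqlo
  refine ⟨q, fun i _ => ?_, ?_, hqhi⟩
  · rcases lt_trichotomy i j with hi | rfl | hi
    · exact ext_congr i (fun l hl => (hqlo l (hl.trans hi)).symm) (hqlo i hi).symm rfl (hw i hi)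
    · rw [ext_iff_fol, hqj, ← hs]
      refine ⟨List.prefix_append _ _, Finset.Subset.refl _, ?_⟩
      intro m hm l hl hl' r hr n hn
      have hlen : l = s.length := by
        simp only [List.length_append, List.length_singleton] at hl'
        omega
      subst hlen
      have h1 : (s ++ [a]).take s.length = s := by simp
      have h2 : (s ++ [a]).getD s.length 0 = a := by simp
      change Val (le Γ (Iio i)) r (Γ i m) (Encodable.encode ((s ++ [a]).take s.length)) n at hn
      change n ≤ (s ++ [a]).getD s.length 0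
      rw [h1] at hn
      rw [h2]
      have h3 := (hval m hm).mono (low_iio i) (le_trans' (low_iio i) hr hqw)
      rw [hn.unique h3, ha]
      exact Finset.le_sup (f := val) hm
    · exact ext_of_eq (hqhi i hi)
  · rw [hqj]
    simp

theorem th_EX : S_EX := by
  intro M T _ _ Γ j p N
  induction N with
  | zero => exact ⟨p, le_refl' univ p, Nat.zero_le _, fun _ _ => rfl⟩
  | succ N ih =>
    obtain ⟨q1, h1, h2, h3⟩ := ih
    obtain ⟨q, h4, h5, h6⟩ := one_step Γ j q1
    exact ⟨q, le_trans' low_univ h4 h1, by omega, fun i hi => (h6 i hi).trans (h3 i hi)⟩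

end Pool.Agent.H631.THD.EX
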