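import Pool.Agent.H631.TH.GStm

/-!
# TH-FB: basic facts on the names of the null trees
-/

set_option autoImplicit false

namespace Pool.Agent.H631.THD.FB

open Classical Set Pool.Agent.H631.TH

/-- the end points of the blocks increase -/
theorem blk_lt (s : List ℕ) (k : ℕ) : blk s k < blk s (k + 1) := by
  show blk s k < blk s k + 1 + s.getD (blk s k) 0
  omega

theorem blk_mono (s : List ℕ) {j k : ℕ} (h : j ≤ k) : blk s j ≤ blk s k := by
  induction k with
  | zero =>
    have : j = 0 := by omega
    subst this
    exact le_rfl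
  | succ k ih =>
    rcases Nat.lt_or_ge k j with h1 | h1
    · have : j = k + 1 := by omega
      subst this
      exact le_rfl
    · exact (ih h1).trans (blk_lt s k).le

/-- the end points only depend on the part of the stem which has been used -/
theorem blk_prefix {s s' : List ℕ} (h : s <+: s') :
    ∀ i : ℕ, (∀ j < i, blk s j < s.length) → blk s' i = blk s i := by
  intro i
  induction i with
  | zero => intro _; rfl
  | succ i ih =>
    intro hi
    have h1 : blk s' i = blk s i := ih fun j hj => hi j (by omega)
    have h2 : blk s i < s.length := hi i (by omega)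
    show blk s' i + 1 + s'.getD (blk s' i) 0 = blk s i + 1 + s.getD (blk s i) 0
    rw [h1, getD_prefix h h2]

theorem th_FB : S_FB := by
  intro M T _ _ Γ t t' k0 u
  have h1 : ∀ r r' : Cond M T, le Γ univ r' r → Excl t t' k0 u r → Excl t t' k0 u r' := by
    rintro r r' hr ⟨k, hk, hb, hb', hE⟩
    have hs : (r t').stem <+: (r' t').stem := ext_stem (hr t' (mem_univ t'))
    have ha : (r t).stem <+: (r' t).stem := ext_stem (hr t (mem_univ t))
    have e0 : blk (r' t').stem k = blk (r t').stem k :=
      blk_prefix hs k fun j hj => (blk_mono _ hj.le).trans_lt hb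
    have e1 : blk (r' t').stem (k + 1) = blk (r t').stem (k + 1) :=
      blk_prefix hs (k + 1) fun j hj => (blk_mono _ (Nat.lt_succ_iff.1 hj)).trans_lt hb
    refine ⟨k, hk, ?_, ?_, ?_⟩
    · rw [e0]
      exact hb.trans_le hs.length_le
    · rw [e1]
      exact hb'.trans ha.length_le
    · intro n hn hn' v hv
      rw [e0] at hn
      rw [e1] at hn'
      rw [getD_prefix ha (hn'.trans_le hb')] at hv
      exact hE n hn hn' v hv
  refine ⟨h1, fun q => ⟨fun hO r hr => ?_, fun hD s hs hc => ?_⟩⟩
  · by_contra hcon
    refine hO r (fun r' hr' hE => hcon ⟨r', hr', hE⟩) ⟨r, hr, le_refl' univ r⟩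
  · obtain ⟨r, hrq, hrs⟩ := hc
    obtain ⟨r', hr', hE⟩ := hD r hrq
    exact hs r' (le_trans' low_univ hr' hrs) hE

end Pool.Agent.H631.THD.FB
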