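import Pool.Agent.H631.TH.GStm

/-!
# All conditions force the sentence
-/

set_option autoImplicit false
set_option linter.unusedSectionVars false

namespace Pool.Agent.H631.THD.FIN

open Classical Set Pool.Agent.Helper669.Forcing Pool.Agent.H631.TH

section

variable {M T : Type} [LinearOrder T] [WellFoundedLT T] {Γ : Par M T}

theorem not_out_of_mem {N : Set (Cond M T)} {r : Cond M T} (h : r ∈ N) : ¬ Out Γ N r :=
  fun ho => ho r h ⟨r, le_refl' univ r, le_refl' univ r⟩

theorem not_inn {N : Set (Cond M T)} {r : Cond M T} (h : ¬ Inn Γ N r) :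
    ∃ r1, le Γ univ r1 r ∧ Out Γ N r1 := by
  unfold Inn at h
  push Not at h
  exact h

/-- the trees are forced to be null -/
theorem thinS (F : List Bool → Set (PP Γ))
    (h : ∀ (N : ℕ) (p : Cond M T), ∃ q, le Γ univ q p ∧ ∃ (n : ℕ) (L : Finset (List Bool)),
      N * L.card ≤ 2 ^ n ∧ ∀ u : List Bool, u.length = n → u ∉ L →
        Out Γ (F u : Set (Cond M T)) q) (p : PP Γ) : p ∈ ThinS F := by
  intro N
  refine mem_fex.2 fun q _ => ?_
  obtain ⟨q', hq', n, L, hc, ho⟩ := h N q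
  refine ⟨q', hq', n, mem_fex_of_mem L ?_ ⟨hc, fun u => mem_fimp.2 fun s hs hm => ⟨s, le_rfl, ?_⟩⟩⟩
  · exact down_fand (down_fground _) (down_fall fun _ => down_fimp _ _)
  · refine mem_fimp.2 fun s' hs' hlen => ⟨s', le_rfl, ?_⟩
    by_contra hu
    have h1 : Out Γ (F u : Set (Cond M T)) q' := ho u hlen hu
    have h2 : Inn Γ (F u : Set (Cond M T)) s := mem_meets.1 hm
    exact h2 s (le_refl' univ s) (h1.mono hs)

/-- the trees are forced to have positive measure -/
theorem fatS (X : List Bool → Set (PP Γ)) (Y : TN M T)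
    (hXY : ∀ u q, Out Γ (X u : Set (Cond M T)) q ↔ Out Γ (Y u) q) (h : FatN Γ Y) (p : PP Γ) :
    p ∈ FatS X := by
  have hI : ∀ u q, Inn Γ (Y u) q → Inn Γ (X u : Set (Cond M T)) q := fun u q hq r hr ho =>
    hq r hr ((hXY u r).1 ho)
  obtain ⟨h1, c, h2⟩ := h
  refine ⟨fun u v => mem_fimp.2 fun q _ huv => ⟨q, le_rfl, mem_fimp.2 fun r _ hm =>
    ⟨r, le_rfl, ?_⟩⟩, ?_⟩
  · refine mem_meets.2 fun s hs ho => ?_
    exact mem_meets.1 hm s hs ((hXY u s).2 (h1 u v huv s ((hXY v s).1 ho)))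
  · refine mem_fex_of_mem c (down_fall fun _ => down_fex _) fun k => mem_fex.2 fun q _ => ?_
    obtain ⟨q', hq', L, hL, hu⟩ := h2 k q
    refine ⟨q', hq', L, hL, fun u => mem_fimp.2 fun s hs hu' => ⟨s, le_rfl, (hu u hu').1, ?_⟩⟩
    exact mem_meets.2 ((hI u q' (hu u hu').2).mono hs)

end

/-- **FIN.** All conditions force the sentence. -/
theorem th_FIN (hC : S_CNT) (hD : S_DICH) (hTF : S_TF) (hV : S_COV) (hR : S_RN) : S_FIN := by
  intro M T _ _ _ Γ hccc hfull hbd hPH p
  choose t' ht' using fun t : T => exists_gt t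
  have hdown : ∀ Y : ℕ → List Bool → Set (PP Γ), ∀ a : T → ℕ → Set (PP Γ),
      Down (fand (fall fun n => FatS (Y n))
            (fall fun C : ℕ → List Bool → Set (PP Γ) =>
              fimp (fall fun t => fex fun m : ℕ => fall fun u : List Bool =>
                  fimp (InitN u (a t)) (meets (C m u)))
                (fex fun m : ℕ => fex fun n : ℕ => fall fun u : List Bool =>
                  fimp (meets (Y n u)) (meets (C m u))))) := fun Y a =>
    down_fand (down_fall fun n => down_fand (down_fall fun _ => down_fall fun _ => down_fimp _ _)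
      (down_fex _)) (down_fall fun _ => down_fimp _ _)
  refine mem_fex_of_mem (fun t k => (FNm Γ t (t' t) k : List Bool → Set (PP Γ))) ?_
    ⟨fun t k => thinS _ (fun N q => hTF M T Γ t (t' t) (ht' t) k N q) p, fun a => ?_⟩
  · exact down_fand (down_fall fun _ => down_fall fun _ => down_fall fun _ => down_fex _)
      (down_fall fun _ => down_fimp _ _)
  refine mem_fimp.2 fun p0 _ h0 => ⟨p0, le_rfl, ?_⟩
  -- the dichotomy for each real, and countable names
  have hX := fun t => hR M T Γ (a t)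
  choose Y hYsup hYfat hYdich using fun t => hD M T Γ hccc hfull hbd t (XA Γ (a t)) (hX t).1
  choose y hysup hyout using fun t n u =>
    hC M T Γ hccc (Iio t) (low_iio t) (Y t n u) (hYsup t n u)
  obtain ⟨y0, hy0⟩ := hPH y fun t n u m c hc i hi => hysup t n u c ⟨m, hc⟩ i hi
  have hout : ∀ t, y t = y0 → ∀ n u q,
      Out Γ {c | ∃ m, y0 n u m = some c} q ↔ Out Γ (Y t n u) q := by
    rintro t rfl n u q
    exact hyout t n u q
  refine mem_fex_of_mem (fun n u => ({c | ∃ m, y0 n u m = some c} : Set (PP Γ)))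
    (hdown _ a) ⟨fun n => ?_, fun C => mem_fimp.2 fun p1 hp1 h1 => ?_⟩
  · obtain ⟨β, _⟩ := hbd ∅ countable_empty
    obtain ⟨t, _, ht⟩ := hy0 β
    exact fatS _ (Y t n) (fun u q => hout t ht n u q) (hYfat t n) p0
  -- the covering sets have countable names
  choose g hgsup hgout using fun m u =>
    hC M T Γ hccc univ low_univ (C m u : Set (Cond M T)) (fun s _ i hi => absurd (mem_univ i) hi)
  obtain ⟨δ, hδ⟩ := hbd {i | ∃ (m : ℕ) (u : List Bool) (k : ℕ) (c : Cond M T),
      g m u k = some c ∧ c i ≠ CV.top} (by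
    have h : {i | ∃ (m : ℕ) (u : List Bool) (k : ℕ) (c : Cond M T),
        g m u k = some c ∧ c i ≠ CV.top} =
        ⋃ x : ℕ × List Bool × ℕ, {i | ∃ c : Cond M T, g x.1 x.2.1 x.2.2 = some c ∧ c i ≠ CV.top} := by
      ext i
      simp only [mem_iUnion, Prod.exists]
      rfl
    rw [h]
    refine countable_iUnion fun x => ?_
    rcases hx : g x.1 x.2.1 x.2.2 with _ | c
    · refine (countable_empty).mono ?_
      rintro i ⟨c, hc, _⟩
      cases hc
    · refine (c.2.countable).mono ?_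
      rintro i ⟨c', hc, hi⟩
      cases hc
      exact hi)
  obtain ⟨t, hδt, hyt⟩ := hy0 δ
  obtain ⟨p2, hp2, m, h2⟩ := mem_fex.1 (h1 t) p1 le_rfl
  have hgS : ∀ u, NSup (Iio t) {c | ∃ k, g m u k = some c} := by
    rintro u s ⟨k, hk⟩ i hi
    by_contra hne
    exact hi (lt_of_lt_of_le (hδ i ⟨m, u, k, s, hk, hne⟩) hδt)
  have hstar : ∀ (u : List Bool) (r : Cond M T), le Γ univ r p2 →
      Out Γ (C m u : Set (Cond M T)) r → Out Γ (XA Γ (a t) u) r := by
    rintro u r hr ho s hs ⟨z, hz1, hz2⟩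
    have hs' : Inn Γ (XA Γ (a t) u) s := ((hX t).2.2 u s).1 hs
    have hz : (z : PP Γ) ∈ (InitN u (a t) : Set (PP Γ)) := ((hX t).2.2 u z).2 (hs'.mono hz2)
    obtain ⟨w, hw, hw'⟩ := mem_fimp.1 (h2 u) z (le_trans' low_univ hz1 hr) hz
    exact mem_meets.1 hw' w (le_refl' univ w) (ho.mono (le_trans' low_univ hw hz1))
  rcases hYdich t p2 with ⟨q, hq, hG⟩ | ⟨q, hq, n, hcapt⟩
  · exfalso
    obtain ⟨q', hq', k0, hk⟩ := hV M T Γ hccc hfull t (t' t) (ht' t) (XA Γ (a t)) (hX t).1
      (hX t).2.1 q hG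
    have hle : le Γ univ q' p0 :=
      le_trans' low_univ hq' (le_trans' low_univ hq (le_trans' low_univ hp2 hp1))
    obtain ⟨r, hr, u, hru⟩ := mem_fex.1 (h0 t k0) q' hle
    have h3 : Out Γ (FNm Γ t (t' t) k0 u) r := mem_fnot_meets.1 hru.2
    exact not_out_of_mem (N := XA Γ (a t) u) hru.1 (hk u r hr h3)
  · refine ⟨q, le_trans' low_univ hq hp2, mem_fex_of_mem m (down_fex _)
      (mem_fex_of_mem n (down_fall fun _ => down_fimp _ _) fun u =>
        mem_fimp.2 fun r hr hm => ⟨r, le_rfl, ?_⟩)⟩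
    refine mem_meets.2 ?_
    by_contra hni
    obtain ⟨r1, hr1, ho⟩ := not_inn hni
    have h3 : le Γ (Iio t) r1 q := le_mono (subset_univ _) (le_trans' low_univ hr1 hr)
    have h4 : Out Γ (C m u : Set (Cond M T)) (mix (Iio t) r1 q) :=
      (hgout m u _).1 (((hgout m u r1).2 ho).mono' (low_iio t) (hgS u) (mix_eq (low_iio t) r1 q))
    have h5 := hstar u (mix (Iio t) r1 q) (le_trans' low_univ (mix_le (low_iio t) h3) hq) h4
    have h6 : Out Γ (Y t n u) r1 := hcapt r1 h3 u h5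
    exact mem_meets.1 hm r1 hr1 ((hout t hyt n u r1).2 h6)

end Pool.Agent.H631.THD.FIN
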