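import Pool.Agent.H631.TH.FStm

/-!
# `S_FN`: the name of the function given by the tree
-/

set_option autoImplicit false
set_option linter.unusedSectionVars false

namespace Pool.Agent.H631.THD.FN

open Classical Set Pool.Agent.H631.TH

variable {M T : Type} [LinearOrder T] [WellFoundedLT T]

/-- the length of the stem, and the kind of the node, are determined by the length of the address -/
theorem node_len {Γ : Par M T} {γ j : T} {X : TN M T} {p : Cond M T}
    {D : List ℕ → ℕ → ℕ → Finset M} {R : Node M T → Finset M} {nd : List ℕ → Option (Node M T)}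
    (hT : IsTree Γ γ j X p D R nd) (l : List ℕ) :
    ∀ π, nd l = some π → π.t.length = (p j).stem.length + (l.length + 1) / 2 ∧
      (π.a = true ↔ l.length % 2 = 0) := by
  induction l using List.reverseRecOn with
  | nil =>
    intro π hπ
    obtain ⟨π0, h0, h1, h2, _⟩ := hT.root
    rw [hπ] at h0
    have e : π = π0 := Option.some_injective _ h0
    subst e
    rw [h2, h1]
    simp
  | append_singleton l e ih =>
    intro π' hπ'
    obtain ⟨π, hπ, hc⟩ := hT.child l e π' hπ'
    obtain ⟨_, _, _, _, _, ha, h1, h2⟩ := hc
    obtain ⟨i1, i2⟩ := ih π hπ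
    have hl : (l ++ [e]).length = l.length + 1 := by simp
    rw [hl]
    cases hb : π.a with
    | true =>
      have hev := i2.1 hb
      obtain ⟨a, _, hta⟩ := h1 hb
      have h3 : π'.a = false := by rw [ha, hb]; rfl
      have h4 : π'.t.length = π.t.length + 1 := by rw [hta]; simp
      rw [h3, h4, i1]
      refine ⟨by omega, ?_⟩
      constructor
      · intro h
        exact absurd h (by decide)
      · intro h
        exfalso
        omega
    | false =>
      have hodd : ¬ (l.length % 2 = 0) := by
        intro h
        have := i2.2 h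
        rw [hb] at this
        exact absurd this (by decide)
      have h3 : π'.a = true := by rw [ha, hb]; rfl
      have h4 := (h2 hb).1
      rw [h3, h4, i1]
      refine ⟨by omega, ?_⟩
      constructor
      · intro _
        omega
      · intro _
        rfl

/-- the stem of the parent is an initial segment -/
theorem child_prefix {Γ : Par M T} {D : List ℕ → ℕ → ℕ → Finset M} {R : Node M T → Finset M}
    {e : ℕ} {π π' : Node M T} (h : Child Γ D R e π π') : π.t <+: π'.t := by
  obtain ⟨_, _, _, _, _, _, h1, h2⟩ := h
  cases hb : π.a with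
  | true =>
    obtain ⟨a, _, hta⟩ := h1 hb
    exact ⟨[a], hta.symm⟩
  | false => exact ⟨[], by rw [List.append_nil, (h2 hb).1]⟩

/-- nodes at different addresses of the same length, with the same stem, are incompatible -/
theorem node_incomp {Γ : Par M T} {γ j : T} {X : TN M T} {p : Cond M T}
    {D : List ℕ → ℕ → ℕ → Finset M} {R : Node M T → Finset M} {nd : List ℕ → Option (Node M T)}
    (hT : IsTree Γ γ j X p D R nd) (l : List ℕ) :
    ∀ (l' : List ℕ) (π π' : Node M T), l.length = l'.length → l ≠ l' → nd l = some π →
      nd l' = some π' → π.t = π'.t → ¬ Cmp (le Γ (Iio j)) π.w π'.w := by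
  induction l using List.reverseRecOn with
  | nil =>
    intro l' π π' hlen hne
    exact absurd (List.length_eq_zero_iff.1 hlen.symm).symm hne
  | append_singleton l e ih =>
    intro l' π π' hlen hne hπ hπ' ht hc
    rcases List.eq_nil_or_concat l' with rfl | ⟨l1, e', rfl⟩
    · simp at hlen
    · rw [List.concat_eq_append] at hlen hne hπ'
      have hlen' : l.length = l1.length := by simpa using hlen
      by_cases hl : l = l1
      · subst hl
        have he : e ≠ e' := fun h => hne (by rw [h])
        exact hT.incomp l e e' π π' he hπ hπ' ht hc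
      · obtain ⟨π0, h0, c0⟩ := hT.child l e π hπ
        obtain ⟨π1, h1, c1⟩ := hT.child l1 e' π' hπ'
        have p0 := child_prefix c0
        have p1 := child_prefix c1
        rw [← ht] at p1
        have hlt : π0.t.length = π1.t.length := by
          rw [(node_len hT l π0 h0).1, (node_len hT l1 π1 h1).1, hlen']
        have htt : π0.t = π1.t :=
          (List.prefix_of_prefix_length_le p0 p1 hlt.le).eq_of_length hlt
        refine ih l1 π0 π1 hlen' hl h0 h1 htt ?_
        obtain ⟨r, hr, hr'⟩ := hc
        exact ⟨r, le_trans' (low_iio j) hr (le_mono (subset_univ _) c0.1),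
          le_trans' (low_iio j) hr' (le_mono (subset_univ _) c1.1)⟩

/-- the entries of the name -/
def Ent (nd : List ℕ → Option (Node M T)) (n k : ℕ) (q : Cond M T × ℕ) : Prop :=
  ∃ (l : List ℕ) (π : Node M T), k = Encodable.encode l ∧ nd l = some π ∧ π.a = true ∧
    Encodable.encode π.t = n ∧ q = (π.w, π.f)

/-- the name -/
noncomputable def nm (nd : List ℕ → Option (Node M T)) : Nm M T := fun n k =>
  if h : ∃ q : Cond M T × ℕ, Ent nd n k q then some h.choose else none

theorem nm_ent {nd : List ℕ → Option (Node M T)} {n k : ℕ} {q : Cond M T × ℕ}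
    (h : nm nd n k = some q) : Ent nd n k q := by
  unfold nm at h
  by_cases h1 : ∃ q : Cond M T × ℕ, Ent nd n k q
  · rw [dif_pos h1] at h
    have e : h1.choose = q := Option.some_injective _ h
    rw [← e]
    exact h1.choose_spec
  · rw [dif_neg h1] at h
    exact absurd h (by simp)

theorem nm_eq {nd : List ℕ → Option (Node M T)} {l : List ℕ} {π : Node M T} (h : nd l = some π)
    (ha : π.a = true) :
    nm nd (Encodable.encode π.t) (Encodable.encode l) = some (π.w, π.f) := by
  have h1 : ∃ q : Cond M T × ℕ, Ent nd (Encodable.encode π.t) (Encodable.encode l) q :=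
    ⟨(π.w, π.f), l, π, rfl, h, ha, rfl, rfl⟩
  have h2 : nm nd (Encodable.encode π.t) (Encodable.encode l) = some h1.choose := by
    unfold nm
    rw [dif_pos h1]
  obtain ⟨l', π', e1, e2, _, _, e5⟩ := h1.choose_spec
  have e6 : l = l' := Encodable.encode_injective e1
  rw [← e6, h] at e2
  have e7 : π = π' := Option.some_injective _ e2
  rw [h2, e5, ← e7]

/-- **FN.** -/
theorem th_FN : S_FN := by
  intro M T _ _ Γ hF γ j X p D R nd hT
  obtain ⟨mF, hmF⟩ := hF j (nm nd) (by
    intro n m u v h i hi
    obtain ⟨l, π, _, h2, _, _, h5⟩ := nm_ent h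
    have h6 : u = π.w := (Prod.mk.inj h5).1
    rw [h6]
    exact (hT.inv l π h2).1 i hi)
  refine ⟨mF, ?_⟩
  intro l π hπ ha
  rw [hmF]
  refine Or.inl ⟨Encodable.encode l, π.w, nm_eq hπ ha, le_refl' _ _, ?_⟩
  intro m' hm' u' v' hu' hc
  obtain ⟨l', π', h1, h2, h3, h4, h5⟩ := nm_ent hu'
  have h6 : u' = π'.w := (Prod.mk.inj h5).1
  have h7 : π'.t = π.t := Encodable.encode_injective h4
  have hne : l ≠ l' := by
    rintro rfl
    rw [h1] at hm'
    exact absurd hm' (lt_irrefl _)
  have hlen : l.length = l'.length := by
    have a1 := node_len hT l π hπ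
    have a2 := node_len hT l' π' h2
    have b1 := a1.2.1 ha
    have b2 := a2.2.1 h3
    have c1 := a1.1
    have c2 := a2.1
    rw [h7] at c2
    omega
  rw [h6] at hc
  exact node_incomp hT l l' π π' hlen hne hπ h2 h7.symm hc

end Pool.Agent.H631.THD.FN
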