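import Pool.Agent.H631.TH.FStm

/-!
# FOL: a condition below a node follows the kept promises
-/

set_option autoImplicit false
set_option linter.unusedSectionVars false

namespace Pool.Agent.H631.THD.FOL

open Classical Set
open Pool.Agent.H631.TH

variable {M T : Type} [LinearOrder T] [WellFoundedLT T]

theorem take_snoc (s : List ℕ) {i : ℕ} (hi : i < s.length) :
    s.take i ++ [s.getD i 0] = s.take (i + 1) := by
  rw [List.getD_eq_getElem s 0 hi, List.take_succ_eq_append_getElem hi]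

section

variable {Γ : Par M T} {γ j : T} {X : TN M T} {p : Cond M T}
  {D : List ℕ → ℕ → ℕ → Finset M} {R : Node M T → Finset M} {nd : List ℕ → Option (Node M T)}

theorem child_of (h : IsTree Γ γ j X p D R nd) {l : List ℕ} {e : ℕ} {π π' : Node M T}
    (h1 : nd l = some π) (h2 : nd (l ++ [e]) = some π') : Child Γ D R e π π' := by
  obtain ⟨π0, h3, h4⟩ := h.child l e π' h2
  rw [h1] at h3
  rw [Option.some_injective _ h3]
  exact h4

/-- the value of `mF` at an A-node is at most the next value of the stem -/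
theorem f_le {mF : M} (hF : NamesF Γ j nd mF) {t t3 : List ℕ} {z w : Cond M T}
    (hz : Fol Γ j z mF t t3) {l' : List ℕ} {π' : Node M T} (h1 : nd l' = some π')
    (h2 : π'.a = true) {i : ℕ} (hi : t.length ≤ i) (hi' : i < t3.length)
    (h3 : π'.t = t3.take i) (h4 : le Γ (Iio j) w π'.w) (h5 : le Γ (Iio j) w z) :
    π'.f ≤ t3.getD i 0 := by
  have h6 := (hF l' π' h1 h2).mono (low_iio j) h4
  rw [h3] at h6
  exact hz i hi hi' w h5 _ h6

theorem claim (h : IsTree Γ γ j X p D R nd) {mF : M} (hF : NamesF Γ j nd mF) {l : List ℕ}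
    {π : Node M T} (hπ : nd l = some π) {z : Cond M T} {t3 : List ℕ} (ht : π.t <+: t3)
    (hz : Fol Γ j z mF π.t t3) (hzw : le Γ (Iio j) z π.w) (d : ℕ) :
    π.t.length + d < t3.length → ∀ w0, le Γ (Iio j) w0 z →
      ∃ w l' π', le Γ (Iio j) w w0 ∧ l <+: l' ∧ nd l' = some π' ∧ π'.a = true ∧
        π'.t = t3.take (π.t.length + d) ∧ le Γ (Iio j) w π'.w := by
  induction d with
  | zero =>
    intro hlt w0 hw0
    have htk : t3.take (π.t.length + 0) = π.t := by
      rw [add_zero]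
      exact (List.prefix_iff_eq_take.1 ht).symm
    have hw : le Γ (Iio j) w0 π.w := le_trans' (low_iio j) hw0 hzw
    by_cases ha : π.a = true
    · exact ⟨w0, l, π, le_refl' _ _, List.prefix_refl _, hπ, ha, htk.symm, hw⟩
    · have ha' : π.a = false := by
        rcases Bool.eq_false_or_eq_true π.a with h1 | h1
        · exact absurd h1 ha
        · exact h1
      obtain ⟨e, π', h1, -, r, hr1, hr2⟩ := h.dense l π hπ 0 (fun h1 => absurd h1 ha) w0 hw
      obtain ⟨-, -, -, -, -, c1, -, c3⟩ := child_of h hπ h1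
      refine ⟨r, l ++ [e], π', hr1, List.prefix_append _ _, h1, ?_, ?_, hr2⟩
      · rw [c1, ha']
        rfl
      · rw [htk]
        exact (c3 ha').1
  | succ d ih =>
    intro hlt w0 hw0
    obtain ⟨w, l', π', h1, h2, h3, h4, h5, h6⟩ := ih (by omega) w0 hw0
    have hwz : le Γ (Iio j) w z := le_trans' (low_iio j) h1 hw0
    have hf : π'.f ≤ t3.getD (π.t.length + d) 0 :=
      f_le hF hz h3 h4 (by omega) (by omega) h5 h6 hwz
    obtain ⟨e, π1, k1, k2, r, hr1, hr2⟩ := h.dense l' π' h3 (t3.getD (π.t.length + d) 0)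
      (fun _ => hf) w h6
    obtain ⟨-, -, -, -, -, c1, -, -⟩ := child_of h h3 k1
    have ha1 : π1.a = false := by rw [c1, h4]; rfl
    have hna1 : ¬ π1.a = true := by rw [ha1]; exact Bool.false_ne_true
    obtain ⟨e', π2, m1, -, r', hr1', hr2'⟩ := h.dense (l' ++ [e]) π1 k1 0
      (fun h1 => absurd h1 hna1) r hr2
    obtain ⟨-, -, -, -, -, c1', -, c3'⟩ := child_of h k1 m1
    refine ⟨r', l' ++ [e] ++ [e'], π2, le_trans' (low_iio j) hr1' (le_trans' (low_iio j) hr1 h1),
      h2.trans ((List.prefix_append _ _).trans (List.prefix_append _ _)), m1, ?_, ?_, hr2'⟩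
    · rw [c1', ha1]
      rfl
    · rw [(c3' ha1).1, k2 h4, h5, take_snoc t3 (by omega), add_assoc]

theorem claim_all (h : IsTree Γ γ j X p D R nd) {mF : M} (hF : NamesF Γ j nd mF) {l : List ℕ}
    {π : Node M T} (hπ : nd l = some π) {z : Cond M T} {t3 : List ℕ} (ht : π.t <+: t3)
    (hz : Fol Γ j z mF π.t t3) (hzw : le Γ (Iio j) z π.w) (n : ℕ) :
    n ≤ t3.length → ∃ w, le Γ (Iio j) w z ∧ ∀ i, π.t.length ≤ i → i < n →
      ∃ l' π', l <+: l' ∧ nd l' = some π' ∧ π'.a = true ∧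
        π'.t = t3.take i ∧ le Γ (Iio j) w π'.w := by
  induction n with
  | zero =>
    intro _
    exact ⟨z, le_refl' _ _, fun i _ hi => absurd hi (Nat.not_lt_zero i)⟩
  | succ n ih =>
    intro hn
    obtain ⟨w, h1, h2⟩ := ih (by omega)
    by_cases hc : π.t.length ≤ n
    · obtain ⟨d, hd⟩ := Nat.exists_eq_add_of_le hc
      obtain ⟨w', l', π', k1, k2, k3, k4, k5, k6⟩ :=
        claim h hF hπ ht hz hzw d (by omega) w h1
      refine ⟨w', le_trans' (low_iio j) k1 h1, fun i hi hi' => ?_⟩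
      rcases Nat.lt_succ_iff_lt_or_eq.1 hi' with h3 | h3
      · obtain ⟨l2, π2, m1, m2, m3, m4, m5⟩ := h2 i hi h3
        exact ⟨l2, π2, m1, m2, m3, m4, le_trans' (low_iio j) k1 m5⟩
      · subst h3
        exact ⟨l', π', k2, k3, k4, by rw [k5, ← hd], k6⟩
    · exact ⟨w, h1, fun i hi hi' => absurd (lt_of_le_of_lt hi hi') (by omega)⟩

end

theorem th_FOL : S_FOL := by
  intro M T _ _ Γ γ j X p D R nd h mF hF l π hπ E hE z hz
  have hQj : (Qn j p mF π) j = ⟨π.t, insert mF (p j).pr⟩ := by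
    have hj : j ∉ Iio j := lt_irrefl j
    exact (mix_notMem π.w (upd p j ⟨π.t, insert mF (p j).pr⟩) hj).trans
      (upd_same p j ⟨π.t, insert mF (p j).pr⟩)
  have hext := hz j (le_refl j)
  rw [ext_iff_fol, hQj] at hext
  obtain ⟨ht, -, hfol⟩ := hext
  have hz' : Fol Γ j z mF π.t (z j).stem := hfol mF (Finset.mem_insert_self _ _)
  have hzw : le Γ (Iio j) z π.w := by
    refine le_trans' (low_iio j) (le_mono (fun i hi => le_of_lt hi) hz) ?_
    exact le_of_eq (low_iio j) fun i hi => mix_mem _ _ hi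
  obtain ⟨w, h1, h2⟩ := claim_all h hF hπ ht hz' hzw (z j).stem.length le_rfl
  refine ⟨w, h1, fun m hm i hi hi' r hr n hn => ?_⟩
  obtain ⟨l', π', k1, k2, k3, k4, k5⟩ := h2 i hi hi'
  have h3 : π'.f ≤ (z j).stem.getD i 0 := f_le hF hz' k2 k3 hi hi' k4 k5 h1
  refine le_trans (hE m hm l' π' k1 k2 k3 r (le_trans' (low_iio j) hr k5) n ?_) h3
  rw [k4]
  exact hn

end Pool.Agent.H631.THD.FOL
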