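import Pool.Agent.H631.TH.FStm

/-!
# Gluing of promises along a countable sequence of conditions
-/

set_option autoImplicit false
set_option linter.unusedSectionVars false

namespace Pool.Agent.H631.THD.GLUE

open Classical Set
open Pool.Agent.H631.TH

variable {M T : Type} [LinearOrder T] [WellFoundedLT T]

/-- names from dense sets -/
theorem raw_of (hP : S_PRED) {Γ : Par M T} (hc : CCC Γ) {W : Set T} (hW : Low W)
    (V : ℕ → ℕ → Set (Cond M T))
    (hmono : ∀ n z p q, p ∈ V n z → le Γ W q p → q ∈ V n z)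
    (hdense : ∀ n p, ∃ q, le Γ W q p ∧ ∃ z, q ∈ V n z) :
    ∃ X : Nm M T, Supp W X ∧ ∀ t n z, Val (le Γ W) t X n z → t ∈ V n z := by
  let φ : ℕ → Set (Cond M T) := fun n => {q | (∃ z, q ∈ V n z) ∧ ∀ i ∉ W, q i = CV.top}
  choose g hg1 _ hg2 using fun n => hP M T Γ hc (φ n)
  let val : ℕ → Cond M T → ℕ := fun n u =>
    if h : ∃ z, u ∈ V n z then Classical.choose h else 0
  have hval : ∀ n (u : Cond M T), (∃ z, u ∈ V n z) → u ∈ V n (val n u) := by
    intro n u h
    simp only [val, dif_pos h]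
    exact Classical.choose_spec h
  refine ⟨fun n m => (g n m).map fun u => (u, val n u), ?_, ?_⟩
  · intro n m u v hu i hi
    obtain ⟨u', hu', he⟩ := Option.map_eq_some_iff.1 hu
    have h3 : u' = u := (Prod.mk.inj he).1
    rw [h3] at hu'
    exact (hg1 n m u hu').2 i hi
  · intro t n z hv
    rcases hv with ⟨m, u, h1, h2, _⟩ | ⟨_, h2⟩
    · obtain ⟨u', hu', he⟩ := Option.map_eq_some_iff.1 h1
      have h3 : u' = u := (Prod.mk.inj he).1
      have h4 : val n u' = z := (Prod.mk.inj he).2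
      rw [h3] at hu' h4
      have h5 : u ∈ φ n := hg1 n m u hu'
      have h6 := hval n u h5.1
      rw [h4] at h6
      exact hmono n z u t h6 h2
    · exfalso
      obtain ⟨q, hq, z', hz'⟩ := hdense n t
      have h3 : mix W q Cond.one ∈ φ n := by
        refine ⟨⟨z', hmono n z' q _ hz' (mix_eq hW _ _)⟩, fun i hi => ?_⟩
        rw [mix_notMem _ _ hi]
        rfl
      obtain ⟨m, a, hm, s, hs, hs'⟩ := hg2 n _ h3
      refine h2 m a (val n a) ?_ ⟨s, ?_, le_mono (Set.subset_univ _) hs'⟩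
      · show (g n m).map _ = _
        rw [hm]
        rfl
      · exact le_trans' hW (le_trans' hW (le_mono (Set.subset_univ _) hs) (mix_eq hW _ _)) hq

/-- the sets of conditions which decide the glued function -/
def VS (Γ : Par M T) (j : T) (g : ℕ → Option (Cond M T × Finset M)) (n z : ℕ) :
    Set (Cond M T) :=
  {q | (∃ i a S, g i = some (a, S) ∧ le Γ (Iio j) q a ∧
      (∀ i' < i, ∀ a' S', g i' = some (a', S') → ¬ Cmp (le Γ (Iio j)) q a') ∧
      ∃ v : M → ℕ, (∀ m ∈ S, Val (le Γ (Iio j)) q (Γ j m) n (v m)) ∧ z = S.sup v) ∨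
    (z = 0 ∧ ∀ i a S, g i = some (a, S) → ¬ Cmp (le Γ (Iio j)) q a)}

theorem VS_mono {Γ : Par M T} {j : T} {g : ℕ → Option (Cond M T × Finset M)} (n z : ℕ)
    (p q : Cond M T) (h : p ∈ VS Γ j g n z) (hq : le Γ (Iio j) q p) : q ∈ VS Γ j g n z := by
  rcases h with ⟨i, a, S, h1, h2, h3, v, h4, h5⟩ | ⟨h1, h2⟩
  · refine Or.inl ⟨i, a, S, h1, le_trans' (low_iio j) hq h2, ?_, v, ?_, h5⟩
    · intro i' hi' a' S' hg hc
      exact h3 i' hi' a' S' hg (hc.mono (low_iio j) hq)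
    · intro m hm
      exact (h4 m hm).mono (low_iio j) hq
  · refine Or.inr ⟨h1, ?_⟩
    intro i a S hg hc
    exact h2 i a S hg (hc.mono (low_iio j) hq)

theorem VS_dense {Γ : Par M T} {j : T} {g : ℕ → Option (Cond M T × Finset M)} (n : ℕ)
    (p : Cond M T) : ∃ q, le Γ (Iio j) q p ∧ ∃ z, q ∈ VS Γ j g n z := by
  by_cases h : ∃ i a S, g i = some (a, S) ∧ Cmp (le Γ (Iio j)) p a
  · obtain ⟨a, S, hg, q1, hq1, hq1'⟩ := Nat.find_spec h
    obtain ⟨q2, hq2, hv⟩ := Val.decideF (Γ := Γ) (low_iio j) S (fun m => Γ j m) (fun _ => n) q1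
    have hex : ∀ m, ∃ v, m ∈ S → Val (le Γ (Iio j)) q2 (Γ j m) n v := by
      intro m
      by_cases hm : m ∈ S
      · obtain ⟨v, hv⟩ := hv m hm
        exact ⟨v, fun _ => hv⟩
      · exact ⟨0, fun h => absurd h hm⟩
    choose v hv' using hex
    have h2p : le Γ (Iio j) q2 p := le_trans' (low_iio j) hq2 hq1
    refine ⟨q2, h2p, S.sup v, Or.inl ⟨Nat.find h, a, S, hg, le_trans' (low_iio j) hq2 hq1', ?_,
      v, hv', rfl⟩⟩
    intro i' hi' a' S' hg' hc
    exact Nat.find_min h hi' ⟨a', S', hg', hc.mono (low_iio j) h2p⟩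
  · refine ⟨p, le_refl' _ p, 0, Or.inr ⟨rfl, ?_⟩⟩
    intro i a S hg hc
    exact h ⟨i, a, S, hg, hc⟩

theorem th_GLUE (hP : S_PRED) : S_GLUE := by
  intro M T _ _ Γ hccc hF j g
  obtain ⟨X, hX1, hX2⟩ := raw_of hP hccc (low_iio j) (VS Γ j g) VS_mono VS_dense
  obtain ⟨m, hm⟩ := hF j X hX1
  refine ⟨m, ?_, ?_⟩
  · intro i a S hg q hqa hmin n z hz m' hm' z' hz'
    rw [hm] at hz
    rcases hX2 q n z hz with ⟨i0, a0, S0, h1, h2, h3, v, h4, h5⟩ | ⟨h1, h2⟩
    · have hi : i0 = i := by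
        rcases lt_trichotomy i0 i with h | h | h
        · exact absurd ⟨q, le_refl' _ q, h2⟩ (hmin i0 h a0 S0 h1)
        · exact h
        · exact absurd ⟨q, le_refl' _ q, hqa⟩ (h3 i h a S hg)
      rw [hi, hg] at h1
      have h6 : (a, S) = (a0, S0) := Option.some_injective _ h1
      have h7 : S = S0 := (Prod.mk.inj h6).2
      rw [← h7] at h4 h5
      have h8 : z' = v m' := hz'.unique (h4 m' hm')
      rw [h8, h5]
      exact Finset.le_sup (f := v) hm'
    · exact absurd ⟨q, le_refl' _ q, hqa⟩ (h2 i a S hg)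
  · intro n f hf q z hz
    rw [hm] at hz
    rcases hX2 q n z hz with ⟨i0, a0, S0, h1, h2, h3, v, h4, h5⟩ | ⟨h1, h2⟩
    · rw [h5]
      exact Finset.sup_le fun b hb => hf i0 a0 S0 h1 b hb q h2 (v b) (h4 b hb)
    · rw [h1]
      exact Nat.zero_le f

end Pool.Agent.H631.THD.GLUE
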