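import Pool.Agent.H631.TH.GStm

/-!
# K2: the number of names, and of data
-/

set_option autoImplicit false
set_option linter.unusedSectionVars false
set_option linter.unusedVariables false

namespace Pool.Agent.H631.THD.K2

open Classical Set Pool.Agent.H631.TH
open Cardinal

/-- functions on a countable type -/
theorem mk_fun {ι A : Type} [Countable ι] {κ : Cardinal.{0}} (hκ : ℵ₀ ≤ κ) (h2 : κ ^ ℵ₀ = κ)
    (hA : #A ≤ κ) : #(ι → A) ≤ κ := by
  have e : #(ι → A) = #A ^ #ι := by
    rw [Cardinal.mk_pi, Cardinal.prod_const, Cardinal.lift_id, Cardinal.lift_id]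
  rw [e]
  have hκ0 : κ ≠ 0 := (lt_of_lt_of_le Cardinal.aleph0_pos hκ).ne'
  calc #A ^ #ι ≤ κ ^ #ι := Cardinal.power_le_power_right hA
    _ ≤ κ ^ ℵ₀ := Cardinal.power_le_power_left hκ0 Cardinal.mk_le_aleph0
    _ = κ := h2

theorem mk_opt {A : Type} {κ : Cardinal.{0}} (hκ : ℵ₀ ≤ κ) (hA : #A ≤ κ) : #(Option A) ≤ κ := by
  rw [Cardinal.mk_option]
  calc #A + 1 ≤ κ + κ := add_le_add hA (Cardinal.one_le_aleph0.trans hκ)
    _ = κ := Cardinal.add_eq_self hκ

/-- **K2.** -/
theorem th_K2 (h1 : S_K1) : S_K2 := by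
  intro M T κ W hκ hpow hM hW
  have hC : #{c : Cond M T // ∀ i ∉ W, c i = CV.top} ≤ κ := h1 M T κ W hκ hM hW
  constructor
  · have hA : #(Option ({c : Cond M T // ∀ i ∉ W, c i = CV.top} × ℕ)) ≤ κ := by
      refine mk_opt hκ ?_
      rw [Cardinal.mk_prod, Cardinal.lift_id, Cardinal.lift_id]
      exact (mul_le_mul' hC Cardinal.mk_le_aleph0).trans (Cardinal.mul_aleph0_eq hκ).le
    have hF : #(ℕ → ℕ → Option ({c : Cond M T // ∀ i ∉ W, c i = CV.top} × ℕ)) ≤ κ :=
      mk_fun hκ hpow (mk_fun hκ hpow hA)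
    let G : (ℕ → ℕ → Option ({c : Cond M T // ∀ i ∉ W, c i = CV.top} × ℕ)) → Nm M T :=
      fun f n m => (f n m).map fun p => (p.1.1, p.2)
    have hsub : {x : Nm M T | Supp W x} ⊆ Set.range G := by
      intro x hx
      have h : ∀ n m, ∃ o : Option ({c : Cond M T // ∀ i ∉ W, c i = CV.top} × ℕ),
          o.map (fun p => (p.1.1, p.2)) = x n m := by
        intro n m
        rcases h : x n m with _ | ⟨u, v⟩
        · exact ⟨none, rfl⟩
        · exact ⟨some (⟨u, hx n m u v h⟩, v), rfl⟩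
      choose f hf using h
      exact ⟨f, funext fun n => funext fun m => hf n m⟩
    exact ((Cardinal.mk_le_mk_of_subset hsub).trans Cardinal.mk_range_le).trans hF
  · have hA : #(Option {c : Cond M T // ∀ i ∉ W, c i = CV.top}) ≤ κ := mk_opt hκ hC
    have hF : #(ℕ → List Bool → ℕ → Option {c : Cond M T // ∀ i ∉ W, c i = CV.top}) ≤ κ :=
      mk_fun hκ hpow (mk_fun hκ hpow (mk_fun hκ hpow hA))
    let G : (ℕ → List Bool → ℕ → Option {c : Cond M T // ∀ i ∉ W, c i = CV.top}) → Raw M T :=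
      fun f n u m => (f n u m).map fun p => p.1
    have hsub : {y : Raw M T | RS W y} ⊆ Set.range G := by
      intro y hy
      have h : ∀ n u m, ∃ o : Option {c : Cond M T // ∀ i ∉ W, c i = CV.top},
          o.map (fun p => p.1) = y n u m := by
        intro n u m
        rcases h : y n u m with _ | c
        · exact ⟨none, rfl⟩
        · exact ⟨some ⟨c, hy n u m c h⟩, rfl⟩
      choose f hf using h
      exact ⟨f, funext fun n => funext fun u => funext fun m => hf n u m⟩
    exact ((Cardinal.mk_le_mk_of_subset hsub).trans Cardinal.mk_range_le).trans hF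

end Pool.Agent.H631.THD.K2
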