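import Pool.Agent.H631.TH.GStm

/-!
# K3: closure points of cofinality `ω₁` in a successor cardinal (helper383 for helper631)
-/

set_option autoImplicit false

namespace Pool.Agent.H631.THD.K3

open Set Cardinal
open Pool.Agent.H631.TH

/-- the size of the initial segments -/
theorem k3_Iic {κ : Cardinal.{0}} (hκ : ℵ₀ ≤ κ) (x : (Order.succ κ).ord.ToType) :
    #(Iic x) ≤ κ := by
  have h30 : #(Iio x) < Order.succ κ := Cardinal.mk_Iio_toType_ord_lt x
  have h3 : #(Iio x) ≤ κ := Order.lt_succ_iff.1 h30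
  have h4 : Iic x = insert x (Iio x) := by
    ext β
    simp only [mem_Iic, mem_insert_iff, mem_Iio]
    exact le_iff_eq_or_lt
  rw [h4]
  refine (Cardinal.mk_insert_le).trans ?_
  exact (add_le_add h3 (Cardinal.one_le_aleph0.trans hκ)).trans
    (Cardinal.add_eq_self hκ).le

/-- small families in a successor cardinal are bounded -/
theorem k3_bdd {A : Type} {κ : Cardinal.{0}} (hκ : ℵ₀ ≤ κ) (hA : #A ≤ κ)
    (f : A → (Order.succ κ).ord.ToType) : ∃ β, ∀ k, f k < β := by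
  by_contra hcon
  push Not at hcon
  have h1 : (Set.univ : Set (Order.succ κ).ord.ToType) = ⋃ k, Set.Iic (f k) := by
    ext β
    simp only [Set.mem_univ, Set.mem_iUnion, Set.mem_Iic, true_iff]
    exact hcon β
  have h3 : Order.succ κ ≤ κ := by
    rw [← Cardinal.mk_ord_toType (Order.succ κ), ← Cardinal.mk_univ, h1]
    refine (Cardinal.mk_iUnion_le _).trans ?_
    calc #A * _ ≤ κ * κ := mul_le_mul' hA (ciSup_le' fun k => k3_Iic hκ (f k))
      _ = κ := Cardinal.mul_eq_self hκ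
  exact absurd h3 (not_le.2 (Order.lt_succ _))

/-- one step -/
theorem k3_step {κ : Cardinal.{0}} (hκ : ℵ₀ ≤ κ)
    (h : (Order.succ κ).ord.ToType → (Order.succ κ).ord.ToType) {A : Type} (hA : #A ≤ κ)
    (g : A → (Order.succ κ).ord.ToType) : ∃ β, ∀ b, g b < β ∧ ∀ x ≤ g b, h x < β := by
  have hc : #(Σ b : A, Iic (g b)) ≤ κ := by
    rw [Cardinal.mk_sigma]
    refine (Cardinal.sum_le_sum _ (fun _ => κ) fun b => k3_Iic hκ (g b)).trans ?_
    rw [Cardinal.sum_const']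
    calc #A * κ ≤ κ * κ := mul_le_mul' hA le_rfl
      _ = κ := Cardinal.mul_eq_self hκ
  obtain ⟨β, hβ⟩ := k3_bdd hκ hc (fun y => max (y.2 : (Order.succ κ).ord.ToType) (h y.2))
  refine ⟨β, fun b => ⟨?_, fun x hx => ?_⟩⟩
  · exact (le_max_left _ _).trans_lt (hβ ⟨b, ⟨g b, le_refl (g b)⟩⟩)
  · exact (le_max_right _ _).trans_lt (hβ ⟨b, ⟨x, hx⟩⟩)

theorem th_K3 : S_K3 := by
  intro κ hκ hκ2 h
  have h2 : Order.succ ℵ₀ ≤ κ := by
    have h3 : (2 : Cardinal.{0}) ^ ℵ₀ ≤ κ := by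
      rw [← hκ2]
      exact Cardinal.power_le_power_right ((Cardinal.natCast_le_aleph0 (n := 2)).trans hκ)
    exact (Order.succ_le_of_lt (Cardinal.cantor ℵ₀)).trans h3
  have hΩ : #((Order.succ (ℵ₀ : Cardinal.{0})).ord.ToType) ≤ κ := by
    rw [Cardinal.mk_ord_toType]
    exact h2
  have hIio : ∀ a : (Order.succ (ℵ₀ : Cardinal.{0})).ord.ToType, #(Iio a) ≤ κ := fun a =>
    (Cardinal.mk_set_le _).trans hΩ
  obtain ⟨i, hi⟩ : ∃ i : (Order.succ (ℵ₀ : Cardinal.{0})).ord.ToType → (Order.succ κ).ord.ToType,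
      ∀ a b, b < a → i b < i a ∧ ∀ x ≤ i b, h x < i a := by
    let F : ∀ a : (Order.succ (ℵ₀ : Cardinal.{0})).ord.ToType,
        (∀ b, b < a → (Order.succ κ).ord.ToType) → (Order.succ κ).ord.ToType :=
      fun a rec => (k3_step hκ h (hIio a) (fun b => rec b.1 b.2)).choose
    refine ⟨WellFoundedLT.fix F, fun a b hb => ?_⟩
    have h3 : WellFoundedLT.fix F a = F a (fun b _ => WellFoundedLT.fix F b) :=
      WellFoundedLT.fix_eq F a
    have h4 := (k3_step hκ h (hIio a) (fun b => WellFoundedLT.fix F b.1)).choose_spec ⟨b, hb⟩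
    rw [h3]
    exact h4
  have hB : {x | ∀ a, i a < x}.Nonempty := k3_bdd hκ hΩ i
  obtain ⟨γ, hγ, hmin⟩ : ∃ γ, (∀ a, i a < γ) ∧ ∀ x < γ, ¬ ∀ a, i a < x :=
    ⟨wellFounded_lt.min _ hB, wellFounded_lt.min_mem _ hB, fun x hx hx2 =>
      wellFounded_lt.not_lt_min {x | ∀ a, i a < x} (show x ∈ {x | ∀ a, i a < x} from hx2) hx⟩
  refine ⟨γ, fun β hβ => ?_, fun S hS hSγ => ?_⟩
  · have h3 := hmin β hβ
    push Not at h3
    obtain ⟨a, ha⟩ := h3
    obtain ⟨a', ha'⟩ := k3_bdd (κ := ℵ₀) le_rfl (A := Unit)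
      (by rw [Cardinal.mk_unit]; exact Cardinal.one_le_aleph0) (fun _ => a)
    exact ((hi a' a (ha' ())).2 β ha).trans (hγ a')
  · have h3 : ∀ s : S, ∃ a, (s : (Order.succ κ).ord.ToType) ≤ i a := by
      intro s
      have h4 := hmin s (hSγ s s.2)
      push Not at h4
      exact h4
    choose f hf using h3
    obtain ⟨a, ha⟩ := k3_bdd (κ := ℵ₀) le_rfl (A := S)
      (Cardinal.mk_le_aleph0_iff.2 hS.to_subtype) f
    exact ⟨i a, hγ a, fun s hs => (hf ⟨s, hs⟩).trans_lt (hi a _ (ha ⟨s, hs⟩)).1⟩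

end Pool.Agent.H631.THD.K3
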