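import Pool.Agent.H631.TH.GStm

/-! # `S_KM` (helper404) -/

set_option autoImplicit false
set_option linter.unusedSectionVars false

namespace Pool.Agent.H631.THD.KM

open Classical Cardinal Set
open scoped Cardinal
open Pool.Agent.H631.TH

/-- small families in a successor cardinal are bounded (copy of `Pool.Agent.H631.ED.bdd_succ`) -/
theorem bdd_succ {A : Type} {κ : Cardinal.{0}} (hκ : ℵ₀ ≤ κ) (hA : #A ≤ κ)
    (f : A → (Order.succ κ).ord.ToType) : ∃ β, ∀ k, f k < β := by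
  by_contra hcon
  push Not at hcon
  have h1 : (Set.univ : Set (Order.succ κ).ord.ToType) = ⋃ k, Set.Iic (f k) := by
    ext β
    simp only [Set.mem_univ, Set.mem_iUnion, Set.mem_Iic, true_iff]
    exact hcon β
  have h2 : ∀ k, #(Set.Iic (f k)) ≤ κ := by
    intro k
    have h30 : #(Set.Iio (f k)) < Order.succ κ := Cardinal.mk_Iio_toType_ord_lt (f k)
    have h3 : #(Set.Iio (f k)) ≤ κ := Order.lt_succ_iff.1 h30
    have h4 : Set.Iic (f k) = insert (f k) (Set.Iio (f k)) := by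
      ext β
      simp only [Set.mem_Iic, Set.mem_insert_iff, Set.mem_Iio]
      exact le_iff_eq_or_lt
    rw [h4]
    refine (Cardinal.mk_insert_le).trans ?_
    exact (add_le_add h3 (Cardinal.one_le_aleph0.trans hκ)).trans
      (Cardinal.add_eq_self hκ).le
  have h3 : Order.succ κ ≤ κ := by
    rw [← Cardinal.mk_ord_toType (Order.succ κ), ← Cardinal.mk_univ, h1]
    refine (Cardinal.mk_iUnion_le _).trans ?_
    calc #A * _ ≤ κ * κ := mul_le_mul' hA (ciSup_le' h2)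
      _ = κ := Cardinal.mul_eq_self hκ
  exact absurd h3 (not_le.2 (Order.lt_succ _))

/-- the parameters -/
theorem exists_full (h2 : S_K2) (M : Type) (κ : Cardinal.{0}) (hκ : ℵ₀ ≤ κ) (hpow : κ ^ ℵ₀ = κ)
    (hM : #M = κ) : ∃ Γ : Par M (Order.succ κ).ord.ToType, Full Γ := by
  have key : ∀ j : (Order.succ κ).ord.ToType,
      ∃ f : M → Nm M (Order.succ κ).ord.ToType, ∀ x : Nm M (Order.succ κ).ord.ToType,
        Supp (Iio j) x → ∃ m, f m = x := by
    intro j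
    have h3 : #(Iio j) ≤ κ := Order.lt_succ_iff.1 (Cardinal.mk_Iio_toType_ord_lt j)
    have h4 : #{x : Nm M (Order.succ κ).ord.ToType // Supp (Iio j) x} ≤ #M := by
      rw [hM]
      exact (h2 M (Order.succ κ).ord.ToType κ (Iio j) hκ hpow hM.le h3).1
    obtain ⟨e⟩ := h4
    have hne : Nonempty {x : Nm M (Order.succ κ).ord.ToType // Supp (Iio j) x} :=
      ⟨⟨fun _ _ => none, fun n m u v h => absurd h (by simp)⟩⟩
    refine ⟨fun m => (Function.invFun e m).1, fun x hx => ?_⟩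
    obtain ⟨m, hm⟩ := Function.invFun_surjective e.injective ⟨x, hx⟩
    exact ⟨m, congrArg Subtype.val hm⟩
  choose f hf using key
  exact ⟨f, hf⟩

theorem th_KM (h2 : S_K2) (hP : S_KP) : S_KM := by
  intro R
  have hT0 : ℵ₀ ≤ #(R ⊕ ℕ) := by
    have : Infinite (R ⊕ ℕ) := Infinite.of_injective (Sum.inr : ℕ → R ⊕ ℕ) Sum.inr_injective
    exact Cardinal.aleph0_le_mk _
  obtain ⟨κ, hM⟩ : ∃ κ : Cardinal.{0}, #(Set (R ⊕ ℕ)) = κ := ⟨_, rfl⟩
  have hMc : κ = 2 ^ #(R ⊕ ℕ) := hM.symm.trans Cardinal.mk_set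
  have hlt : #(R ⊕ ℕ) < κ := by
    rw [hMc]
    exact Cardinal.cantor _
  have hκ : ℵ₀ ≤ κ := hT0.trans hlt.le
  have hpow : κ ^ ℵ₀ = κ := by
    rw [hMc, ← Cardinal.power_mul, Cardinal.mul_eq_left hT0 hT0 Cardinal.aleph0_ne_zero]
  have hmax : NoMaxOrder (Order.succ κ).ord.ToType := by
    refine ⟨fun a => ?_⟩
    obtain ⟨β, hβ⟩ := bdd_succ hκ (A := Unit) (by
      rw [Cardinal.mk_fintype]
      exact (Cardinal.natCast_lt_aleph0).le.trans hκ) fun _ => a
    exact ⟨β, hβ ()⟩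
  obtain ⟨Γ, hΓ⟩ := exists_full h2 (Set (R ⊕ ℕ)) κ hκ hpow hM
  refine ⟨Set (R ⊕ ℕ), (Order.succ κ).ord.ToType, inferInstance, inferInstance, hmax, Γ, ?_, hΓ,
    ?_, hP _ κ hκ hpow hM.le⟩
  · rw [← Cardinal.le_def, Cardinal.mk_ord_toType]
    refine le_trans ?_ (hlt.le.trans (Order.lt_succ κ).le)
    rw [Cardinal.mk_sum, Cardinal.lift_id, Cardinal.lift_id]
    exact le_self_add
  · intro S hS
    have h1 : #S ≤ κ := (Cardinal.mk_le_aleph0_iff.2 hS.to_subtype).trans hκ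
    obtain ⟨β, hβ⟩ := bdd_succ hκ h1 (fun s : S => (s : (Order.succ κ).ord.ToType))
    exact ⟨β, fun t ht => hβ ⟨t, ht⟩⟩

end Pool.Agent.H631.THD.KM
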