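import Pool.Agent.H631.TH.GStm

/-! `TH-KP`: the pigeonhole principle for countable data. -/

set_option autoImplicit false

namespace Pool.Agent.H631.THD.KP

open Set Cardinal
open Pool.Agent.H631.TH

/-- small families in a successor cardinal are bounded (from `Pool/Agent/H631/ED/Card.lean`) -/
theorem bdd_succ {A : Type} {κ : Cardinal.{0}} (hκ : ℵ₀ ≤ κ) (hA : #A ≤ κ)
    (f : A → (Order.succ κ).ord.ToType) : ∃ β, ∀ k, f k < β := by
  by_contra hcon
  push Not at hcon
  have h1 : (Set.univ : Set (Order.succ κ).ord.ToType) = ⋃ k, Set.Iic (f k) := by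
    ext β
    simp only [Set.mem_univ, Set.mem_iUnion, Set.mem_Iic, true_iff]
    exact hcon β
  have h2 : ∀ k, #(Set.Iic (f k)) ≤ κ := by
    intro k
    have h30 : #(Set.Iio (f k)) < Order.succ κ := Cardinal.mk_Iio_toType_ord_lt (f k)
    have h3 : #(Set.Iio (f k)) ≤ κ := Order.lt_succ_iff.1 h30
    have h4 : Set.Iic (f k) = insert (f k) (Set.Iio (f k)) := by
      ext β
      simp only [Set.mem_Iic, Set.mem_insert_iff, Set.mem_Iio]
      exact le_iff_eq_or_lt
    rw [h4]
    refine (Cardinal.mk_insert_le).trans ?_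
    exact (add_le_add h3 (Cardinal.one_le_aleph0.trans hκ)).trans
      (Cardinal.add_eq_self hκ).le
  have h3 : Order.succ κ ≤ κ := by
    rw [← Cardinal.mk_ord_toType (Order.succ κ), ← Cardinal.mk_univ, h1]
    refine (Cardinal.mk_iUnion_le _).trans ?_
    calc #A * _ ≤ κ * κ := mul_le_mul' hA (ciSup_le' h2)
      _ = κ := Cardinal.mul_eq_self hκ
  exact absurd h3 (not_le.2 (Order.lt_succ _))

theorem th_KP (h2 : S_K2) (h3 : S_K3) : S_KP := by
  intro M κ hκ hκω hM y hy
  by_contra hcon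
  push Not at hcon
  choose b hb using hcon
  have hcard : ∀ β : (Order.succ κ).ord.ToType, #(Iio β) ≤ κ := fun β =>
    Order.lt_succ_iff.1 (Cardinal.mk_Iio_toType_ord_lt β)
  have hh : ∀ β : (Order.succ κ).ord.ToType, ∃ h : (Order.succ κ).ord.ToType,
      ∀ y0 : {y0 : Raw M (Order.succ κ).ord.ToType // RS (Iio β) y0}, b y0.1 < h := fun β =>
    bdd_succ hκ (h2 M _ κ (Iio β) hκ hκω hM (hcard β)).2 (fun y0 => b y0.1)
  choose h hh using hh
  obtain ⟨γ, hγ1, hγ2⟩ := h3 κ hκ hκω h
  have hS : {i : (Order.succ κ).ord.ToType |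
      ∃ n u m c, y γ n u m = some c ∧ c i ≠ CV.top}.Countable := by
    have h1 : {i : (Order.succ κ).ord.ToType | ∃ n u m c, y γ n u m = some c ∧ c i ≠ CV.top} ⊆
        ⋃ p : ℕ × List Bool × ℕ, {i | ∃ c, y γ p.1 p.2.1 p.2.2 = some c ∧ c i ≠ CV.top} := by
      rintro i ⟨n, u, m, c, hc, hi⟩
      rw [mem_iUnion]
      exact ⟨(n, u, m), c, hc, hi⟩
    refine Set.Countable.mono h1 (Set.countable_iUnion fun p => ?_)
    cases hc : y γ p.1 p.2.1 p.2.2 with
    | none =>
      have : {i : (Order.succ κ).ord.ToType | ∃ c : Cond M _, none = some c ∧ c i ≠ CV.top} =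
          ∅ := by
        ext i
        simp
      rw [this]
      exact Set.countable_empty
    | some c =>
      refine Set.Countable.mono ?_ c.2.countable
      rintro i ⟨c', hc', hi⟩
      rw [Option.some.inj hc']
      exact hi
  have hSγ : ∀ s ∈ {i : (Order.succ κ).ord.ToType |
      ∃ n u m c, y γ n u m = some c ∧ c i ≠ CV.top}, s < γ := by
    rintro i ⟨n, u, m, c, hc, hi⟩
    by_contra hlt
    exact hi (hy γ n u m c hc i hlt)
  obtain ⟨β, hβγ, hβ⟩ := hγ2 _ hS hSγ
  have hRS : RS (Iio β) (y γ) := by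
    intro n u m c hc i hi
    by_contra hne
    exact hi (hβ i ⟨n, u, m, c, hc, hne⟩)
  have e1 : b (y γ) < h β := hh β ⟨y γ, hRS⟩
  have e2 : h β < γ := hγ1 β hβγ
  exact hb (y γ) γ (e1.trans e2).le rfl

end Pool.Agent.H631.THD.KP
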