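import Pool.Agent.H631.TH.FStm

/-!
# TH-MD: a demand for a `GNull` condition
-/

set_option autoImplicit false
set_option linter.unusedSectionVars false
set_option linter.unusedVariables false

namespace Pool.Agent.H631.THD.MD

open Classical Set
open Pool.Agent.H631.TH

/-- **MD.** -/
theorem th_MD (hP : S_PRED) (hG : S_GLUE) (hD : S_DEM) (hX : S_XT) : S_MD := by
  intro M T _ _ Γ hccc hfull γ j hγj X hXt hXs t f N w hw
  have hsub : Iio γ ⊆ Iio j := Iio_subset_Iio hγj
  -- the set of the conditions with a bound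
  obtain ⟨φ, hφ⟩ : ∃ φ : Set (Cond M T), φ = {a | (∀ i ∉ Iio γ, a i = CV.top) ∧
      le Γ (Iio γ) a w ∧ ∃ (n : ℕ) (L : Finset (List Bool)), N * L.card ≤ 2 ^ n ∧
        ∀ u : List Bool, u.length = n → u ∉ L →
          Out Γ (Xt Γ j X t f u) (mix (Iio γ) a w)} := ⟨_, rfl⟩
  have hch : ∀ a : Cond M T, ∃ (n : ℕ) (L : Finset (List Bool)) (E : Finset M), a ∈ φ →
      (N * L.card ≤ 2 ^ n ∧ (∀ u : List Bool, u.length = n → u ∉ L →
          Out Γ (Xt Γ j X t f u) (mix (Iio γ) a w)) ∧ (∀ m ∈ E, ∀ w, Bd Γ j w m t f) ∧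
        ∀ w u, u.length ≤ n → Out Γ (Xt Γ j X t f u) w → Out Γ (X u) (upd w j ⟨t, E⟩)) := by
    intro a
    by_cases ha : a ∈ φ
    · rw [hφ] at ha
      obtain ⟨-, -, n, L, h1, h2⟩ := ha
      obtain ⟨E, h3, h4⟩ := hD M T Γ hccc hfull j X hXt hXs t f n
      exact ⟨n, L, E, fun _ => ⟨h1, h2, h3, h4⟩⟩
    · exact ⟨0, ∅, ∅, fun h => absurd h ha⟩
  choose n L E hE using hch
  obtain ⟨g, hg1, hg2, hg3⟩ := hP M T Γ hccc φ
  obtain ⟨m, hm1, hm2⟩ := hG M T Γ hccc hfull j (fun i => (g i).map (fun a => (a, E a)))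
  have hmap : ∀ i a, g i = some a → (fun i => (g i).map (fun a => (a, E a))) i = some (a, E a) := by
    intro i a h
    simp only [h, Option.map_some]
  have hmap' : ∀ i a S, (fun i => (g i).map (fun a => (a, E a))) i = some (a, S) →
      g i = some a ∧ S = E a := by
    intro i a S h
    simp only [Option.map_eq_some_iff, Prod.mk.injEq] at h
    obtain ⟨b, h1, h2, h3⟩ := h
    subst h2
    exact ⟨h1, h3.symm⟩
  refine ⟨m, ?_, ?_⟩
  · intro w' r hr k hk
    refine hm2 (Encodable.encode t) f ?_ r k hk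
    intro i a S hi m' hm' q hq z' hz'
    obtain ⟨h1, rfl⟩ := hmap' i a S hi
    exact (hE a (hg1 i a h1)).2.2.1 m' hm' q q (le_refl' _ q) z' hz'
  · intro r hr
    -- a condition in the antichain
    have hex : ∃ i, ∃ a, g i = some a ∧ ∃ r', le Γ (Iio γ) r' r ∧ le Γ (Iio γ) r' a := by
      obtain ⟨r'', h1, n0, L0, h2, h3⟩ := hw N r hr
      have h4 : rst (Iio γ) r'' ∈ φ := by
        rw [hφ]
        refine ⟨fun i hi => rst_notMem r'' hi, ?_, n0, L0, h2, fun u hu hL => ?_⟩
        · exact le_trans' (low_iio γ) (rst_eq (low_iio γ) r'') (le_trans' (low_iio γ) h1 hr)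
        · have h5 : mix (Iio γ) (rst (Iio γ) r'') w = mix (Iio γ) r'' w := by
            apply Cond.ext'
            intro i
            by_cases hi : i ∈ Iio γ
            · rw [mix_mem _ _ hi, mix_mem _ _ hi, rst_mem _ hi]
            · rw [mix_notMem _ _ hi, mix_notMem _ _ hi]
          rw [h5]
          exact h3 u hu hL
      obtain ⟨i, a, hi, r3, h5, h6⟩ := hg3 _ h4
      refine ⟨i, a, hi, r3, ?_, le_mono (subset_univ _) h6⟩
      exact le_trans' (low_iio γ) (le_mono (subset_univ _) h5)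
        (le_trans' (low_iio γ) (rst_eq (low_iio γ) r'') h1)
    obtain ⟨a, ha, r', hr', hra⟩ := Nat.find_spec hex
    have hmin := fun i' (h : i' < Nat.find hex) => Nat.find_min hex h
    generalize Nat.find hex = i at ha hmin
    have haφ := hg1 i a ha
    obtain ⟨hE1, hE2, hE3, hE4⟩ := hE a haφ
    have hatop : ∀ l ∉ Iio γ, a l = CV.top := by
      rw [hφ] at haφ
      exact haφ.1
    refine ⟨r', hr', n a, L a, hE1, fun u hu hL => ?_⟩
    have h1 : Out Γ (Xt Γ j X t f u) (mix (Iio γ) r' w) := by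
      refine (hE2 u hu hL).mono ?_
      intro l _
      by_cases hl : l ∈ Iio γ
      · exact ext_congr l (fun k hk => (mix_mem r' w (low_iio γ l hl k hk)).symm)
          (mix_mem r' w hl).symm (mix_mem a w hl).symm (hra l hl)
      · exact ext_of_eq (by rw [mix_notMem _ _ hl, mix_notMem _ _ hl])
    have h2 := hE4 (mix (Iio γ) r' w) u hu.le h1
    rintro s hs ⟨z, hz, hzs⟩
    obtain ⟨z', hz'def⟩ : ∃ z' : Cond M T, z' = upd z j ⟨(z j).stem, (z j).pr ∪ E a⟩ := ⟨_, rfl⟩
    have hz'j : z' j = ⟨(z j).stem, (z j).pr ∪ E a⟩ := by rw [hz'def, upd_same]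
    have hz'n : ∀ l, l ≠ j → z' l = z l := fun l hl => by rw [hz'def, upd_of_ne _ _ hl]
    have hz'z : le Γ univ z' z := by
      intro l _
      by_cases hl : l = j
      · subst hl
        refine ext_same_stem ?_ ?_
        · rw [hz'j]
        · rw [hz'j]
          exact Finset.subset_union_left
      · exact ext_of_eq (hz'n l hl)
    -- the condition `z` at the coordinate `j`
    have hzj := hz j (mem_univ j)
    rw [ext_iff_fol, upd_same] at hzj
    obtain ⟨hst, -, hfol⟩ := hzj
    have hfolm := hfol m (Finset.mem_singleton_self m)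
    -- below `γ`
    have hzr' : le Γ (Iio γ) z r' := by
      intro l hl
      have hlj : l ≠ j := ne_of_lt (lt_of_lt_of_le hl hγj)
      refine ext_congr l (fun _ _ => rfl) rfl ?_ (hz l (mem_univ l))
      rw [upd_of_ne _ _ hlj, mix_mem _ _ hl]
    have h3 : le Γ (Iic j) z' (upd (mix (Iio γ) r' w) j ⟨t, E a⟩) := by
      intro l hl
      rcases lt_or_eq_of_le (show l ≤ j from hl) with hlj | rfl
      · refine ext_congr l (fun k hk => (hz'n k (ne_of_lt (hk.trans hlj))).symm)
          (hz'n l (ne_of_lt hlj)).symm ?_ (hz l (mem_univ l))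
        rw [upd_of_ne _ _ (ne_of_lt hlj), upd_of_ne _ _ (ne_of_lt hlj)]
      · rw [ext_iff_fol, upd_same, hz'j]
        refine ⟨hst, Finset.subset_union_right, fun m' hm' i' hi1 hi2 r0 hr0 k hk => ?_⟩
        obtain ⟨r1, hr1, v, hv⟩ := Val.dense (Γ := Γ) (low_iio l) r0 (Γ l m)
          (Encodable.encode ((z l).stem.take i'))
        have hk1 := hk.mono (low_iio l) hr1
        have hr0z : le Γ (Iio l) r0 z :=
          le_trans' (low_iio l) hr0 (le_mono (subset_univ _) hz'z)
        have hr1z : le Γ (Iio l) r1 z := le_trans' (low_iio l) hr1 hr0z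
        have h4 : v ≤ (z l).stem.getD i' 0 := hfolm i' hi1 hi2 r1 hr1z v hv
        have hr1r' : le Γ (Iio γ) r1 r' :=
          le_trans' (low_iio γ) (le_mono hsub hr1z) hzr'
        have hr1a : le Γ (Iio l) r1 a := by
          intro k' hk'
          by_cases hk'' : k' ∈ Iio γ
          · exact (le_trans' (low_iio γ) hr1r' hra) k' hk''
          · exact ext_top (hatop k' hk'')
        have h5 : k ≤ v := by
          refine hm1 i a (E a) (hmap i a ha) r1 hr1a ?_ _ v hv m' hm' k hk1
          rintro i'' hi'' a' S' hS' ⟨r2, hr2, hr2'⟩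
          obtain ⟨h6, -⟩ := hmap' i'' a' S' hS'
          refine hmin i'' hi'' ⟨a', h6, r2, ?_, le_mono hsub hr2'⟩
          exact le_trans' (low_iio γ) (le_mono hsub hr2) (le_trans' (low_iio γ) hr1r' hr')
        exact h5.trans h4
    exact (h2.mono' (low_iic j) (hXs u) h3) s hs ⟨z', le_refl' _ z', le_trans' low_univ hz'z hzs⟩

end Pool.Agent.H631.THD.MD
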