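import Pool.Agent.H631.TH.FStm

set_option autoImplicit false
set_option linter.unusedSectionVars false
set_option linter.unusedVariables false

namespace Pool.Agent.H631.THD.N1

open Pool.Agent.H631.TH
open Classical Set

theorem dem_grow {M T : Type} [LinearOrder T] [WellFoundedLT T] {Γ : Par M T} {γ j : T}
    {X : TN M T} {p : Cond M T} {D : List ℕ → ℕ → ℕ → Finset M} {R : Node M T → Finset M}
    {nd : List ℕ → Option (Node M T)} (h : IsTree Γ γ j X p D R nd) {l : List ℕ}
    {π : Node M T} (hl : nd l = some π) (e : ℕ) (rest : List ℕ) :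
    ∀ π', nd (l ++ [e] ++ rest) = some π' → R π ⊆ π'.dem := by
  induction rest using List.reverseRecOn with
  | nil =>
    intro π' hπ'
    rw [List.append_nil] at hπ'
    obtain ⟨π0, h0, hc⟩ := h.child l e π' hπ'
    rw [hl] at h0
    have : π = π0 := Option.some_injective _ h0
    subst this
    exact hc.2.2.1
  | append_singleton rest e' ih =>
    intro π' hπ'
    rw [← List.append_assoc] at hπ'
    obtain ⟨π0, h0, hc⟩ := h.child _ e' π' hπ'
    exact (ih π0 h0).trans hc.2.1

theorem fol_mono {M T : Type} [LinearOrder T] [WellFoundedLT T] {Γ : Par M T} {j : T}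
    {z z' : Cond M T} {m : M} {t t3 : List ℕ} (h : Fol Γ j z m t t3) (hz : le Γ (Iio j) z' z) :
    Fol Γ j z' m t t3 := fun i hi hi' r hr n hn =>
  h i hi hi' r (le_trans' (low_iio j) hr hz) n hn

theorem th_N1 (hF : S_FOL) : S_N1 := by
  intro M T _ _ Γ γ j hγj X hX p D R nd hT mF hmF l π hl hRB hR r hr
  have hsub : ∀ i ∈ Iio γ, i ∈ Iio j := fun i hi => lt_of_lt_of_le hi hγj
  have hQj : (Qn j p mF π) j = ⟨π.t, insert mF (p j).pr⟩ := by
    unfold Qn
    rw [mix_notMem _ _ (by simp), upd_same]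
  have hQlt : ∀ i ∈ Iio j, (Qn j p mF π) i = π.w i := by
    intro i hi
    unfold Qn
    exact mix_mem _ _ hi
  have hrw : le Γ (Iio γ) r π.w :=
    le_congr (low_iio γ) (fun _ _ => rfl) (fun i hi => hQlt i (hsub i hi)) hr
  obtain ⟨r', h1, n, L, hL, hu⟩ := hR r hrw
  refine ⟨r', h1, n, L, hL, fun u hun huL => ?_⟩
  rintro s hs ⟨z, hz1, hz2⟩
  have hzQ : le Γ univ z (Qn j p mF π) :=
    le_trans' low_univ hz1 (mix_le (low_iio γ) (le_trans' (low_iio γ) h1 hr))
  obtain ⟨w, hw, hfol⟩ := hF M T Γ γ j X p D R nd hT mF hmF l π hl {m | m ∈ R π} (by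
    intro m hm l' π' hpre hl' ha
    obtain ⟨rest, rfl⟩ := hpre
    cases rest with
    | nil =>
      rw [List.append_nil, hl] at hl'
      have : π = π' := Option.some_injective _ hl'
      subst this
      exact hRB m hm _
    | cons e rest =>
      have e1 : l ++ e :: rest = l ++ [e] ++ rest := by simp
      have h2 := dem_grow hT hl e rest π' (by rw [← e1]; exact hl') hm
      exact (hT.inv _ π' hl').2.2.2.2.2.1 ha m h2) z (le_mono (subset_univ _) hzQ)
  set z' : Cond M T := mix (Iio j) w (upd z j ⟨(z j).stem, (z j).pr ∪ R π⟩) with hz'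
  have hz'j : z' j = ⟨(z j).stem, (z j).pr ∪ R π⟩ := by
    rw [hz', mix_notMem _ _ (by simp), upd_same]
  have hz'lt : ∀ i ∈ Iio j, z' i = w i := fun i hi => by rw [hz', mix_mem _ _ hi]
  have hz'w : le Γ (Iio j) z' w := le_of_eq (low_iio j) hz'lt
  have hz'z : le Γ univ z' z := by
    intro i _
    rcases lt_trichotomy i j with hi | hi | hi
    · exact (le_trans' (low_iio j) hz'w hw) i hi
    · subst hi
      exact ext_same_stem (by rw [hz'j]) (by rw [hz'j]; exact Finset.subset_union_left)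
    · apply ext_of_eq
      rw [hz', mix_notMem _ _ (by simp [hi.le]), upd_of_ne _ _ hi.ne']
  have hzY : le Γ (Iio j) z (upd (mix (Iio γ) r' π.w) j ⟨π.t, R π⟩) := by
    refine le_congr (low_iio j) (fun _ _ => rfl) (fun i hi => ?_) (le_mono (subset_univ _) hz1)
    rw [upd_of_ne _ _ (ne_of_lt hi)]
    by_cases hiγ : i ∈ Iio γ
    · rw [mix_mem _ _ hiγ, mix_mem _ _ hiγ]
    · rw [mix_notMem _ _ hiγ, mix_notMem _ _ hiγ, hQlt i hi]
  have hz'Y : le Γ (Iic j) z' (upd (mix (Iio γ) r' π.w) j ⟨π.t, R π⟩) := by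
    intro i hi
    rcases lt_or_eq_of_le (show i ≤ j from hi) with hi | hi
    · exact (le_trans' (low_iio j) (le_mono (subset_univ _) hz'z) hzY) i hi
    · subst hi
      rw [ext_iff_fol, upd_same, hz'j]
      refine ⟨?_, Finset.subset_union_right, fun m hm => fol_mono (hfol m hm) hz'w⟩
      have := ext_stem (hzQ i (mem_univ i))
      rw [hQj] at this
      exact this
  exact (Out.mono' (low_iic j) (hX u) (hu u hun huL) hz'Y) s hs
    ⟨z', le_refl' _ _, le_trans' low_univ hz'z hz2⟩

end Pool.Agent.H631.THD.N1
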