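import Pool.Agent.H631.TH.FStm

/-!
# Project TH (helper631): almost all children of a node obey the demand (N2)
-/

set_option autoImplicit false
set_option linter.unusedSectionVars false
set_option linter.unusedVariables false

namespace Pool.Agent.H631.THD.N2

open Classical Set
open Pool.Agent.H631.TH

section

variable {M T : Type} [LinearOrder T] [WellFoundedLT T]

/-- the demands grow along the branches -/
theorem dem_mono {Γ : Par M T} {γ j : T} {X : TN M T} {p : Cond M T}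
    {D : List ℕ → ℕ → ℕ → Finset M} {R : Node M T → Finset M} {nd : List ℕ → Option (Node M T)}
    (ht : IsTree Γ γ j X p D R nd) (l : List ℕ) (π : Node M T) (hl : nd l = some π) :
    ∀ (r : List ℕ) (π' : Node M T), nd (l ++ r) = some π' → π.dem ⊆ π'.dem := by
  intro r
  induction r using List.reverseRecOn with
  | nil =>
    intro π' h
    rw [List.append_nil, hl] at h
    rw [Option.some_injective _ h]
  | append_singleton r e ih =>
    intro π' h
    rw [← List.append_assoc] at h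
    obtain ⟨π1, h1, h2⟩ := ht.child _ _ _ h
    exact (ih π1 h1).trans h2.2.1

theorem Qn_lt {Γ : Par M T} {j : T} (p : Cond M T) (mF : M) (π : Node M T) {i : T} (hi : i < j) :
    Qn j p mF π i = π.w i := mix_mem _ _ hi

theorem Qn_same {j : T} (p : Cond M T) (mF : M) (π : Node M T) :
    Qn j p mF π j = ⟨π.t, insert mF (p j).pr⟩ := by
  rw [Qn, mix_notMem (S := Iio j) _ _ (lt_irrefl j), upd_same]

theorem th_N2 (hF : S_FOL) : S_N2 := by
  intro M T _ _ Γ γ j hγj X hX p D R nd hDB hDE ht mF hmF l π hl N r hr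
  obtain ⟨hsup, hle, hstem, hfol, hbd, hbdA, hG⟩ := ht.inv l π hl
  have hr1 : le Γ (Iio γ) r π.w := le_congr (low_iio γ) (fun _ _ => rfl)
    (fun i hi => Qn_lt (Γ := Γ) p mF π (lt_of_lt_of_le hi hγj)) hr
  obtain ⟨r', hr', n, L, hNL, hout⟩ := hG N r hr1
  refine ⟨r', hr', n, L, hNL, n, ?_⟩
  rintro e he π' hπ' z hz hzr' u hu huL s hs ⟨z1, hz1, hz1s⟩
  obtain ⟨π0, hπ0, hc⟩ := ht.child l e π' hπ'
  rw [hl] at hπ0
  obtain rfl : π = π0 := Option.some_injective _ hπ0
  obtain ⟨hw, hdem, hR, hD, hwt, ha, hA, hB⟩ := hc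
  obtain ⟨E, hE⟩ : ∃ E, E = D π.t π.f n := ⟨_, rfl⟩
  have hEd : E ⊆ π'.dem := hE ▸ hD n he
  have hz1Q : le Γ univ z1 (Qn j p mF π') := le_trans' low_univ hz1 hz
  have hst : π'.t <+: (z1 j).stem := by
    have h1 := ext_stem (hz1Q j (mem_univ j))
    rw [Qn_same] at h1
    exact h1
  obtain ⟨w, hw1, hw2⟩ := hF M T Γ γ j X p D R nd ht mF hmF (l ++ [e]) π' hπ' (E : Set M)
    (by
      rintro m hm l' π'' ⟨r2, rfl⟩ hπ'' ha''
      have h1 := dem_mono ht _ _ hπ' r2 π'' hπ''
      exact (ht.inv _ _ hπ'').2.2.2.2.2.1 ha'' m (h1 (hEd hm))) z1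
    (le_mono (subset_univ _) hz1Q)
  obtain ⟨t3, ht3⟩ : ∃ t3, t3 = (z1 j).stem := ⟨_, rfl⟩
  rw [← ht3] at hst hw2
  -- following the promises from `π.t` on
  have hpre : π.t <+: t3 ∧ ∀ m ∈ E, Fol Γ j w m π.t t3 := by
    rcases Bool.eq_false_or_eq_true π.a with ha1 | ha1
    · obtain ⟨a, hfa, hta⟩ := hA ha1
      have h1 : π.t <+: π'.t := hta ▸ List.prefix_append _ _
      refine ⟨h1.trans hst, fun m hm i hi1 hi2 r3 hr3 v hv => ?_⟩
      rcases hi1.eq_or_lt with hi | hi
      · subst hi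
        have h2 : t3.take π.t.length = π.t := by
          rw [take_prefix (h1.trans hst) le_rfl, List.take_length]
        have h3 : t3.getD π.t.length 0 = a := by
          rw [getD_prefix hst (by rw [hta, List.length_append]; simp), hta,
            List.getD_append_right _ _ _ _ le_rfl]
          simp
        rw [h2] at hv
        rw [h3]
        rw [hE] at hm
        exact (hDB π.t π.f n m hm r3 r3 (le_refl' _ _) v hv).trans hfa
      · refine hw2 m hm i ?_ hi2 r3 hr3 v hv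
        rw [hta, List.length_append]
        simpa using hi
    · obtain ⟨hta, -⟩ := hB ha1
      rw [← hta]
      exact ⟨hst, hw2⟩
  obtain ⟨hpre, hfol3⟩ := hpre
  obtain ⟨y, hy⟩ : ∃ y, y = upd z1 j ⟨t3, (z1 j).pr ∪ E⟩ := ⟨_, rfl⟩
  have hyj : y j = ⟨t3, (z1 j).pr ∪ E⟩ := by rw [hy, upd_same]
  obtain ⟨z2, hz2⟩ : ∃ z2, z2 = mix (Iio j) w y := ⟨_, rfl⟩
  have hz2lt : ∀ i, i < j → z2 i = w i := fun i hi => by
    rw [hz2]
    exact mix_mem _ _ hi
  have hz2j : z2 j = ⟨t3, (z1 j).pr ∪ E⟩ := by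
    rw [hz2, mix_notMem (S := Iio j) _ _ (lt_irrefl j), hyj]
  have hz2w : le Γ (Iio j) z2 w := le_of_eq (low_iio j) fun i hi => hz2lt i hi
  have hz2z1 : le Γ univ z2 z1 := by
    intro i _
    rcases lt_trichotomy i j with hi | hi | hi
    · exact (le_trans' (low_iio j) hz2w hw1) i hi
    · subst hi
      refine ext_same_stem ?_ ?_
      · rw [hz2j, ht3]
      · rw [hz2j]
        exact Finset.subset_union_left
    · refine ext_of_eq ?_
      rw [hz2, mix_notMem (S := Iio j) _ _ (fun h => lt_asymm hi h), hy, upd_of_ne _ _ hi.ne']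
  have hz2Q : le Γ univ z2 (Qn j p mF π') := le_trans' low_univ hz2z1 hz1Q
  have hz2π : le Γ (Iio j) z2 π.w := by
    have h1 : le Γ (Iio j) z2 π'.w := le_congr (low_iio j) (fun _ _ => rfl)
      (fun i hi => Qn_lt (Γ := Γ) p mF π' hi) (le_mono (subset_univ _) hz2Q)
    exact le_trans' (low_iio j) h1 (le_mono (subset_univ _) hw)
  have hz2r : le Γ (Iio γ) z2 r' := le_trans' (low_iio γ)
    (le_mono (subset_univ _) (le_trans' low_univ hz2z1 hz1)) hzr'
  have hkey : le Γ (Iic j) z2 (upd (mix (Iio γ) r' π.w) j ⟨π.t, E⟩) := by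
    intro i hi
    rcases (show i ≤ j from hi).lt_or_eq with hi | hi
    · by_cases hiγ : i < γ
      · refine ext_congr i (fun _ _ => rfl) rfl ?_ (hz2r i hiγ)
        rw [upd_of_ne _ _ hi.ne, mix_mem (S := Iio γ) _ _ hiγ]
      · refine ext_congr i (fun _ _ => rfl) rfl ?_ (hz2π i hi)
        rw [upd_of_ne _ _ hi.ne, mix_notMem (S := Iio γ) _ _ hiγ]
    · subst hi
      rw [ext_iff_fol, upd_same, hz2j]
      refine ⟨hpre, Finset.subset_union_right, fun m hm i' hi1 hi2 r3 hr3 v hv => ?_⟩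
      exact hfol3 m hm i' hi1 hi2 r3 (le_trans' (low_iio i) hr3 hz2w) v hv
  have h5 := hDE π.t π.f n (mix (Iio γ) r' π.w) u hu.le (hout u hu huL)
  rw [← hE] at h5
  exact (h5.mono' (low_iic j) (hX u) hkey) s hs
    ⟨z2, le_refl' _ _, le_trans' low_univ hz2z1 hz1s⟩

end

end Pool.Agent.H631.THD.N2
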