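import Pool.Agent.H631.TH.FStm

/-!
# Project TH (helper631): the children of a node are predense
-/

set_option autoImplicit false
set_option linter.unusedSectionVars false
set_option linter.unusedVariables false

namespace Pool.Agent.H631.THD.ND

open Classical Set Pool.Agent.H631.TH

variable {M T : Type} [LinearOrder T] [WellFoundedLT T]

theorem Qn_lt {j : T} {p : Cond M T} {mF : M} {π : Node M T} {i : T} (h : i < j) :
    Qn j p mF π i = π.w i := mix_mem _ _ h

theorem Qn_self {j : T} {p : Cond M T} {mF : M} {π : Node M T} :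
    Qn j p mF π j = ⟨π.t, insert mF (p j).pr⟩ := by
  unfold Qn
  rw [mix_notMem _ _ (show j ∉ Iio j from lt_irrefl j), upd_same]

theorem Qn_gt {j : T} {p : Cond M T} {mF : M} {π : Node M T} {i : T} (h : j < i) :
    Qn j p mF π i = p i := by
  unfold Qn
  rw [mix_notMem _ _ (show i ∉ Iio j from not_lt.2 h.le), upd_of_ne _ _ h.ne']

/-- the stem can be made longer -/
theorem longer (Γ : Par M T) (j : T) (z : Cond M T) :
    ∃ z' a, le Γ univ z' z ∧ (z' j).stem = (z j).stem ++ [a] := by
  obtain ⟨t', ht', hv⟩ := Val.decideF (Γ := Γ) (low_iio j) (z j).pr (fun b => Γ j b)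
    (fun _ => Encodable.encode (z j).stem) z
  choose! v hv using hv
  refine ⟨mix (Iio j) t' (upd z j ⟨(z j).stem ++ [(z j).pr.sup v], (z j).pr⟩),
    (z j).pr.sup v, ?_, ?_⟩
  · intro i _
    rcases lt_trichotomy i j with h | rfl | h
    · refine ext_congr i (fun l hl => (mix_mem _ _ (show l ∈ Iio j from lt_trans hl h)).symm)
        (mix_mem _ _ (show i ∈ Iio j from h)).symm rfl (ht' i h)
    · rw [ext_iff]
      have e : mix (Iio i) t' (upd z i ⟨(z i).stem ++ [(z i).pr.sup v], (z i).pr⟩) i =
          ⟨(z i).stem ++ [(z i).pr.sup v], (z i).pr⟩ := by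
        rw [mix_notMem _ _ (show i ∉ Iio i from lt_irrefl i), upd_same]
      rw [e]
      refine ⟨List.prefix_append _ _, Finset.Subset.refl _, ?_⟩
      intro k hk n hn hn' t ht m hm
      have hn2 : n = (z i).stem.length := by
        simp only [List.length_append, List.length_singleton] at hn'
        omega
      subst hn2
      have e1 : (⟨(z i).stem ++ [(z i).pr.sup v], (z i).pr⟩ : CV M).stem.take (z i).stem.length =
          (z i).stem := List.take_left
      have e2 : (⟨(z i).stem ++ [(z i).pr.sup v], (z i).pr⟩ : CV M).stem.getD (z i).stem.length 0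
          = (z i).pr.sup v := by
        show ((z i).stem ++ [(z i).pr.sup v]).getD (z i).stem.length 0 = _
        simp
      rw [e1] at hm
      rw [e2]
      have ht2 : le Γ (Iio i) t t' :=
        le_trans' (low_iio i) ht (le_of_eq (low_iio i) fun l hl => mix_mem _ _ hl)
      have h3 := (hv k hk).mono (low_iio i) ht2
      rw [hm.unique h3]
      exact Finset.le_sup hk
    · refine ext_of_eq ?_
      rw [mix_notMem _ _ (show i ∉ Iio j from not_lt.2 h.le), upd_of_ne _ _ h.ne']
  · rw [mix_notMem _ _ (show j ∉ Iio j from lt_irrefl j), upd_same]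

/-- combination with a child -/
theorem combine {Γ : Par M T} {j : T} {p : Cond M T} {mF : M} {π π' : Node M T} {z w' : Cond M T}
    (hz : le Γ univ z (Qn j p mF π)) (hwz : le Γ (Iio j) w' z) (hw : le Γ (Iio j) w' π'.w)
    (ht : π'.t <+: (z j).stem) (htt : π.t.length ≤ π'.t.length) :
    Cmp (le Γ univ) z (Qn j p mF π') := by
  have hz' : le Γ univ (mix (Iio j) w' z) z := mix_le (low_iio j) hwz
  have hzQ : le Γ univ (mix (Iio j) w' z) (Qn j p mF π) := le_trans' low_univ hz' hz
  refine ⟨mix (Iio j) w' z, hz', ?_⟩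
  intro i _
  rcases lt_trichotomy i j with h | rfl | h
  · exact ext_congr i (fun l hl => (mix_mem _ _ (show l ∈ Iio j from lt_trans hl h)).symm)
      (mix_mem _ _ (show i ∈ Iio j from h)).symm (Qn_lt h).symm (hw i h)
  · have h1 := ext_iff_fol.1 (hz i (mem_univ i))
    rw [Qn_self] at h1
    rw [ext_iff_fol, Qn_self, mix_notMem _ _ (show i ∉ Iio i from lt_irrefl i)]
    refine ⟨ht, h1.2.1, fun m hm n hn hn' r hr v hv => ?_⟩
    exact h1.2.2 m hm n (le_trans htt hn) hn' r
      (le_trans' (low_iio i) hr (le_mono (subset_univ _) hz')) v hv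
  · refine ext_congr i (fun _ _ => rfl) rfl ?_ (hzQ i (mem_univ i))
    rw [Qn_gt h, Qn_gt h]

theorem th_ND : S_ND := by
  intro M T _ _ Γ γ j X p D R nd htree mF hF l π hπ z hz
  by_cases ha : π.a = true
  · obtain ⟨z1, b, hz1, hst⟩ := longer Γ j z
    have hzQ : le Γ univ z1 (Qn j p mF π) := le_trans' low_univ hz1 hz
    have h1 := ext_iff_fol.1 (hzQ j (mem_univ j))
    have h0 := ext_iff_fol.1 (hz j (mem_univ j))
    rw [Qn_self] at h1 h0
    obtain ⟨hp, hpr, hfol⟩ := h1
    have hp0 : π.t <+: (z j).stem := h0.1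
    have hp1 : π.t <+: (z1 j).stem := hp
    have hlen : π.t.length < (z1 j).stem.length := by
      rw [hst, List.length_append]
      have := hp0.length_le
      simp only [List.length_singleton]
      omega
    have hzw : le Γ (Iio j) z1 π.w :=
      le_congr (low_iio j) (fun _ _ => rfl) (fun i hi => Qn_lt hi) (le_mono (subset_univ _) hzQ)
    have hval := (hF l π hπ ha).mono (low_iio j) hzw
    have hle : π.f ≤ (z1 j).stem.getD π.t.length 0 := by
      refine hfol mF (Finset.mem_insert_self _ _) π.t.length (le_refl _) hlen z1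
        (le_refl' _ z1) π.f ?_
      have e : (z1 j).stem.take π.t.length = π.t := by
        obtain ⟨r, hr⟩ := hp1
        rw [← hr, List.take_left]
      rw [e]
      exact hval
    obtain ⟨e, π', hπ', ht, w', hw1, hw2⟩ := htree.dense l π hπ ((z1 j).stem.getD π.t.length 0)
      (fun _ => hle) z1 hzw
    have ht' := ht ha
    have hpre : π'.t <+: (z1 j).stem := by
      rw [ht']
      obtain ⟨r, hr⟩ := hp1
      have hr0 : r ≠ [] := by
        intro h0
        rw [h0, List.append_nil] at hr
        rw [← hr] at hlen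
        exact lt_irrefl _ hlen
      obtain ⟨c, r', rfl⟩ := List.exists_cons_of_ne_nil hr0
      have e : (z1 j).stem.getD π.t.length 0 = c := by
        rw [← hr]
        simp
      rw [e, ← hr]
      exact ⟨r', by simp⟩
    obtain ⟨s, hs1, hs2⟩ := combine hzQ hw1 hw2 hpre (by rw [ht']; simp)
    exact ⟨e, π', hπ', s, le_trans' low_univ hs1 hz1, hs2⟩
  · have h1 := ext_iff_fol.1 (hz j (mem_univ j))
    rw [Qn_self] at h1
    have hzw : le Γ (Iio j) z π.w :=
      le_congr (low_iio j) (fun _ _ => rfl) (fun i hi => Qn_lt hi) (le_mono (subset_univ _) hz)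
    obtain ⟨e, π', hπ', -, w', hw1, hw2⟩ := htree.dense l π hπ 0 (fun h => absurd h ha) z hzw
    obtain ⟨π2, hπ2, hch⟩ := htree.child l e π' hπ'
    rw [hπ] at hπ2
    obtain rfl := Option.some_injective _ hπ2
    have ht' : π'.t = π.t := (hch.2.2.2.2.2.2.2 (by simpa using ha)).1
    have hpre : π.t <+: (z j).stem := h1.1
    exact ⟨e, π', hπ', combine hz hw1 hw2 (by rw [ht']; exact hpre) (by rw [ht'])⟩

end Pool.Agent.H631.THD.ND
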