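import Pool.Agent.H631.TH.FStm

/-!
# Trees of conditions: the abstract lemma (helper297 for helper631)
-/

set_option autoImplicit false
set_option linter.unusedSectionVars false

namespace Pool.Agent.H631.THD.NT

open Classical Set
open Pool.Agent.H631.TH

/-! ### Sequences of bits -/

/-- the sequences of length `n` -/
noncomputable def SL : ℕ → Finset (List Bool)
  | 0 => {[]}
  | n + 1 => (SL n).image (List.cons true) ∪ (SL n).image (List.cons false)

theorem mem_SL : ∀ (n : ℕ) (u : List Bool), u ∈ SL n ↔ u.length = n := by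
  intro n
  induction n with
  | zero =>
    intro u
    rw [SL, Finset.mem_singleton, List.length_eq_zero_iff]
  | succ n ih =>
    intro u
    rw [SL, Finset.mem_union, Finset.mem_image, Finset.mem_image]
    constructor
    · rintro (⟨v, hv, rfl⟩ | ⟨v, hv, rfl⟩)
      · rw [List.length_cons, (ih v).1 hv]
      · rw [List.length_cons, (ih v).1 hv]
    · intro hu
      cases u with
      | nil => simp at hu
      | cons b v =>
        have hv : v ∈ SL n := (ih v).2 (by simpa using hu)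
        cases b with
        | true => exact Or.inl ⟨v, hv, rfl⟩
        | false => exact Or.inr ⟨v, hv, rfl⟩

theorem card_SL (n : ℕ) : (SL n).card ≤ 2 ^ n := by
  induction n with
  | zero => simp [SL]
  | succ n ih =>
    rw [SL]
    refine (Finset.card_union_le _ _).trans ?_
    have h1 := Finset.card_image_le (s := SL n) (f := List.cons true)
    have h2 := Finset.card_image_le (s := SL n) (f := List.cons false)
    rw [pow_succ]
    omega

/-- the sequences of length `n` with initial segment in `L` -/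
noncomputable def Ex (n m : ℕ) (L : Finset (List Bool)) : Finset (List Bool) :=
  (SL n).filter (fun u => u.take m ∈ L)

theorem card_Ex {n m : ℕ} (hmn : m ≤ n) (L : Finset (List Bool)) :
    (Ex n m L).card ≤ L.card * 2 ^ (n - m) := by
  have h1 : (Ex n m L).card ≤ (L ×ˢ SL (n - m)).card := by
    refine Finset.card_le_card_of_injOn (fun u => (u.take m, u.drop m)) ?_ ?_
    · intro u hu
      have hu' := Finset.mem_filter.1 (Finset.mem_coe.1 hu)
      rw [Finset.mem_coe, Finset.mem_product]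
      refine ⟨hu'.2, (mem_SL _ _).2 ?_⟩
      rw [List.length_drop, (mem_SL _ _).1 hu'.1]
    · intro u _ v _ h
      have h2 : u.take m = v.take m := congrArg Prod.fst h
      have h3 : u.drop m = v.drop m := congrArg Prod.snd h
      rw [← List.take_append_drop m u, ← List.take_append_drop m v, h2, h3]
  rw [Finset.card_product] at h1
  exact h1.trans (Nat.mul_le_mul_left _ (card_SL _))

theorem card_Ex' {n m : ℕ} (hmn : m ≤ n) (L : Finset (List Bool)) {a : ℝ}
    (h : (L.card : ℝ) ≤ a * 2 ^ m) : ((Ex n m L).card : ℝ) ≤ a * 2 ^ n := by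
  have h1 : ((Ex n m L).card : ℝ) ≤ (L.card : ℝ) * 2 ^ (n - m) := by
    exact_mod_cast card_Ex hmn L
  refine h1.trans ?_
  have h2 : (2 : ℝ) ^ n = 2 ^ m * 2 ^ (n - m) := by
    rw [← pow_add, Nat.add_sub_cancel' hmn]
  rw [h2, ← mul_assoc]
  exact mul_le_mul_of_nonneg_right h (by positivity)

theorem sum_half (E : ℕ) : ∑ e ∈ Finset.range E, ((1 : ℝ) / 2) ^ (e + 2) ≤ 1 / 2 := by
  have h : ∀ E : ℕ, ∑ e ∈ Finset.range E, ((1 : ℝ) / 2) ^ (e + 2) = 1 / 2 - (1 / 2) ^ (E + 1) := by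
    intro E
    induction E with
    | zero => norm_num
    | succ E ih =>
      rw [Finset.sum_range_succ, ih, pow_succ _ (E + 1)]
      ring
  rw [h]
  have : (0 : ℝ) ≤ (1 / 2) ^ (E + 1) := by positivity
  linarith

section forcing

variable {M T : Type} [LinearOrder T] [WellFoundedLT T]

theorem le_mix {Γ : Par M T} {S : Set T} {z r c : Cond M T} (h1 : le Γ S z r)
    (h2 : le Γ univ z c) : le Γ univ z (mix S r c) := by
  intro j hj
  by_cases h : j ∈ S
  · exact ext_congr j (fun _ _ => rfl) rfl (mix_mem r c h).symm (h1 j h)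
  · exact ext_congr j (fun _ _ => rfl) rfl (mix_notMem r c h).symm (h2 j hj)

/-- the condition for the child with index `e` -/
def PP (Γ : Par M T) (γ : T) (X : TN M T) (q : List ℕ → Option (Cond M T × ℕ)) (l : List ℕ)
    (e : ℕ) (r : Cond M T) (n : ℕ) (L : Finset (List Bool)) : Prop :=
  ∀ c' w', q (l ++ [e]) = some (c', w') → ∀ z, le Γ univ z c' → le Γ (Iio γ) z r →
    ∀ u : List Bool, u.length = n → u ∉ L → Out Γ (X u) z

theorem PP.mono {Γ : Par M T} {γ : T} {X : TN M T} {q : List ℕ → Option (Cond M T × ℕ)}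
    {l : List ℕ} {e : ℕ} {r r' : Cond M T} {n : ℕ} {L : Finset (List Bool)}
    (h : PP Γ γ X q l e r n L) (hr : le Γ (Iio γ) r' r) : PP Γ γ X q l e r' n L :=
  fun c' w' hq z h1 h2 u hu hL => h c' w' hq z h1 (le_trans' (low_iio γ) h2 hr) u hu hL

/-- the claim -/
def Claim (Γ : Par M T) (γ : T) (X : TN M T) (q : List ℕ → Option (Cond M T × ℕ)) (k : ℕ) :
    Prop :=
  ∀ l c w, q l = some (c, w) → ∀ δ : ℝ, 0 < δ → ∀ r, le Γ (Iio γ) r c → ∃ r', le Γ (Iio γ) r' r ∧
    ∃ (n : ℕ) (L : Finset (List Bool)), (L.card : ℝ) ≤ (δ + (1 / 2) ^ w * (1 / 2) ^ k) * 2 ^ n ∧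
      ∀ u : List Bool, u.length = n → u ∉ L → Out Γ (X u) (mix (Iio γ) r' c)

/-- one child -/
theorem one {Γ : Par M T} {γ : T} {X : TN M T} {q : List ℕ → Option (Cond M T × ℕ)} {k : ℕ}
    (hC : Claim Γ γ X q k) {l : List ℕ} {c : Cond M T} {w : ℕ}
    (hw : ∀ e c' w', q (l ++ [e]) = some (c', w') → w' = w + e + 2) {δ : ℝ} (hδ : 0 < δ) (e : ℕ)
    (r : Cond M T) : ∃ r', le Γ (Iio γ) r' r ∧ ∃ (n : ℕ) (L : Finset (List Bool)),
      (L.card : ℝ) ≤ ((δ + (1 / 2) ^ w * (1 / 2) ^ k) * (1 / 2) ^ (e + 2)) * 2 ^ n ∧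
        PP Γ γ X q l e r' n L := by
  have hb : 0 ≤ (δ + (1 / 2) ^ w * (1 / 2) ^ k) * (1 / 2) ^ (e + 2) := by positivity
  by_cases h : ∃ c' w' r'', q (l ++ [e]) = some (c', w') ∧ le Γ (Iio γ) r'' r ∧ le Γ (Iio γ) r'' c'
  · obtain ⟨c', w', r'', hq, h1, h2⟩ := h
    obtain ⟨r', h3, n, L, h4, h5⟩ := hC (l ++ [e]) c' w' hq (δ * (1 / 2) ^ (e + 2)) (by positivity)
      r'' h2
    refine ⟨r', le_trans' (low_iio γ) h3 h1, n, L, ?_, ?_⟩
    · refine h4.trans (le_of_eq ?_)
      rw [hw e c' w' hq, show w + e + 2 = w + (e + 2) by ring, pow_add (1 / 2 : ℝ) w (e + 2)]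
      ring
    · intro c'' w'' hq' z hz1 hz2 u hu hL
      rw [hq] at hq'
      obtain ⟨rfl, rfl⟩ := Prod.mk.inj (Option.some_injective _ hq')
      exact (h5 u hu hL).mono (le_mix hz2 hz1)
  · refine ⟨r, le_refl' _ r, 0, ∅, ?_, ?_⟩
    · rw [Finset.card_empty, Nat.cast_zero]
      positivity
    · intro c' w' hq z hz1 hz2 _ _ _
      exact absurd ⟨c', w', z, hq, hz2, le_mono (subset_univ _) hz1⟩ h

/-- finitely many children -/
theorem many {Γ : Par M T} {γ : T} {X : TN M T} {q : List ℕ → Option (Cond M T × ℕ)} {k : ℕ}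
    (hC : Claim Γ γ X q k) {l : List ℕ} {c : Cond M T} {w : ℕ}
    (hw : ∀ e c' w', q (l ++ [e]) = some (c', w') → w' = w + e + 2) {δ : ℝ} (hδ : 0 < δ)
    (r : Cond M T) (E : ℕ) : ∃ r', le Γ (Iio γ) r' r ∧ ∃ (n : ℕ → ℕ) (L : ℕ → Finset (List Bool)),
      ∀ e < E, ((L e).card : ℝ) ≤ ((δ + (1 / 2) ^ w * (1 / 2) ^ k) * (1 / 2) ^ (e + 2)) * 2 ^ n e ∧
        PP Γ γ X q l e r' (n e) (L e) := by
  induction E with
  | zero => exact ⟨r, le_refl' _ r, fun _ => 0, fun _ => ∅, fun e he => absurd he (Nat.not_lt_zero e)⟩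
  | succ E ih =>
    obtain ⟨r1, h1, n, L, h2⟩ := ih
    obtain ⟨r2, h3, n', L', h4, h5⟩ := one (c := c) hC hw hδ E r1
    refine ⟨r2, le_trans' (low_iio γ) h3 h1, Function.update n E n', Function.update L E L', ?_⟩
    intro e he
    rcases Nat.lt_succ_iff_lt_or_eq.1 he with h | rfl
    · rw [Function.update_of_ne h.ne, Function.update_of_ne h.ne]
      exact ⟨(h2 e h).1, (h2 e h).2.mono h3⟩
    · rw [Function.update_self, Function.update_self]
      exact ⟨h4, h5⟩

/-- the induction step -/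
theorem step {Γ : Par M T} {γ : T} {X : TN M T} (hX : TreeN Γ X)
    {q : List ℕ → Option (Cond M T × ℕ)}
    (hw : ∀ l e c w c' w', q l = some (c, w) → q (l ++ [e]) = some (c', w') → w' = w + e + 2)
    (hd : ∀ l c w, q l = some (c, w) → ∀ z, le Γ univ z c →
      ∃ e c' w', q (l ++ [e]) = some (c', w') ∧ Cmp (le Γ univ) z c')
    (h2 : ∀ l c w, q l = some (c, w) → ∀ (N : ℕ) r, le Γ (Iio γ) r c → ∃ r', le Γ (Iio γ) r' r ∧
      ∃ (n : ℕ) (L : Finset (List Bool)), N * L.card ≤ 2 ^ n ∧ ∃ e0 : ℕ, ∀ e, e0 ≤ e →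
        ∀ c' w', q (l ++ [e]) = some (c', w') → ∀ z, le Γ univ z c' → le Γ (Iio γ) z r' →
          ∀ u : List Bool, u.length = n → u ∉ L → Out Γ (X u) z) {k : ℕ}
    (hC : Claim Γ γ X q k) : Claim Γ γ X q (k + 1) := by
  intro l c w hq δ hδ r hr
  obtain ⟨N, hN⟩ := exists_nat_ge (2 / δ)
  have hN0 : (0 : ℝ) < N := lt_of_lt_of_le (by positivity) hN
  obtain ⟨r1, hr1, n0, L0, hL0, e0, he0⟩ := h2 l c w hq N r hr
  have hL0' : (L0.card : ℝ) ≤ (δ / 2) * 2 ^ n0 := by
    have g1 : (N : ℝ) * L0.card ≤ 2 ^ n0 := by exact_mod_cast hL0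
    have g2 : 2 / δ * (L0.card : ℝ) ≤ 2 ^ n0 :=
      (mul_le_mul_of_nonneg_right hN (Nat.cast_nonneg _)).trans g1
    have g3 : (L0.card : ℝ) = δ / 2 * (2 / δ * L0.card) := by
      field_simp
    rw [g3]
    exact mul_le_mul_of_nonneg_left g2 (by positivity)
  obtain ⟨r', hr', n, L, hL⟩ := many (c := c) hC (fun e c' w' h => hw l e c w c' w' hq h) hδ r1 e0
  obtain ⟨m, hm0, hm⟩ : ∃ m : ℕ, n0 ≤ m ∧ ∀ e < e0, n e ≤ m :=
    ⟨max n0 ((Finset.range e0).sup n), le_max_left _ _, fun e he =>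
      (Finset.le_sup (f := n) (Finset.mem_range.2 he)).trans (le_max_right _ _)⟩
  refine ⟨r', le_trans' (low_iio γ) hr' hr1, m,
    Ex m n0 L0 ∪ (Finset.range e0).biUnion (fun e => Ex m (n e) (L e)), ?_, ?_⟩
  · have g1 : ((Ex m n0 L0 ∪ (Finset.range e0).biUnion (fun e => Ex m (n e) (L e))).card : ℝ) ≤
        (Ex m n0 L0).card + ∑ e ∈ Finset.range e0, ((Ex m (n e) (L e)).card : ℝ) := by
      have g2 := Finset.card_union_le (Ex m n0 L0)
        ((Finset.range e0).biUnion (fun e => Ex m (n e) (L e)))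
      have g3 := Finset.card_biUnion_le (s := Finset.range e0) (t := fun e => Ex m (n e) (L e))
      exact_mod_cast g2.trans (Nat.add_le_add_left g3 _)
    have g4 := card_Ex' hm0 L0 hL0'
    have g5 : ∑ e ∈ Finset.range e0, ((Ex m (n e) (L e)).card : ℝ) ≤
        (δ + (1 / 2) ^ w * (1 / 2) ^ k) * (1 / 2) * 2 ^ m := by
      calc ∑ e ∈ Finset.range e0, ((Ex m (n e) (L e)).card : ℝ)
          ≤ ∑ e ∈ Finset.range e0,
              ((δ + (1 / 2) ^ w * (1 / 2) ^ k) * (1 / 2) ^ (e + 2)) * 2 ^ m :=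
            Finset.sum_le_sum fun e he => card_Ex' (hm e (Finset.mem_range.1 he)) (L e)
              (hL e (Finset.mem_range.1 he)).1
        _ = (δ + (1 / 2) ^ w * (1 / 2) ^ k) * 2 ^ m *
            ∑ e ∈ Finset.range e0, ((1 : ℝ) / 2) ^ (e + 2) := by
            rw [Finset.mul_sum]
            refine Finset.sum_congr rfl fun e _ => ?_
            ring
        _ ≤ (δ + (1 / 2) ^ w * (1 / 2) ^ k) * 2 ^ m * (1 / 2) :=
            mul_le_mul_of_nonneg_left (sum_half e0) (by positivity)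
        _ = _ := by ring
    have g6 : (δ + (1 / 2) ^ w * (1 / 2) ^ (k + 1)) * (2 : ℝ) ^ m =
        δ / 2 * 2 ^ m + (δ + (1 / 2) ^ w * (1 / 2) ^ k) * (1 / 2) * 2 ^ m := by
      rw [pow_succ (1 / 2 : ℝ) k]
      ring
    rw [g6]
    linarith
  · intro u hu hnu
    rw [Finset.mem_union, Finset.mem_biUnion, not_or] at hnu
    obtain ⟨hn1, hn2⟩ := hnu
    have huS : u ∈ SL m := (mem_SL m u).2 hu
    rintro s hs ⟨z, hz1, hz2⟩
    have hr'c : le Γ (Iio γ) r' c :=
      le_trans' (low_iio γ) hr' (le_trans' (low_iio γ) hr1 hr)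
    have hzc : le Γ univ z c := le_trans' low_univ hz1 (mix_le (low_iio γ) hr'c)
    have hzr : le Γ (Iio γ) z r' :=
      le_trans' (low_iio γ) (le_mono (subset_univ _) hz1) (mix_eq (low_iio γ) r' c)
    obtain ⟨e, c', w', hq', z', hz'1, hz'2⟩ := hd l c w hq z hzc
    have hz'r : le Γ (Iio γ) z' r' :=
      le_trans' (low_iio γ) (le_mono (subset_univ _) hz'1) hzr
    have hz's : Cmp (le Γ univ) z' s := ⟨z', le_refl' _ z', le_trans' low_univ hz'1 hz2⟩
    rcases lt_or_ge e e0 with he | he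
    · have g1 : u.take (n e) ∉ L e := by
        intro hmem
        exact hn2 ⟨e, Finset.mem_range.2 he, Finset.mem_filter.2 ⟨huS, hmem⟩⟩
      have g2 : (u.take (n e)).length = n e := by
        rw [List.length_take, hu]
        exact min_eq_left (hm e he)
      have g3 := (hL e he).2 c' w' hq' z' hz'2 hz'r _ g2 g1
      exact hX u _ (List.take_prefix _ _) z' g3 s hs hz's
    · have g1 : u.take n0 ∉ L0 := by
        intro hmem
        exact hn1 (Finset.mem_filter.2 ⟨huS, hmem⟩)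
      have g2 : (u.take n0).length = n0 := by
        rw [List.length_take, hu]
        exact min_eq_left hm0
      have g3 := he0 e he c' w' hq' z' hz'2 (le_trans' (low_iio γ) hz'r hr') _ g2 g1
      exact hX u _ (List.take_prefix _ _) z' g3 s hs hz's

end forcing

/-- **NT** -/
theorem th_NT : S_NT := by
  intro M T _ _ Γ γ X hX q c0 w0 hq0 hw hd h1 h2
  have hC : ∀ k, Claim Γ γ X q k := by
    intro k
    induction k with
    | zero =>
      intro l c w hq δ hδ r hr
      obtain ⟨r', hr', n, L, hL, hO⟩ := h1 l c w hq r hr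
      refine ⟨r', hr', n, L, ?_, hO⟩
      have g1 : (2 : ℝ) ^ w * L.card ≤ 2 ^ n := by exact_mod_cast hL
      have g2 : (L.card : ℝ) = (1 / 2) ^ w * (2 ^ w * L.card) := by
        rw [← mul_assoc, ← mul_pow]
        norm_num
      rw [g2, pow_zero, mul_one]
      refine (mul_le_mul_of_nonneg_left g1 (by positivity)).trans ?_
      have g3 : 0 ≤ δ * (2 : ℝ) ^ n := by positivity
      rw [add_mul]
      linarith
    | succ k ih => exact step hX hw hd h2 ih
  intro N r hr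
  obtain ⟨r', hr', n, L, hL, hO⟩ := hC (N + 2) [] c0 w0 hq0 (1 / (2 * ((N : ℝ) + 1))) (by positivity)
    r hr
  refine ⟨r', hr', n, L, ?_, hO⟩
  have hN1 : (0 : ℝ) < (N : ℝ) + 1 := by positivity
  have g1 : ((1 : ℝ) / 2) ^ w0 * (1 / 2) ^ (N + 2) ≤ 1 / (2 * ((N : ℝ) + 1)) := by
    have g2 : ((1 : ℝ) / 2) ^ w0 ≤ 1 := pow_le_one₀ (by norm_num) (by norm_num)
    have g3 : 2 * ((N : ℝ) + 1) ≤ 2 ^ (N + 2) := by
      have g4 : N + 1 < 2 ^ (N + 1) := Nat.lt_two_pow_self
      have g5 : ((N : ℝ) + 1) ≤ 2 ^ (N + 1) := by exact_mod_cast g4.le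
      rw [pow_succ]
      linarith
    have g6 : ((1 : ℝ) / 2) ^ (N + 2) ≤ 1 / (2 * ((N : ℝ) + 1)) := by
      rw [one_div_pow]
      exact one_div_le_one_div_of_le (by positivity) g3
    calc ((1 : ℝ) / 2) ^ w0 * (1 / 2) ^ (N + 2) ≤ 1 * (1 / 2) ^ (N + 2) :=
          mul_le_mul_of_nonneg_right g2 (by positivity)
      _ ≤ _ := by rw [one_mul]; exact g6
  have g7 : (L.card : ℝ) ≤ 1 / ((N : ℝ) + 1) * 2 ^ n := by
    refine hL.trans (mul_le_mul_of_nonneg_right ?_ (by positivity))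
    have g8 : 1 / (2 * ((N : ℝ) + 1)) + 1 / (2 * ((N : ℝ) + 1)) = 1 / ((N : ℝ) + 1) := by
      field_simp
      norm_num
    linarith
  have g9 : ((N : ℝ) + 1) * L.card ≤ 2 ^ n := by
    have g10 := mul_le_mul_of_nonneg_left g7 hN1.le
    rw [← mul_assoc, mul_one_div_cancel hN1.ne', one_mul] at g10
    exact g10
  have g11 : ((N * L.card : ℕ) : ℝ) ≤ ((2 ^ n : ℕ) : ℝ) := by
    push_cast
    have : (0 : ℝ) ≤ L.card := Nat.cast_nonneg _
    linarith
  exact_mod_cast g11

end Pool.Agent.H631.THD.NT
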