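import Pool.Agent.H631.TH.ZStm

/-!
# Countably perfectly null sets are countably perfectly meager
-/

set_option autoImplicit false

namespace Pool.Agent.H631.THD.PNPM

open MeasureTheory Set Filter Topology Pool.Agent.H631.TH
open scoped ENNReal

theorem unc : ¬ Countable (ℕ → Bool) := by
  intro h
  obtain ⟨g, hg⟩ := exists_surjective_nat (ℕ → Bool)
  obtain ⟨n, hn⟩ := hg (fun n => !(g n n))
  have h1 := congrFun hn n
  simp at h1

theorem exists_coin : ∃ ν : Measure (ℕ → Bool), IsFiniteMeasure ν ∧ (∀ x, ν {x} = 0) ∧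
    ν univ = 1 := by
  have hR : ¬ Countable ℝ := by
    intro h
    exact Cardinal.not_countable_real (Set.countable_univ_iff.2 h)
  let e : ℝ ≃ᵐ (ℕ → Bool) := PolishSpace.measurableEquivOfNotCountable hR unc
  refine ⟨(volume.restrict (Icc (0 : ℝ) 1)).map e, ?_, ?_, ?_⟩
  · infer_instance
  · intro x
    rw [Measure.map_apply e.measurable (measurableSet_singleton x)]
    have h1 : e ⁻¹' {x} = {e.symm x} := by
      ext y
      simp only [mem_preimage, mem_singleton_iff]
      constructor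
      · intro h
        rw [← h, MeasurableEquiv.symm_apply_apply]
      · intro h
        rw [h, MeasurableEquiv.apply_symm_apply]
    rw [h1]
    exact le_antisymm ((Measure.restrict_apply_le _ _).trans (by simp)) bot_le
  · rw [Measure.map_apply e.measurable MeasurableSet.univ, preimage_univ,
      Measure.restrict_apply_univ, Real.volume_Icc]
    norm_num

variable {X : Type} [TopologicalSpace X] [PolishSpace X]

theorem exists_cantor {P : Set X} (hP : Perfect P) {V : Set X} (hV : IsOpen V)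
    (hne : (V ∩ P).Nonempty) :
    ∃ f : (ℕ → Bool) → X, range f ⊆ V ∩ P ∧ Continuous f ∧ Function.Injective f := by
  let _ := TopologicalSpace.upgradeIsCompletelyMetrizable X
  obtain ⟨x, hxV, hxP⟩ := hne
  obtain ⟨W, hWo, hxW, hWV⟩ : ∃ W : Set X, IsOpen W ∧ x ∈ W ∧ closure W ⊆ V := by
    obtain ⟨t, h1, h2, h3⟩ := exists_mem_nhds_isClosed_subset (hV.mem_nhds hxV)
    exact ⟨interior t, isOpen_interior, mem_interior_iff_mem_nhds.2 h1,
      (closure_minimal interior_subset h2).trans h3⟩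
  obtain ⟨h1, h2⟩ := hP.closure_nhds_inter x hxP hxW hWo
  obtain ⟨f, hf1, hf2, hf3⟩ := h1.exists_nat_bool_injection h2
  refine ⟨f, hf1.trans ?_, hf2, hf3⟩
  apply subset_inter
  · exact (closure_mono inter_subset_left).trans hWV
  · exact (closure_mono inter_subset_right).trans hP.closed.closure_subset

variable [MeasurableSpace X] [BorelSpace X]

theorem exists_piece {P : Set X} (hP : Perfect P) {V : Set X} (hV : IsOpen V) :
    ∃ ρ : Measure X, ρ univ ≤ 1 ∧ (∀ x, ρ {x} = 0) ∧ ((V ∩ P).Nonempty → ρ (V ∩ P) = 1) := by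
  by_cases hne : (V ∩ P).Nonempty
  · obtain ⟨f, hf1, hf2, hf3⟩ := exists_cantor hP hV hne
    obtain ⟨ν, hν1, hν2, hν3⟩ := exists_coin
    have hfm : Measurable f := hf2.measurable
    refine ⟨ν.map f, ?_, ?_, fun _ => ?_⟩
    · rw [Measure.map_apply hfm MeasurableSet.univ, preimage_univ, hν3]
    · intro x
      rw [Measure.map_apply hfm (measurableSet_singleton x)]
      have h1 : (f ⁻¹' {x}).Subsingleton := by
        intro a ha b hb
        exact hf3 ((mem_singleton_iff.1 ha).trans (mem_singleton_iff.1 hb).symm)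
      rcases h1.eq_empty_or_singleton with h2 | ⟨a, h2⟩
      · rw [h2, measure_empty]
      · rw [h2, hν2]
    · rw [Measure.map_apply hfm (hV.measurableSet.inter hP.closed.measurableSet)]
      have h1 : f ⁻¹' (V ∩ P) = univ := by
        ext y
        simp only [mem_preimage, mem_univ, iff_true]
        exact hf1 (mem_range_self y)
      rw [h1, hν3]
  · exact ⟨0, by simp, by simp, fun h => absurd h hne⟩

theorem exists_measure (P : ℕ → Set X) (hP : ∀ n, Perfect (P n)) :
    ∃ μ : Measure X, IsFiniteMeasure μ ∧ (∀ x, μ {x} = 0) ∧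
      ∀ n, ∀ U : Set X, IsOpen U → (U ∩ P n).Nonempty → μ (U ∩ P n) ≠ 0 := by
  have hbas := TopologicalSpace.isBasis_countableBasis X
  have hcount : Countable (TopologicalSpace.countableBasis X) :=
    (TopologicalSpace.countable_countableBasis X).to_subtype
  have hopen : ∀ V : TopologicalSpace.countableBasis X, IsOpen (V : Set X) := fun V =>
    hbas.isOpen V.2
  choose ρ hρ1 hρ2 hρ3 using fun i : ℕ × TopologicalSpace.countableBasis X =>
    exists_piece (hP i.1) (hopen i.2)
  obtain ⟨w, hw0, hw1⟩ := ENNReal.exists_pos_sum_of_countable' (one_ne_zero : (1 : ℝ≥0∞) ≠ 0)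
    (ℕ × TopologicalSpace.countableBasis X)
  refine ⟨Measure.sum fun i => w i • ρ i, ⟨?_⟩, ?_, ?_⟩
  · rw [Measure.sum_apply _ MeasurableSet.univ]
    have h1 : ∑' i, (w i • ρ i) univ ≤ ∑' i, w i := by
      apply ENNReal.tsum_le_tsum
      intro i
      rw [Measure.smul_apply, smul_eq_mul]
      calc w i * ρ i univ ≤ w i * 1 := mul_le_mul' le_rfl (hρ1 i)
        _ = w i := mul_one _
    exact h1.trans_lt (hw1.trans ENNReal.one_lt_top)
  · intro x
    rw [Measure.sum_apply _ (measurableSet_singleton x), ENNReal.tsum_eq_zero]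
    intro i
    rw [Measure.smul_apply, hρ2, smul_zero]
  · rintro n U hU ⟨x, hxU, hxP⟩ h0
    obtain ⟨V, hV, hxV, hVU⟩ := hbas.exists_subset_of_mem_open hxU hU
    have h1 : (Measure.sum fun i => w i • ρ i) (V ∩ P n) = 0 :=
      measure_mono_null (inter_subset_inter_left _ hVU) h0
    rw [Measure.sum_apply_eq_zero' (((hopen ⟨V, hV⟩).measurableSet).inter
      (hP n).closed.measurableSet)] at h1
    have h2 := h1 (n, ⟨V, hV⟩)
    rw [Measure.smul_apply, hρ3 (n, ⟨V, hV⟩) ⟨x, hxV, hxP⟩, smul_eq_mul, mul_one] at h2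
    exact (hw0 _).ne' h2

theorem th_PNPM : S_PNPM := by
  intro X _ _ _ _ A hA P hP
  obtain ⟨μ, hμ1, hμ2, hμ3⟩ := exists_measure P (fun n => (hP n).2)
  obtain ⟨F, ⟨C, hC, rfl⟩, hAF, hF⟩ := hA μ hμ1 hμ2
  refine ⟨⋃ n, C n, ⟨C, hC, rfl⟩, hAF, fun n => ?_⟩
  have h1 : {z : P n | (z : X) ∈ ⋃ k, C k} = ⋃ k, {z : P n | (z : X) ∈ C k} := by
    ext z
    simp
  rw [h1]
  apply isMeagre_iUnion
  intro k
  have hcl : IsClosed {z : P n | (z : X) ∈ C k} := (hC k).preimage continuous_subtype_val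
  apply IsNowhereDense.isMeagre
  rw [hcl.isNowhereDense_iff]
  by_contra hne
  obtain ⟨z, hz⟩ := nonempty_iff_ne_empty.2 hne
  rw [mem_interior] at hz
  obtain ⟨O, hO1, hO2, hO3⟩ := hz
  obtain ⟨U, hU, rfl⟩ := isOpen_induced_iff.1 hO2
  apply hμ3 n U hU ⟨z, hO3, z.2⟩
  refine measure_mono_null ?_ hF
  intro y hy
  exact mem_iUnion.2 ⟨k, hO1 (show (⟨y, hy.2⟩ : P n) ∈ Subtype.val ⁻¹' U from hy.1)⟩

end Pool.Agent.H631.THD.PNPM
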