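import Pool.Agent.H631.TH.FStm

/-! # Countable predense sets (helper965 for project TH of helper631) -/

set_option autoImplicit false

namespace Pool.Agent.H631.THD.PRED

open Classical Set
open Pool.Agent.H631.TH

theorem th_PRED : S_PRED := by
  intro M T _ _ Γ hccc φ
  have : ∃ A, Maximal (fun A : Set (Cond M T) => A ⊆ φ ∧
      ∀ p ∈ A, ∀ q ∈ A, p ≠ q → ¬ ∃ r, le Γ Set.univ r p ∧ le Γ Set.univ r q) A := by
    apply zorn_subset {A : Set (Cond M T) | A ⊆ φ ∧
      ∀ p ∈ A, ∀ q ∈ A, p ≠ q → ¬ ∃ r, le Γ Set.univ r p ∧ le Γ Set.univ r q}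
    intro c hc hchain
    refine ⟨⋃₀ c, ⟨Set.sUnion_subset fun A hA => (hc hA).1, ?_⟩,
      fun s hs => Set.subset_sUnion_of_mem hs⟩
    rintro p ⟨A, hA, hpA⟩ q ⟨B, hB, hqB⟩ hne
    rcases hchain.total hA hB with h | h
    · exact (hc hB).2 p (h hpA) q hqB hne
    · exact (hc hA).2 p hpA q (h hqB) hne
  obtain ⟨A, ⟨h1, h2⟩, hmax⟩ := this
  have hcount : A.Countable := by
    by_contra hcon
    obtain ⟨p, hp, q, hq, hne, h⟩ := hccc A hcon
    exact h2 p hp q hq hne h
  have hdense : ∀ p ∈ φ, ∃ a ∈ A, ∃ r, le Γ Set.univ r p ∧ le Γ Set.univ r a := by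
    intro p hp
    by_contra hcon
    push Not at hcon
    have hpA : p ∉ A := fun h => hcon p h p (le_refl' Set.univ p) (le_refl' Set.univ p)
    apply hpA
    refine hmax (y := insert p A) ⟨Set.insert_subset hp h1, ?_⟩ (Set.subset_insert p A)
      (Set.mem_insert p A)
    rintro x (rfl | hx) y (rfl | hy) hne
    · exact absurd rfl hne
    · rintro ⟨r, hr1, hr2⟩
      exact hcon y hy r hr1 hr2
    · rintro ⟨r, hr1, hr2⟩
      exact hcon x hx r hr2 hr1
    · exact h2 x hx y hy hne
  haveI : Countable A := hcount.to_subtype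
  obtain ⟨c, hc⟩ := exists_injective_nat A
  have key : ∀ m u, (if h : ∃ u : A, c u = m then some ((Classical.choose h : A) : Cond M T)
      else none) = some u → ∃ hu : u ∈ A, c ⟨u, hu⟩ = m := by
    intro m u hu
    by_cases h : ∃ u : A, c u = m
    · rw [dif_pos h] at hu
      have h3 : ((Classical.choose h : A) : Cond M T) = u := Option.some_injective _ hu
      have h4 := Classical.choose_spec h
      subst h3
      exact ⟨(Classical.choose h).2, h4⟩
    · rw [dif_neg h] at hu
      exact absurd hu (by simp)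
  refine ⟨fun m => if h : ∃ u : A, c u = m then some ((Classical.choose h : A) : Cond M T)
      else none, ?_, ?_, ?_⟩
  · intro m u hu
    obtain ⟨hu', -⟩ := key m u hu
    exact h1 hu'
  · intro m m' u u' hmm hu hu'
    obtain ⟨ha, hca⟩ := key m u hu
    obtain ⟨ha', hca'⟩ := key m' u' hu'
    refine h2 u ha u' ha' ?_
    intro he
    subst he
    exact hmm (hca.symm.trans hca')
  · intro p hp
    obtain ⟨a, ha, hr⟩ := hdense p hp
    have h : ∃ u : A, c u = c ⟨a, ha⟩ := ⟨⟨a, ha⟩, rfl⟩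
    refine ⟨c ⟨a, ha⟩, a, ?_, hr⟩
    show (if h : ∃ u : A, c u = c ⟨a, ha⟩ then some ((Classical.choose h : A) : Cond M T)
      else none) = some a
    rw [dif_pos h]
    have h4 := hc (Classical.choose_spec h)
    rw [h4]

end Pool.Agent.H631.THD.PRED
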