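import Pool.Agent.H631.TH.ZStm

/-!
# REAL: a real valued function which codes a countable base
-/

set_option autoImplicit false

namespace Pool.Agent.H631.THD.REAL

open Pool.Agent.H631.TH MeasureTheory Set Filter Topology

/-- the first nonzero term of a rapidly decreasing series dominates -/
theorem gap {d : ℕ → ℝ} (hd : ∀ n, |d n| ≤ ((1 : ℝ) / 3) ^ n) (k : ℕ) (h0 : ∀ i < k, d i = 0)
    (hk : |d k| = ((1 : ℝ) / 3) ^ k) : ((1 : ℝ) / 3) ^ k / 2 ≤ |∑' n, d n| := by
  have hg : Summable (fun n : ℕ => ((1 : ℝ) / 3) ^ n) :=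
    summable_geometric_of_lt_one (by norm_num) (by norm_num)
  have hs : Summable d := Summable.of_norm_bounded hg (fun n => by
    rw [Real.norm_eq_abs]
    exact hd n)
  have h1 := hs.sum_add_tsum_nat_add (k + 1)
  have h2 : ∑ i ∈ Finset.range (k + 1), d i = d k := by
    rw [Finset.sum_range_succ, Finset.sum_eq_zero (fun i hi => h0 i (Finset.mem_range.1 hi)),
      zero_add]
  have h3 : HasSum (fun i : ℕ => ((1 : ℝ) / 3) ^ (i + (k + 1))) (((1 : ℝ) / 3) ^ k / 2) := by
    have h4 := (hasSum_geometric_of_lt_one (r := (1 : ℝ) / 3) (by norm_num)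
      (by norm_num)).mul_left (((1 : ℝ) / 3) ^ (k + 1))
    have h5 : ((1 : ℝ) / 3) ^ (k + 1) * (1 - (1 : ℝ) / 3)⁻¹ = ((1 : ℝ) / 3) ^ k / 2 := by
      rw [pow_succ]
      norm_num
      ring
    rw [h5] at h4
    refine h4.congr_fun ?_
    intro i
    rw [pow_add]
    ring
  have h6 : ‖∑' i, d (i + (k + 1))‖ ≤ ((1 : ℝ) / 3) ^ k / 2 :=
    tsum_of_norm_bounded h3 (fun i => by
      rw [Real.norm_eq_abs]
      exact hd _)
  rw [Real.norm_eq_abs] at h6
  rw [← h1, h2]
  have h7 : |d k| ≤ |d k + ∑' i, d (i + (k + 1))| + |∑' i, d (i + (k + 1))| := by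
    have h8 := abs_sub (d k + ∑' i, d (i + (k + 1))) (∑' i, d (i + (k + 1)))
    rw [add_sub_cancel_right] at h8
    exact h8
  rw [hk] at h7
  linarith

/-- the terms of the series -/
noncomputable def t {X : Type} (B : ℕ → Set X) (n : ℕ) (x : X) : ℝ :=
  (B n).indicator (fun _ => ((1 : ℝ) / 3) ^ n) x

theorem t_mem {X : Type} {B : ℕ → Set X} {n : ℕ} {x : X} (hx : x ∈ B n) :
    t B n x = ((1 : ℝ) / 3) ^ n := by
  unfold t
  exact indicator_of_mem hx _

theorem t_not_mem {X : Type} {B : ℕ → Set X} {n : ℕ} {x : X} (hx : x ∉ B n) :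
    t B n x = 0 := by
  unfold t
  exact indicator_of_notMem hx _

theorem t_nonneg {X : Type} (B : ℕ → Set X) (n : ℕ) (x : X) : 0 ≤ t B n x := by
  by_cases hx : x ∈ B n
  · rw [t_mem hx]
    positivity
  · rw [t_not_mem hx]

theorem t_le {X : Type} (B : ℕ → Set X) (n : ℕ) (x : X) : t B n x ≤ ((1 : ℝ) / 3) ^ n := by
  by_cases hx : x ∈ B n
  · rw [t_mem hx]
  · rw [t_not_mem hx]
    positivity

theorem t_summable {X : Type} (B : ℕ → Set X) (x : X) : Summable (fun n => t B n x) :=
  Summable.of_nonneg_of_le (fun n => t_nonneg B n x) (fun n => t_le B n x)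
    (summable_geometric_of_lt_one (by norm_num) (by norm_num))

/-- the coding function -/
noncomputable def hfun {X : Type} (B : ℕ → Set X) (x : X) : ℝ := ∑' n, t B n x

theorem hfun_gap {X : Type} (B : ℕ → Set X) (x y : X) (n : ℕ)
    (hlt : |hfun B x - hfun B y| < ((1 : ℝ) / 3) ^ n / 2) (hx : x ∈ B n) : y ∈ B n := by
  classical
  by_contra hy
  have hex : ∃ k, ¬ (x ∈ B k ↔ y ∈ B k) := ⟨n, fun h => hy (h.1 hx)⟩
  have hk := Nat.find_spec hex
  have hmin : ∀ i < Nat.find hex, x ∈ B i ↔ y ∈ B i := fun i hi => by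
    have := Nat.find_min hex hi
    exact not_not.1 this
  have hkn : Nat.find hex ≤ n := Nat.find_min' hex (fun h => hy (h.1 hx))
  generalize Nat.find hex = k at hk hmin hkn
  have h1 : hfun B x - hfun B y = ∑' i, (t B i x - t B i y) :=
    ((t_summable B x).tsum_sub (t_summable B y)).symm
  have h2 : ((1 : ℝ) / 3) ^ k / 2 ≤ |∑' i, (t B i x - t B i y)| := by
    refine gap ?_ k ?_ ?_
    · intro i
      rw [abs_le]
      have a1 := t_nonneg B i x
      have a2 := t_nonneg B i y
      have a3 := t_le B i x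
      have a4 := t_le B i y
      constructor <;> linarith
    · intro i hi
      by_cases hxi : x ∈ B i
      · rw [t_mem hxi, t_mem ((hmin i hi).1 hxi), sub_self]
      · rw [t_not_mem hxi, t_not_mem (fun h => hxi ((hmin i hi).2 h)), sub_self]
    · have hpos : (0 : ℝ) < ((1 : ℝ) / 3) ^ k := by positivity
      by_cases hxk : x ∈ B k
      · have hyk : y ∉ B k := fun h => hk ⟨fun _ => h, fun _ => hxk⟩
        rw [t_mem hxk, t_not_mem hyk, sub_zero, abs_of_pos hpos]
      · have hyk : y ∈ B k := by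
          by_contra h
          exact hk ⟨fun h' => absurd h' hxk, fun h' => absurd h' h⟩
        rw [t_not_mem hxk, t_mem hyk, zero_sub, abs_neg, abs_of_pos hpos]
  rw [← h1] at h2
  have h3 : ((1 : ℝ) / 3) ^ n ≤ ((1 : ℝ) / 3) ^ k :=
    pow_le_pow_of_le_one (by norm_num) (by norm_num) hkn
  linarith

theorem th_REAL : S_REAL := by
  intro X _ _ _ B hB hbase
  refine ⟨hfun B, ?_, ?_, ?_⟩
  · refine measurable_of_tendsto_metrizable (f := fun m x => ∑ n ∈ Finset.range m, t B n x) ?_ ?_
    · intro m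
      refine Finset.measurable_sum _ (fun n _ => ?_)
      exact measurable_const.indicator (hB n).measurableSet
    · rw [tendsto_pi_nhds]
      intro x
      exact (t_summable B x).hasSum.tendsto_sum_nat
  · refine continuousOn_tsum (u := fun n => ((1 : ℝ) / 3) ^ n) ?_
      (summable_geometric_of_lt_one (by norm_num) (by norm_num)) ?_
    · intro n x hx
      refine ContinuousAt.continuousWithinAt ?_
      have hx2 : x ∉ frontier (B n) := fun h => hx (mem_iUnion.2 ⟨n, h⟩)
      by_cases hxB : x ∈ B n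
      · have h1 : (fun _ : X => ((1 : ℝ) / 3) ^ n) =ᶠ[𝓝 x] t B n := by
          filter_upwards [(hB n).mem_nhds hxB] with y hy
          exact (t_mem hy).symm
        exact continuousAt_const.congr h1
      · have hxc : x ∈ (closure (B n))ᶜ := by
          intro h
          exact hx2 ((hB n).frontier_eq ▸ ⟨h, hxB⟩)
        have h1 : (fun _ : X => (0 : ℝ)) =ᶠ[𝓝 x] t B n := by
          filter_upwards [isClosed_closure.isOpen_compl.mem_nhds hxc] with y hy
          exact (t_not_mem (fun h => hy (subset_closure h))).symm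
        exact continuousAt_const.congr h1
    · intro n x _
      rw [Real.norm_eq_abs, abs_of_nonneg (t_nonneg B n x)]
      exact t_le B n x
  · intro S x hx
    rw [mem_closure_iff]
    intro U hU hxU
    obtain ⟨n, hxn, hnU⟩ := hbase x U hU hxU
    obtain ⟨b, ⟨s, hs, rfl⟩, hlt⟩ := Metric.mem_closure_iff.1 hx (((1 : ℝ) / 3) ^ n / 2)
      (by positivity)
    rw [Real.dist_eq] at hlt
    exact ⟨s, hnU (hfun_gap B x s n hlt hxn), hs⟩

end Pool.Agent.H631.THD.REAL
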