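import Pool.Agent.H631.TH.GStm

/-!
# The tree of the initial segments of a real
-/

set_option autoImplicit false
set_option linter.unusedSectionVars false
set_option linter.unusedVariables false

namespace Pool.Agent.H631.THD.RN

open Classical Set Pool.Agent.Helper669.Forcing Pool.Agent.H631.TH

section General

variable {P : Type} [Preorder P]

theorem reg_meets {N : Set P} {p : P} (h : ∀ q ≤ p, ∃ r ≤ q, r ∈ meets N) : p ∈ meets N := by
  intro q hq
  obtain ⟨r, hr, hm⟩ := h q hq
  obtain ⟨r', hr', s, hs, hle⟩ := hm r le_rfl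
  exact ⟨r', hr'.trans hr, s, hs, hle⟩

theorem reg_fnot {φ : Set P} (hφ : Down φ) {p : P} (h : ∀ q ≤ p, ∃ r ≤ q, r ∈ fnot φ) :
    p ∈ fnot φ := by
  intro q hq hqφ
  obtain ⟨r, hr, hm⟩ := h q hq
  exact hm r le_rfl (hφ q hqφ r hr)

theorem mem_InitN {u : List Bool} {a : ℕ → Set P} {q : P} :
    q ∈ InitN u a ↔ (∀ i : ℕ, u[i]? = some true → q ∈ meets (a i)) ∧
      (∀ i : ℕ, u[i]? = some false → q ∈ fnot (meets (a i))) := by
  unfold InitN
  rw [mem_fand, mem_fall, mem_fall]
  constructor
  · rintro ⟨h1, h2⟩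
    refine ⟨fun i hi => reg_meets fun r hr => ?_,
      fun i hi => reg_fnot (down_meets _) fun r hr => ?_⟩
    · obtain ⟨r', hr', h⟩ := mem_fimp.1 (h1 i) r hr (mem_fground.2 hi)
      exact ⟨r', hr', h⟩
    · obtain ⟨r', hr', h⟩ := mem_fimp.1 (h2 i) r hr (mem_fground.2 hi)
      exact ⟨r', hr', h⟩
  · rintro ⟨h1, h2⟩
    refine ⟨fun i => mem_fimp.2 fun r hr hi => ⟨r, le_rfl, ?_⟩,
      fun i => mem_fimp.2 fun r hr hi => ⟨r, le_rfl, ?_⟩⟩
    · exact down_meets _ _ (h1 i (mem_fground.1 hi)) _ hr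
    · exact down_fnot _ _ (h2 i (mem_fground.1 hi)) _ hr

theorem down_InitN (u : List Bool) (a : ℕ → Set P) : Down (InitN u a) :=
  down_fand (down_fall fun _ => down_fimp _ _) (down_fall fun _ => down_fimp _ _)

theorem reg_InitN {u : List Bool} {a : ℕ → Set P} {p : P}
    (h : ∀ q ≤ p, ∃ r ≤ q, r ∈ InitN u a) : p ∈ InitN u a := by
  rw [mem_InitN]
  refine ⟨fun i hi => reg_meets fun q hq => ?_,
    fun i hi => reg_fnot (down_meets _) fun q hq => ?_⟩
  · obtain ⟨r, hr, hm⟩ := h q hq
    exact ⟨r, hr, (mem_InitN.1 hm).1 i hi⟩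
  · obtain ⟨r, hr, hm⟩ := h q hq
    exact ⟨r, hr, (mem_InitN.1 hm).2 i hi⟩

theorem meets_InitN {u : List Bool} {a : ℕ → Set P} {p : P} :
    p ∈ meets (InitN u a) ↔ p ∈ InitN u a := by
  constructor
  · intro h
    apply reg_InitN
    intro q hq
    obtain ⟨r, hr, s, hs, hle⟩ := h q hq
    exact ⟨r, hr, down_InitN u a s hs r hle⟩
  · exact meets_of_mem

theorem InitN_sub {u v : List Bool} (h : v <+: u) (a : ℕ → Set P) : InitN u a ⊆ InitN v a := by
  have key : ∀ (i : ℕ) (b : Bool), v[i]? = some b → u[i]? = some b := by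
    intro i b hi
    obtain ⟨t, rfl⟩ := h
    have hlt : i < v.length := (List.getElem?_eq_some_iff.1 hi).1
    rw [List.getElem?_append_left hlt]
    exact hi
  intro q hq
  rw [mem_InitN] at hq ⊢
  exact ⟨fun i hi => hq.1 i (key i _ hi), fun i hi => hq.2 i (key i _ hi)⟩

theorem concat_cases {v : List Bool} {b c : Bool} {i : ℕ} (h : (v ++ [b])[i]? = some c) :
    v[i]? = some c ∨ (i = v.length ∧ b = c) := by
  rw [List.getElem?_append] at h
  by_cases hi : i < v.length
  · rw [if_pos hi] at h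
    exact Or.inl h
  · rw [if_neg hi] at h
    have h1 : i - v.length < [b].length := (List.getElem?_eq_some_iff.1 h).1
    have h2 : i = v.length := by
      have h3 : i - v.length < 1 := h1
      omega
    refine Or.inr ⟨h2, ?_⟩
    rw [h2, Nat.sub_self] at h
    exact Option.some_inj.1 h

theorem exists_ext (a : ℕ → Set P) (u : List Bool) (k : ℕ) : ∀ r ∈ InitN u a,
    ∃ r' ≤ r, ∃ v : List Bool, u <+: v ∧ v.length = u.length + k ∧ r' ∈ InitN v a := by
  induction k with
  | zero => exact fun r hr => ⟨r, le_rfl, u, List.prefix_refl u, rfl, hr⟩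
  | succ k ih =>
    intro r hr
    obtain ⟨r', hr', v, huv, hl, hv⟩ := ih r hr
    by_cases hm : ∃ r'' ≤ r', r'' ∈ meets (a v.length)
    · obtain ⟨r'', hr'', hm⟩ := hm
      refine ⟨r'', hr''.trans hr', v ++ [true], huv.trans (List.prefix_append v _), ?_, ?_⟩
      · rw [List.length_append, hl]
        rfl
      · have hv' := mem_InitN.1 (down_InitN v a r' hv r'' hr'')
        rw [mem_InitN]
        refine ⟨fun i hi => ?_, fun i hi => ?_⟩
        · rcases concat_cases hi with h | ⟨h, -⟩
          · exact hv'.1 i h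
          · rw [h]
            exact hm
        · rcases concat_cases hi with h | ⟨-, h⟩
          · exact hv'.2 i h
          · exact absurd h (by decide)
    · refine ⟨r', hr', v ++ [false], huv.trans (List.prefix_append v _), ?_, ?_⟩
      · rw [List.length_append, hl]
        rfl
      · have hv' := mem_InitN.1 hv
        rw [mem_InitN]
        refine ⟨fun i hi => ?_, fun i hi => ?_⟩
        · rcases concat_cases hi with h | ⟨-, h⟩
          · exact hv'.1 i h
          · exact absurd h (by decide)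
        · rcases concat_cases hi with h | ⟨h, -⟩
          · exact hv'.2 i h
          · rw [h]
            exact fun q hq hqm => hm ⟨q, hq, hqm⟩

end General

theorem th_RN : S_RN := by
  intro M T _ _ Γ a
  refine ⟨?_, ?_, ?_⟩
  · intro u v huv q hq s hs
    exact hq s (InitN_sub huv a hs)
  · intro u l q hl h s hs hc
    obtain ⟨r, hrq, hrs⟩ := hc
    have hr : (r : PP Γ) ∈ (InitN u a : Set (PP Γ)) := down_InitN u a s hs r hrs
    obtain ⟨r', hr', v, huv, hv, hm⟩ := exists_ext a u (l - u.length) r hr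
    exact h v huv (by omega) r' hm ⟨r', le_trans' low_univ hr' hrq, le_refl' univ r'⟩
  · intro u q
    have h1 := meets_InitN (P := PP Γ) (u := u) (a := a) (p := q)
    have h2 := mem_meets (Γ := Γ) (N := InitN u a) (p := q)
    exact h1.symm.trans h2

end Pool.Agent.H631.THD.RN
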