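import Pool.Agent.H631.TH.FStm

/-!
# The successor step of the dichotomy
-/

set_option autoImplicit false
set_option linter.unusedSectionVars false
set_option linter.unusedVariables false

namespace Pool.Agent.H631.THD.SUCC

open Classical Set
open Pool.Agent.H631.TH

section aux

variable {M T : Type} [LinearOrder T] [WellFoundedLT T] {Γ : Par M T}

theorem fol_mono {j : T} {z z' : Cond M T} {m : M} {t t3 : List ℕ} (h : Fol Γ j z m t t3)
    (hz : le Γ (Iio j) z' z) : Fol Γ j z' m t t3 :=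
  fun i hi hi' r hr n hn => h i hi hi' r (le_trans' (low_iio j) hr hz) n hn

theorem bd_mono {j : T} {w w' : Cond M T} {m : M} {t : List ℕ} {f : ℕ} (h : Bd Γ j w m t f)
    (hw : le Γ (Iio j) w' w) : Bd Γ j w' m t f :=
  fun r hr n hn => h r (le_trans' (low_iio j) hr hw) n hn

/-- case 1 -/
theorem case1 {γ j : T} (hγ : γ ≤ j) {X : TN M T} (hS : SupT (Iic j) X) {t : List ℕ} {f : ℕ}
    (hXt : ∀ u w, Out Γ (Xt Γ j X t f u) w ↔
      ∀ w', le Γ (Iio j) w' w → ∃ w'', le Γ (Iio j) w'' w' ∧ At Γ j X t f u w'')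
    {p w q0 : Cond M T} (h1 : le Γ (Iio j) w p) (h2 : (p j).stem <+: t)
    (h3 : ∀ m ∈ (p j).pr, Fol Γ j w m (p j).stem t) (h4 : ∀ m ∈ (p j).pr, Bd Γ j w m t f)
    (h5 : le Γ univ q0 w) {Y : TN M T} (h6 : Capt Γ γ (Xt Γ j X t f) Y q0) :
    ∃ q, le Γ univ q p ∧ Capt Γ γ X Y q := by
  set q : Cond M T := mix (Iio j) q0 (upd p j ⟨t, (p j).pr⟩) with hq
  have hqi : ∀ i, i < j → q i = q0 i := fun i hi => mix_mem _ _ hi
  have hqj : q j = ⟨t, (p j).pr⟩ := by
    rw [hq, mix_notMem _ _ (show j ∉ Iio j from fun h => lt_irrefl j h), upd_same]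
  have hq0w : le Γ (Iio j) q0 w := le_mono (subset_univ _) h5
  have hqw : le Γ (Iio j) q w :=
    le_congr (low_iio j) (fun i hi => (hqi i hi).symm) (fun _ _ => rfl) hq0w
  refine ⟨q, ?_, ?_⟩
  · intro i _
    rcases lt_trichotomy i j with hi | rfl | hi
    · exact le_trans' (low_iio j) hqw h1 i hi
    · rw [ext_iff_fol, hqj]
      exact ⟨h2, Finset.Subset.refl _, fun m hm => fol_mono (h3 m hm) hqw⟩
    · refine ext_of_eq ?_
      rw [hq, mix_notMem _ _ (show i ∉ Iio j from fun h => lt_asymm h hi),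
        upd_of_ne _ _ hi.ne']
  · intro r hr u hu
    have hIio : ∀ i ∈ Iio γ, i < j := fun i hi => lt_of_lt_of_le hi hγ
    refine h6 r (le_congr (low_iio γ) (fun _ _ => rfl) (fun i hi => hqi i (hIio i hi)) hr) u ?_
    rw [hXt]
    intro w' hw'
    have hr0 : le Γ (Iio γ) r q0 :=
      le_congr (low_iio γ) (fun _ _ => rfl) (fun i hi => hqi i (hIio i hi)) hr
    have hw'w : le Γ (Iio j) w' w :=
      le_trans' (low_iio j) (le_trans' (low_iio j) hw' (mix_le (low_iio γ) hr0)) hq0w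
    refine ⟨w', le_refl' _ _, (p j).pr, fun m hm => bd_mono (h4 m hm) hw'w, ?_⟩
    refine hu.mono' (low_iic j) (hS u) ?_
    intro i hi
    rcases lt_or_eq_of_le (show i ≤ j from hi) with hij | rfl
    · refine ext_congr i (fun l hl => ?_) ?_ ?_ (hw' i hij)
      · rw [upd_of_ne _ _ (hl.trans hij).ne]
      · rw [upd_of_ne _ _ hij.ne]
      · by_cases hg : i ∈ Iio γ
        · rw [mix_mem _ _ hg, mix_mem _ _ hg]
        · rw [mix_notMem _ _ hg, mix_notMem _ _ hg, hqi i hij]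
    · refine ext_of_eq ?_
      rw [upd_same, mix_notMem _ _ (show i ∉ Iio γ from fun h => absurd h (not_lt.2 hγ)), hqj]

/-- the condition of the root is stronger than `p` -/
theorem qn_le {j : T} {p : Cond M T} {mF : M} {π : Node M T} (h1 : le Γ (Iio j) π.w p)
    (h2 : π.t = (p j).stem) : le Γ univ (Qn j p mF π) p := by
  intro i _
  rcases lt_trichotomy i j with hi | rfl | hi
  · refine ext_congr i (fun l hl => ?_) ?_ rfl (h1 i hi)
    · exact (mix_mem _ _ (show l ∈ Iio j from hl.trans hi)).symm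
    · exact (mix_mem _ _ (show i ∈ Iio j from hi)).symm
  · have e : (Qn i p mF π) i = ⟨π.t, insert mF (p i).pr⟩ := by
      rw [Qn, mix_notMem _ _ (show i ∉ Iio i from fun h => lt_irrefl i h), upd_same]
    refine ext_same_stem ?_ ?_
    · rw [e, h2]
    · rw [e]
      exact Finset.subset_insert _ _
  · refine ext_of_eq ?_
    rw [Qn, mix_notMem _ _ (show i ∉ Iio j from fun h => lt_asymm h hi), upd_of_ne _ _ hi.ne']

end aux

theorem th_SUCC (hX : S_XT) (hDem : S_DEM) (hMD : S_MD) (hT : S_TREE) (hF : S_FN) (hN : S_ND)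
    (h1 : S_N1) (h2 : S_N2) (hNT : S_NT) : S_SUCC := by
  intro M T _ _ Γ hC hFull γ j hγ X hTX hS hd
  have hdd : ∀ (t : List ℕ) (f : ℕ), ∃ Y : ℕ → TN M T, (∀ n, SupT (Iio γ) (Y n)) ∧
      (∀ n, FatN Γ (Y n)) ∧ ∀ p, (∃ q, le Γ univ q p ∧ GNull Γ γ (Xt Γ j X t f) q) ∨
        ∃ q, le Γ univ q p ∧ ∃ n, Capt Γ γ (Xt Γ j X t f) (Y n) q := fun t f => by
    obtain ⟨a1, a2, -⟩ := hX M T Γ j X hTX hS t f
    exact hd _ a1 a2
  choose Y hY1 hY2 hY3 using hdd
  obtain ⟨e, he⟩ := exists_surjective_nat (List ℕ × ℕ × ℕ)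
  refine ⟨fun k => Y (e k).1 (e k).2.1 (e k).2.2, fun n => hY1 _ _ _, fun n => hY2 _ _ _,
    fun p => ?_⟩
  by_cases hc : ∀ w t f, le Γ (Iio j) w p → (p j).stem <+: t →
      (∀ m ∈ (p j).pr, Fol Γ j w m (p j).stem t) → (∀ m ∈ (p j).pr, Bd Γ j w m t f) →
      ∃ w', le Γ (Iio j) w' w ∧ GNull Γ γ (Xt Γ j X t f) w'
  · -- case 2
    left
    choose D hD1 hD2 using fun t f k => hDem M T Γ hC hFull j X hTX hS t f k
    have hR : ∀ π : Node M T, ∃ E : Finset M, (∀ m ∈ E, ∀ w, Bd Γ j w m π.t π.f) ∧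
        (GNull Γ γ (Xt Γ j X π.t π.f) π.w →
          ∀ r, le Γ (Iio γ) r π.w → ∃ r', le Γ (Iio γ) r' r ∧
            ∃ (n : ℕ) (L : Finset (List Bool)), 2 ^ π.wt * L.card ≤ 2 ^ n ∧
              ∀ u : List Bool, u.length = n → u ∉ L →
                Out Γ (X u) (upd (mix (Iio γ) r' π.w) j ⟨π.t, E⟩)) := by
      intro π
      by_cases hg : GNull Γ γ (Xt Γ j X π.t π.f) π.w
      · obtain ⟨m, hm1, hm2⟩ := hMD M T Γ hC hFull γ j hγ X hTX hS π.t π.f (2 ^ π.wt) π.w hg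
        refine ⟨{m}, fun m' hm' w => ?_, fun _ => hm2⟩
        rw [Finset.mem_singleton] at hm'
        rw [hm']
        exact hm1 w
      · exact ⟨∅, fun m' hm' => absurd hm' (Finset.notMem_empty _), fun h => absurd h hg⟩
    choose R hR1 hR2 using hR
    obtain ⟨nd, hnd⟩ := hT M T Γ hC γ j hγ X hTX hS p D R hD1 hc
    obtain ⟨mF, hmF⟩ := hF M T Γ hFull γ j X p D R nd hnd
    obtain ⟨π0, hπ0, ha, ht, hw⟩ := hnd.root
    have hinv0 := hnd.inv [] π0 hπ0
    refine ⟨Qn j p mF π0, qn_le hinv0.2.1 ht, ?_⟩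
    set q : List ℕ → Option (Cond M T × ℕ) :=
      fun l => (nd l).map (fun π => (Qn j p mF π, π.wt)) with hq
    have hq1 : ∀ l c w, q l = some (c, w) → ∃ π, nd l = some π ∧ c = Qn j p mF π ∧ w = π.wt := by
      intro l c w h
      rw [hq] at h
      simp only [Option.map_eq_some_iff] at h
      obtain ⟨π, h3, h4⟩ := h
      exact ⟨π, h3, (Prod.mk.inj h4).1.symm, (Prod.mk.inj h4).2.symm⟩
    have hq2 : ∀ l π, nd l = some π → q l = some (Qn j p mF π, π.wt) := by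
      intro l π h
      simp only [hq, h, Option.map_some]
    refine hNT M T Γ γ X hTX q (Qn j p mF π0) π0.wt (hq2 _ _ hπ0) ?_ ?_ ?_ ?_
    · intro l e c w c' w' h3 h4
      obtain ⟨π, h5, -, rfl⟩ := hq1 _ _ _ h3
      obtain ⟨π', h6, -, rfl⟩ := hq1 _ _ _ h4
      obtain ⟨π'', h7, h8⟩ := hnd.child l e π' h6
      rw [h5] at h7
      obtain rfl := Option.some_injective _ h7
      exact h8.2.2.2.2.1
    · intro l c w h3 z hz
      obtain ⟨π, h5, rfl, rfl⟩ := hq1 _ _ _ h3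
      obtain ⟨e, π', h6, h7⟩ := hN M T Γ γ j X p D R nd hnd mF hmF l π h5 z hz
      exact ⟨e, _, _, hq2 _ _ h6, h7⟩
    · intro l c w h3 r hr
      obtain ⟨π, h5, rfl, rfl⟩ := hq1 _ _ _ h3
      have hg : GNull Γ γ (Xt Γ j X π.t π.f) π.w := (hnd.inv l π h5).2.2.2.2.2.2
      exact h1 M T Γ γ j hγ X hS p D R nd hnd mF hmF l π h5 (hR1 π) (hR2 π hg) r hr
    · intro l c w h3 N r hr
      obtain ⟨π, h5, rfl, rfl⟩ := hq1 _ _ _ h3
      obtain ⟨r', h6, n, L, h7, e0, h8⟩ := h2 M T Γ γ j hγ X hS p D R nd hD1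
        (fun t f k w u hu ho => hD2 t f k w u hu ho) hnd mF hmF l π h5 N r hr
      refine ⟨r', h6, n, L, h7, e0, fun e he' c' w' h9 z hz hz' u hu huL => ?_⟩
      obtain ⟨π', h10, rfl, rfl⟩ := hq1 _ _ _ h9
      exact h8 e he' π' h10 z hz hz' u hu huL
  · -- case 1
    right
    push Not at hc
    obtain ⟨w, t, f, c1, c2, c3, c4, c5⟩ := hc
    rcases hY3 t f w with ⟨q0, a1, a2⟩ | ⟨q0, a1, n, a2⟩
    · exact absurd a2 (c5 q0 (le_mono (subset_univ _) a1))
    · obtain ⟨q, b1, b2⟩ := case1 hγ hS (hX M T Γ j X hTX hS t f).2.2 c1 c2 c3 c4 a1 a2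
      obtain ⟨k, hk⟩ := he (t, f, n)
      refine ⟨q, b1, k, ?_⟩
      simp only [hk]
      exact b2

end Pool.Agent.H631.THD.SUCC
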