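import Pool.Agent.H631.TH.ZStm

/-!
# The support of a non-atomic measure is perfect
-/

set_option autoImplicit false

namespace Pool.Agent.H631.THD.SUPP

open MeasureTheory Set Filter Topology Pool.Agent.H631.TH

/-- **SUPP.** The support of a nonzero finite non-atomic measure is perfect, and contained in every
closed set of full measure. -/
theorem th_SUPP : S_SUPP := by
  intro X _ _ _ _ ν _ hat hu
  have hν : ν ≠ 0 := by
    rintro rfl
    exact hu (by simp)
  refine ⟨ν.support, Measure.nonempty_support hν, ⟨Measure.isClosed_support, ?_⟩, ?_⟩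
  · rw [preperfect_iff_nhds]
    intro x hx U hU
    by_contra hcon
    have hpos : 0 < ν U := (Measure.mem_support_iff_forall x).1 hx U hU
    have hsub : U ⊆ {x} ∪ ν.supportᶜ := by
      intro y hy
      by_cases hyS : y ∈ ν.support
      · left
        by_contra hne
        exact hcon ⟨y, ⟨hy, hyS⟩, hne⟩
      · exact Or.inr hyS
    have h0 : ν U ≤ 0 := calc
      ν U ≤ ν ({x} ∪ ν.supportᶜ) := measure_mono hsub
      _ ≤ ν {x} + ν ν.supportᶜ := measure_union_le _ _
      _ = 0 := by rw [hat x, Measure.measure_compl_support, add_zero]
    exact absurd hpos (not_lt.2 h0)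
  · intro C hC h0
    exact Measure.support_subset_of_isClosed hC h0

end Pool.Agent.H631.THD.SUPP
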