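import Pool.Agent.H631.TH.GStm

/-!
TH-TF (MP_40b13d_lc, helper405 for helper631): the trees named by two generic functions are null.
-/

set_option autoImplicit false
set_option linter.unusedSectionVars false
set_option linter.unusedVariables false

namespace Pool.Agent.H631.THD.TF

open Classical Set Pool.Agent.H631.TH

theorem blk_lt (s : List ℕ) (k : ℕ) : blk s k < blk s (k + 1) := by
  show blk s k < blk s k + 1 + s.getD (blk s k) 0
  omega

theorem le_blk (s : List ℕ) (k : ℕ) : k ≤ blk s k := by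
  induction k with
  | zero => exact Nat.zero_le _
  | succ k ih => exact lt_of_le_of_lt ih (blk_lt s k)

theorem blk_mono (s : List ℕ) : Monotone (blk s) :=
  monotone_nat_of_le_succ fun k => (blk_lt s k).le

theorem blk_prefix {s s' : List ℕ} (h : s <+: s') {k : ℕ} (hk : blk s k < s.length) :
    ∀ i, i ≤ k + 1 → blk s' i = blk s i := by
  intro i
  induction i with
  | zero =>
    intro _
    rfl
  | succ i ih =>
    intro hi
    have h1 := ih (by omega)
    have h2 : blk s i < s.length := lt_of_le_of_lt (blk_mono s (by omega)) hk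
    show blk s' i + 1 + s'.getD (blk s' i) 0 = blk s i + 1 + s.getD (blk s i) 0
    rw [h1, getD_prefix h h2]

/-- all lists of length `m` -/
noncomputable def allL (m : ℕ) : Finset (List Bool) :=
  Finset.univ.image fun f : Fin m → Bool => List.ofFn f

theorem card_allL (m : ℕ) : (allL m).card ≤ 2 ^ m := by
  refine Finset.card_image_le.trans ?_
  simp

theorem mem_allL {m : ℕ} {w : List Bool} (h : w.length = m) : w ∈ allL m := by
  subst h
  exact Finset.mem_image.2 ⟨fun i => w.get i, Finset.mem_univ _, List.ofFn_get w⟩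

theorem Lc_spec (n c : ℕ) :
    ∃ l : ℕ, (∀ v ∈ Lc n c, v.length = l) ∧ 2 ^ n * (Lc n c).card ≤ 2 ^ l := by
  unfold Lc
  split
  · split_ifs with h
    · exact h
    · exact ⟨0, by simp, by simp⟩
  · exact ⟨0, by simp, by simp⟩

/-- the sequences of length `n` with an initial segment in `Lc i c` -/
noncomputable def cov (n i c : ℕ) : Finset (List Bool) :=
  (Lc i c).biUnion fun v => (allL (n - v.length)).image fun w => v ++ w

theorem card_cov (n i c : ℕ) (hn : ∀ v ∈ Lc i c, v.length ≤ n) :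
    2 ^ i * (cov n i c).card ≤ 2 ^ n := by
  obtain ⟨l, hl, hc⟩ := Lc_spec i c
  by_cases he : Lc i c = ∅
  · unfold cov
    rw [he]
    simp
  have hln : l ≤ n := by
    obtain ⟨v, hv⟩ := Finset.nonempty_iff_ne_empty.2 he
    rw [← hl v hv]
    exact hn v hv
  have h1 : (cov n i c).card ≤ (Lc i c).card * 2 ^ (n - l) := by
    refine Finset.card_biUnion_le_card_mul _ _ _ fun v hv => ?_
    rw [hl v hv]
    exact Finset.card_image_le.trans (card_allL _)
  calc 2 ^ i * (cov n i c).card ≤ 2 ^ i * ((Lc i c).card * 2 ^ (n - l)) :=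
        Nat.mul_le_mul_left _ h1
    _ = (2 ^ i * (Lc i c).card) * 2 ^ (n - l) := by ring
    _ ≤ 2 ^ l * 2 ^ (n - l) := Nat.mul_le_mul_right _ hc
    _ = 2 ^ n := by
      rw [← pow_add]
      congr 1
      omega

theorem mem_cov {n i c : ℕ} {u v : List Bool} (hu : u.length = n) (hv : v ∈ Lc i c)
    (h : v <+: u) : u ∈ cov n i c := by
  obtain ⟨w, rfl⟩ := h
  refine Finset.mem_biUnion.2 ⟨v, hv, Finset.mem_image.2 ⟨w, mem_allL ?_, rfl⟩⟩
  rw [← hu, List.length_append]
  omega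

theorem sum_aux (f : ℕ → ℕ) (A b0 : ℕ) (d : ℕ) (h : ∀ i, i < d → 2 ^ (b0 + i) * f (b0 + i) ≤ A) :
    2 ^ d * (2 ^ b0 * ∑ i ∈ Finset.range d, f (b0 + i)) + 2 * A ≤ 2 ^ (d + 1) * A := by
  induction d with
  | zero => simp
  | succ d ih =>
    have h1 := ih fun i hi => h i (by omega)
    have h2 := h d (by omega)
    rw [Finset.sum_range_succ]
    have e1 : 2 ^ (d + 1) * (2 ^ b0 * (∑ i ∈ Finset.range d, f (b0 + i) + f (b0 + d))) =
        2 * (2 ^ d * (2 ^ b0 * ∑ i ∈ Finset.range d, f (b0 + i))) +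
          2 * (2 ^ (b0 + d) * f (b0 + d)) := by
      rw [pow_add 2 b0 d]
      ring
    have e2 : 2 ^ (d + 1 + 1) * A = 2 * (2 ^ (d + 1) * A) := by ring
    rw [e1, e2]
    omega

theorem sum_bound (f : ℕ → ℕ) (A b0 b1 : ℕ)
    (h : ∀ i, b0 ≤ i → i < b1 → 2 ^ i * f i ≤ A) :
    2 ^ b0 * ∑ i ∈ Finset.Ico b0 b1, f i ≤ 2 * A := by
  rw [Finset.sum_Ico_eq_sum_range]
  have h1 := sum_aux f A b0 (b1 - b0) fun i hi => h (b0 + i) (by omega) (by omega)
  have h2 : 2 ^ (b1 - b0) * (2 ^ b0 * ∑ i ∈ Finset.range (b1 - b0), f (b0 + i)) ≤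
      2 ^ (b1 - b0) * (2 * A) := by
    have e1 : 2 ^ (b1 - b0 + 1) * A = 2 ^ (b1 - b0) * (2 * A) := by ring
    rw [e1] at h1
    omega
  exact Nat.le_of_mul_le_mul_left h2 (by positivity)

/-- **TF.** The trees are null. -/
theorem th_TF (hE : S_EX) (hF : S_FB) : S_TF := by
  intro M T _ _ Γ t t' htt k0 N p
  have hB : ∀ k, ∃ q : Cond M T, le Γ univ q p ∧ blk (q t').stem k < (q t').stem.length := by
    intro k
    induction k with
    | zero =>
      obtain ⟨q, h1, h2, _⟩ := hE M T Γ t' p 1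
      exact ⟨q, h1, h2⟩
    | succ k ih =>
      obtain ⟨q, h1, h2⟩ := ih
      obtain ⟨q', h3, h4, _⟩ := hE M T Γ t' q (blk (q t').stem (k + 1) + 1)
      refine ⟨q', le_trans' low_univ h3 h1, ?_⟩
      rw [blk_prefix (ext_stem (h3 t' (mem_univ _))) h2 (k + 1) le_rfl]
      exact h4
  obtain ⟨q1, h1, h2⟩ := hB (k0 + 2 * N)
  obtain ⟨q, h3, h4, h5⟩ := hE M T Γ t q1 (blk (q1 t').stem (k0 + 2 * N + 1))
  have h6 : q t' = q1 t' := h5 t' htt
  rw [← h6] at h2 h4
  obtain ⟨b0, hb0⟩ : ∃ b, b = blk (q t').stem (k0 + 2 * N) := ⟨_, rfl⟩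
  obtain ⟨b1, hb1⟩ : ∃ b, b = blk (q t').stem (k0 + 2 * N + 1) := ⟨_, rfl⟩
  obtain ⟨c, hc⟩ : ∃ c : ℕ → ℕ, c = fun i => (q t).stem.getD i 0 := ⟨_, rfl⟩
  have hkb : k0 + 2 * N ≤ b0 := by
    rw [hb0]
    exact le_blk _ _
  obtain ⟨n, hn⟩ : ∃ n, n = ((Finset.Ico b0 b1).biUnion fun i => Lc i (c i)).sup List.length :=
    ⟨_, rfl⟩
  have hlen : ∀ i, b0 ≤ i → i < b1 → ∀ v ∈ Lc i (c i), v.length ≤ n := by
    intro i hi hi' v hv
    rw [hn]
    exact Finset.le_sup (f := List.length)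
      (Finset.mem_biUnion.2 ⟨i, Finset.mem_Ico.2 ⟨hi, hi'⟩, hv⟩)
  refine ⟨q, le_trans' low_univ h3 h1, n, (Finset.Ico b0 b1).biUnion fun i => cov n i (c i),
    ?_, ?_⟩
  · have hs := sum_bound (fun i => (cov n i (c i)).card) (2 ^ n) b0 b1
      fun i hi hi' => card_cov n i (c i) (hlen i hi hi')
    have hcard : ((Finset.Ico b0 b1).biUnion fun i => cov n i (c i)).card ≤
        ∑ i ∈ Finset.Ico b0 b1, (cov n i (c i)).card := Finset.card_biUnion_le
    have hN : 2 * N ≤ 2 ^ b0 := by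
      have e1 : 2 * N < 2 ^ (2 * N) := Nat.lt_two_pow_self
      have e2 : 2 ^ (2 * N) ≤ 2 ^ b0 := Nat.pow_le_pow_right (by norm_num) (by omega)
      omega
    have h7 : 2 * (N * ((Finset.Ico b0 b1).biUnion fun i => cov n i (c i)).card) ≤
        2 * 2 ^ n := by
      calc 2 * (N * ((Finset.Ico b0 b1).biUnion fun i => cov n i (c i)).card) =
            (2 * N) * ((Finset.Ico b0 b1).biUnion fun i => cov n i (c i)).card := by ring
        _ ≤ 2 ^ b0 * ∑ i ∈ Finset.Ico b0 b1, (cov n i (c i)).card :=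
            Nat.mul_le_mul hN hcard
        _ ≤ 2 * 2 ^ n := hs
    exact Nat.le_of_mul_le_mul_left h7 (by norm_num)
  · intro u hu huL
    obtain ⟨f1, f2⟩ := hF M T Γ t t' k0 u
    have hex : Excl t t' k0 u q := by
      refine ⟨k0 + 2 * N, by omega, h2, h4, ?_⟩
      intro i hi hi' v hv
      rw [← hb0] at hi
      rw [← hb1] at hi'
      have hv' : v ∈ Lc i (c i) := by
        rw [hc]
        exact hv
      have hnot : ¬ v <+: u := fun hvu => huL
        (Finset.mem_biUnion.2 ⟨i, Finset.mem_Ico.2 ⟨hi, hi'⟩, mem_cov hu hv' hvu⟩)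
      refine ⟨hnot, fun huv => hnot ?_⟩
      have h8 : u = v := huv.eq_of_length_le (by
        rw [hu]
        exact hlen i hi hi' v hv')
      rw [h8]
    exact (f2 q).2 fun r hr => ⟨r, le_refl' univ r, f1 q r hr hex⟩

end Pool.Agent.H631.THD.TF
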