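import Pool.Agent.H631.TH.ZStm

set_option autoImplicit false

namespace Pool.Agent.H631.THD.TRANS

open Pool.Agent.H631.TH
open MeasureTheory Set Filter Topology

/-- the basic clopen set of `u` -/
def cyl (u : List Bool) : Set (ℕ → Bool) := {f | ∀ i, ∀ hi : i < u.length, f i = u[i]}

/-- the set coded by a sequence -/
def gs (f : ℕ → Bool) : Set ℕ := {i | f i = true}

theorem init_iff (u : List Bool) (f : ℕ → Bool) : Init u (gs f) ↔ f ∈ cyl u := by
  constructor
  · rintro ⟨h1, h2⟩ i hi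
    have e : u[i]? = some u[i] := List.getElem?_eq_getElem hi
    cases hb : u[i] with
    | true =>
      rw [hb] at e
      exact h1 i e
    | false =>
      rw [hb] at e
      have h3 : ¬ (f i = true) := h2 i e
      simpa using h3
  · intro h
    constructor
    · intro i hi
      obtain ⟨hlt, he⟩ := List.getElem?_eq_some_iff.mp hi
      have := h i hlt
      rw [he] at this
      exact this
    · intro i hi hmem
      obtain ⟨hlt, he⟩ := List.getElem?_eq_some_iff.mp hi
      have h1 := h i hlt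
      rw [he] at h1
      have h2 : f i = true := hmem
      rw [h1] at h2
      exact Bool.false_ne_true h2

theorem isClosed_cyl (u : List Bool) : IsClosed (cyl u) := by
  have : cyl u = ⋂ i, ⋂ hi : i < u.length, {f : ℕ → Bool | f i = u[i]} := by
    ext f
    simp [cyl]
  rw [this]
  exact isClosed_iInter fun i => isClosed_iInter fun hi =>
    isClosed_eq (continuous_apply i) continuous_const

theorem isOpen_cyl (u : List Bool) : IsOpen (cyl u) := by
  have : cyl u = ⋂ i : Fin u.length, {f : ℕ → Bool | f i = u[i]} := by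
    ext f
    simp only [cyl, mem_ofPred_eq, mem_iInter]
    exact ⟨fun h i => h i i.2, fun h i hi => h ⟨i, hi⟩⟩
  rw [this]
  refine isOpen_iInter_of_finite fun i => ?_
  have h2 : {f : ℕ → Bool | f i = u[i]} = (fun f : ℕ → Bool => f i) ⁻¹' {u[i]} := rfl
  rw [h2]
  exact (isOpen_discrete _).preimage (continuous_apply (i : ℕ))

/-- the sequences all whose initial segments are in `S` -/
def br (S : Set (List Bool)) : Set (ℕ → Bool) := {f | ∀ u, f ∈ cyl u → u ∈ S}

theorem isClosed_br (S : Set (List Bool)) : IsClosed (br S) := by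
  have : br S = ⋂ u, {f : ℕ → Bool | f ∈ cyl u → u ∈ S} := by
    ext f
    simp [br]
  rw [this]
  refine isClosed_iInter fun u => ?_
  by_cases hu : u ∈ S
  · have : {f : ℕ → Bool | f ∈ cyl u → u ∈ S} = univ := by
      ext f; simp [hu]
    rw [this]
    exact isClosed_univ
  · have : {f : ℕ → Bool | f ∈ cyl u → u ∈ S} = (cyl u)ᶜ := by
      ext f; simp [hu]
    rw [this]
    exact (isOpen_cyl u).isClosed_compl

/-- the initial segment of length `k` -/
def seg (f : ℕ → Bool) (k : ℕ) : List Bool := List.ofFn (fun i : Fin k => f i)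

theorem seg_length (f : ℕ → Bool) (k : ℕ) : (seg f k).length = k := List.length_ofFn

theorem seg_getElem (f : ℕ → Bool) (k i : ℕ) (hi : i < (seg f k).length) :
    (seg f k)[i] = f i := by
  simp [seg]

theorem seg_mem (f : ℕ → Bool) (k : ℕ) : f ∈ cyl (seg f k) := by
  intro i hi
  rw [seg_getElem]

theorem eq_seg {f : ℕ → Bool} {u : List Bool} (h : f ∈ cyl u) : u = seg f u.length := by
  apply List.ext_getElem
  · rw [seg_length]
  · intro i h1 h2
    rw [seg_getElem]
    exact (h i h1).symm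

theorem seg_prefix (f : ℕ → Bool) {k l : ℕ} (h : k ≤ l) : seg f k <+: seg f l := by
  have h1 : f ∈ cyl ((seg f l).take k) := by
    intro i hi
    rw [List.length_take, seg_length] at hi
    rw [List.getElem_take]
    exact seg_mem f l i (by rw [seg_length]; omega)
  have h2 := eq_seg h1
  rw [List.length_take, seg_length, min_eq_left h] at h2
  rw [← h2]
  exact List.take_prefix _ _

section meas

variable {X : Type} [TopologicalSpace X] [MeasurableSpace X] [BorelSpace X]

/-- the points outside of `Zs` all whose initial segments are in `S` -/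
def RS (Zs : Set X) (G : X → ℕ → Bool) (S : Set (List Bool)) : Set X := {x | x ∉ Zs ∧ G x ∈ br S}

omit [MeasurableSpace X] [BorelSpace X] in
theorem RS_closed {Zs : Set X} {G : X → ℕ → Bool} (hG : ContinuousOn G Zsᶜ)
    (S : Set (List Bool)) : ∃ D, IsClosed D ∧ RS Zs G S = D ∩ Zsᶜ := by
  obtain ⟨D, hD, he⟩ := continuousOn_iff_isClosed.mp hG (br S) (isClosed_br S)
  refine ⟨D, hD, ?_⟩
  rw [← he]
  ext x
  exact ⟨fun h => ⟨h.2, h.1⟩, fun h => ⟨h.2, h.1⟩⟩

theorem RS_meas {Zs : Set X} {G : X → ℕ → Bool} (hZ : MeasurableSet Zs)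
    (hG : ContinuousOn G Zsᶜ) (S : Set (List Bool)) : MeasurableSet (RS Zs G S) := by
  obtain ⟨D, hD, he⟩ := RS_closed hG S
  rw [he]
  exact hD.measurableSet.inter hZ.compl

theorem cyl_meas {Zs : Set X} {G : X → ℕ → Bool} (hZ : MeasurableSet Zs)
    (hG : ContinuousOn G Zsᶜ) (u : List Bool) : MeasurableSet (G ⁻¹' cyl u \ Zs) := by
  obtain ⟨D, hD, he⟩ := continuousOn_iff_isClosed.mp hG (cyl u) (isClosed_cyl u)
  have h1 : G ⁻¹' cyl u \ Zs = G ⁻¹' cyl u ∩ Zsᶜ := sdiff_eq _ _
  rw [h1, he]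
  exact hD.measurableSet.inter hZ.compl

omit [TopologicalSpace X] [BorelSpace X] in
theorem null_of_thin {Zs : Set X} {G : X → ℕ → Bool} (μ : Measure X) [IsFiniteMeasure μ]
    (hm : ∀ u : List Bool, μ (G ⁻¹' cyl u \ Zs) = μ univ / 2 ^ u.length)
    {S : Set (List Bool)} (hS : Thin S) : μ (RS Zs G S) = 0 := by
  classical
  by_contra h
  obtain ⟨N, hN⟩ := ENNReal.exists_nat_mul_gt h (measure_ne_top μ univ)
  obtain ⟨n, L, hL, hLu⟩ := hS N
  have h1 : RS Zs G S ⊆ ⋃ u ∈ L.filter (fun u => u.length = n), (G ⁻¹' cyl u \ Zs) := by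
    intro x hx
    rw [mem_iUnion₂]
    refine ⟨seg (G x) n, ?_, seg_mem _ _, hx.1⟩
    rw [Finset.mem_filter]
    exact ⟨hLu _ (hx.2 _ (seg_mem _ _)) (seg_length _ _), seg_length _ _⟩
  have h2 : μ (RS Zs G S) ≤ L.card * (μ univ / 2 ^ n) := by
    calc μ (RS Zs G S) ≤ μ (⋃ u ∈ L.filter (fun u => u.length = n), (G ⁻¹' cyl u \ Zs)) :=
          measure_mono h1
      _ ≤ ∑ u ∈ L.filter (fun u => u.length = n), μ (G ⁻¹' cyl u \ Zs) :=
          measure_biUnion_finset_le _ _
      _ = ∑ u ∈ L.filter (fun u => u.length = n), μ univ / 2 ^ n := by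
          refine Finset.sum_congr rfl (fun u hu => ?_)
          rw [hm, (Finset.mem_filter.mp hu).2]
      _ = (L.filter (fun u => u.length = n)).card * (μ univ / 2 ^ n) := by
          rw [Finset.sum_const, nsmul_eq_mul]
      _ ≤ L.card * (μ univ / 2 ^ n) := by
          gcongr
          exact Finset.filter_subset _ _
  have h3 : (N : ENNReal) * μ (RS Zs G S) ≤ μ univ := by
    calc (N : ENNReal) * μ (RS Zs G S) ≤ N * (L.card * (μ univ / 2 ^ n)) := by gcongr
      _ = ((N * L.card : ℕ) : ENNReal) * (μ univ / 2 ^ n) := by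
          rw [Nat.cast_mul, mul_assoc]
      _ ≤ ((2 ^ n : ℕ) : ENNReal) * (μ univ / 2 ^ n) := by
          gcongr
      _ = μ univ := by
          rw [Nat.cast_pow, Nat.cast_ofNat]
          exact ENNReal.mul_div_cancel (pow_ne_zero _ (by norm_num))
            (ENNReal.pow_ne_top (by norm_num))
  exact absurd hN (not_lt.mpr h3)

theorem pos_of_fat {Zs : Set X} {G : X → ℕ → Bool} (μ : Measure X) [IsFiniteMeasure μ]
    (hZ : MeasurableSet Zs) (hG : ContinuousOn G Zsᶜ) (hμ : μ univ ≠ 0)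
    (hm : ∀ u : List Bool, μ (G ⁻¹' cyl u \ Zs) = μ univ / 2 ^ u.length)
    {P : Set (List Bool)} (hP : Fat P) : μ (RS Zs G P) ≠ 0 := by
  classical
  obtain ⟨hpre, c, hc⟩ := hP
  let R : ℕ → Set X := fun k => RS Zs G {u | u.length = k → u ∈ P}
  have hRi : ∀ k x, x ∈ R k ↔ x ∉ Zs ∧ seg (G x) k ∈ P := by
    intro k x
    constructor
    · rintro ⟨h1, h2⟩
      exact ⟨h1, h2 _ (seg_mem _ _) (seg_length _ _)⟩
    · rintro ⟨h1, h2⟩
      refine ⟨h1, fun u hu hk => ?_⟩
      rw [eq_seg hu, hk]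
      exact h2
  have hRP : RS Zs G P = ⋂ k, R k := by
    ext x
    rw [mem_iInter]
    constructor
    · intro h k
      exact (hRi k x).mpr ⟨h.1, h.2 _ (seg_mem _ _)⟩
    · intro h
      refine ⟨((hRi 0 x).mp (h 0)).1, fun u hu => ?_⟩
      rw [eq_seg hu]
      exact ((hRi _ x).mp (h u.length)).2
  have hanti : Antitone R := by
    intro k l hkl x hx
    have h1 := (hRi l x).mp hx
    exact (hRi k x).mpr ⟨h1.1, hpre _ _ (seg_prefix _ hkl) h1.2⟩
  have hlow : ∀ k, μ univ ≤ c * μ (R k) := by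
    intro k
    obtain ⟨L, hL, hLu⟩ := hc k
    have h1 : (⋃ u ∈ L, (G ⁻¹' cyl u \ Zs)) ⊆ R k := by
      intro x hx
      rw [mem_iUnion₂] at hx
      obtain ⟨u, hu, hx1, hx2⟩ := hx
      rw [hRi]
      refine ⟨hx2, ?_⟩
      have h2 := eq_seg hx1
      rw [(hLu u hu).1] at h2
      rw [← h2]
      exact (hLu u hu).2
    have h2 : μ (⋃ u ∈ L, (G ⁻¹' cyl u \ Zs)) = L.card * (μ univ / 2 ^ k) := by
      rw [measure_biUnion_finset]
      · rw [Finset.sum_congr rfl (fun u hu => by rw [hm u, (hLu u hu).1]), Finset.sum_const,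
          nsmul_eq_mul]
      · intro u hu v hv huv
        refine Set.disjoint_left.mpr (fun x hx hy => huv ?_)
        have e1 := eq_seg hx.1
        have e2 := eq_seg hy.1
        rw [(hLu u hu).1] at e1
        rw [(hLu v hv).1] at e2
        rw [e1, e2]
      · intro u _
        exact cyl_meas hZ hG u
    calc μ univ = ((2 ^ k : ℕ) : ENNReal) * (μ univ / 2 ^ k) := by
          rw [Nat.cast_pow, Nat.cast_ofNat]
          exact (ENNReal.mul_div_cancel (pow_ne_zero _ (by norm_num))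
            (ENNReal.pow_ne_top (by norm_num))).symm
      _ ≤ ((c * L.card : ℕ) : ENNReal) * (μ univ / 2 ^ k) := by gcongr
      _ = c * (L.card * (μ univ / 2 ^ k)) := by rw [Nat.cast_mul, mul_assoc]
      _ = c * μ (⋃ u ∈ L, (G ⁻¹' cyl u \ Zs)) := by rw [h2]
      _ ≤ c * μ (R k) := by
          gcongr
  have hlow2 : ∀ k, μ univ / c ≤ μ (R k) := fun k => ENNReal.div_le_of_le_mul' (hlow k)
  have hlim : Tendsto (μ ∘ R) atTop (𝓝 (μ (⋂ k, R k))) :=
    tendsto_measure_iInter_atTop (fun k => (RS_meas hZ hG _).nullMeasurableSet) hanti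
      ⟨0, measure_ne_top _ _⟩
  have h3 : μ univ / c ≤ μ (⋂ k, R k) := ge_of_tendsto' hlim hlow2
  rw [hRP]
  intro h0
  rw [h0] at h3
  have h4 : μ univ / c = 0 := le_antisymm h3 bot_le
  rw [ENNReal.div_eq_zero_iff] at h4
  rcases h4 with h4 | h4
  · exact hμ h4
  · exact ENNReal.natCast_ne_top c h4

end meas

theorem th_TRANS (hE : S_EMB) (hS : S_SUPP) : S_TRANS := by
  classical
  intro T hPhi X _ _ _ _ A hA μ hμ hatom
  by_contra hcon
  have hcon' : ∀ F : Set X, IsFSigma F → A ⊆ F → μ F ≠ 0 :=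
    fun F h1 h2 h3 => hcon ⟨F, h1, h2, h3⟩
  have hμu : μ univ ≠ 0 := hcon' univ
    ⟨fun _ => univ, fun _ => isClosed_univ, (iUnion_const _).symm⟩ (subset_univ _)
  obtain ⟨Z, G, hZc, hZ0, hGc, hGe, hGm⟩ := hE X μ hatom hμu
  obtain ⟨Zs, hZs⟩ : ∃ Zs, (⋃ n, Z n) = Zs := ⟨_, rfl⟩
  rw [hZs] at hGc hGe
  have hZm : MeasurableSet Zs := by
    rw [← hZs]
    exact MeasurableSet.iUnion fun n => (hZc n).measurableSet
  have hZs0 : μ Zs = 0 := by
    rw [← hZs]
    exact measure_iUnion_null hZ0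
  have hm : ∀ u : List Bool, μ (G ⁻¹' cyl u \ Zs) = μ univ / 2 ^ u.length := by
    intro u
    rw [← hZs]
    exact hGm u
  -- a point outside of the thin sets
  have step1 : ∀ F' : ℕ → Set (List Bool), (∀ k, Thin (F' k)) →
      ∃ x, x ∈ A ∧ x ∉ Zs ∧ ∀ k, ∃ u, Init u (gs (G x)) ∧ u ∉ F' k := by
    intro F' hF'
    by_contra h
    push Not at h
    choose D hD hDe using fun k => RS_closed hGc (F' k)
    apply hcon' (⋃ n, (Z n ∪ D n)) ⟨fun n => Z n ∪ D n, fun n => (hZc n).union (hD n), rfl⟩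
    · intro x hx
      by_cases hxZ : x ∈ Zs
      · rw [← hZs] at hxZ
        obtain ⟨n, hn⟩ := mem_iUnion.mp hxZ
        exact mem_iUnion.mpr ⟨n, Or.inl hn⟩
      · obtain ⟨k, hk⟩ := h x hx hxZ
        have h1 : x ∈ RS Zs G (F' k) := ⟨hxZ, fun u hu => hk u ((init_iff u _).mpr hu)⟩
        rw [hDe k] at h1
        exact mem_iUnion.mpr ⟨k, Or.inr h1.1⟩
    · apply measure_iUnion_null
      intro n
      have h0 := null_of_thin μ hm (hF' n)
      have h1 : D n ⊆ RS Zs G (F' n) ∪ Zs := by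
        intro x hx
        by_cases hxZ : x ∈ Zs
        · exact Or.inr hxZ
        · left
          rw [hDe n]
          exact ⟨hx, hxZ⟩
      exact measure_union_null (hZ0 n) (measure_mono_null h1 (measure_union_null h0 hZs0))
  -- the principle
  obtain ⟨F, hFt, hF⟩ := hPhi
  choose x hxA hxZ hxF using fun t => step1 (F t) (hFt t)
  obtain ⟨P, hPf, hP⟩ := hF (fun t => gs (G (x t))) (fun t k => hxF t k)
  -- the perfect sets
  have hpos : ∀ n, μ (RS Zs G (P n)) ≠ 0 := fun n => pos_of_fat μ hZm hGc hμu hm (hPf n)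
  have hQ : ∀ n, ∃ Q : Set X, Q.Nonempty ∧ Perfect Q ∧ ∀ C : Set X, IsClosed C →
      (μ.restrict (RS Zs G (P n))) Cᶜ = 0 → Q ⊆ C := by
    intro n
    apply hS X (μ.restrict (RS Zs G (P n)))
    · intro y
      exact le_antisymm ((Measure.restrict_apply_le _ _).trans (hatom y).le) bot_le
    · rw [Measure.restrict_apply_univ]
      exact hpos n
  choose Q hQn hQp hQC using hQ
  obtain ⟨F1, ⟨C1, hC1, rfl⟩, hAF, hmeag⟩ := hA Q (fun n => ⟨hQn n, hQp n⟩)
  obtain ⟨m, n, hmn⟩ := hP (fun m => {u | ∃ y, y ∈ C1 m ∧ y ∉ Zs ∧ G y ∈ cyl u}) (by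
    intro t
    obtain ⟨m, hm⟩ := mem_iUnion.mp (hAF (hxA t))
    exact ⟨m, fun u hu => ⟨x t, hm, hxZ t, (init_iff u _).mp hu⟩⟩)
  -- the closed set contains the branches
  have h5 : RS Zs G (P n) ⊆ C1 m := by
    rintro y ⟨hyZ, hyP⟩
    have h6 : ∀ k, ∃ z, z ∈ C1 m ∧ z ∉ Zs ∧ G z ∈ cyl (seg (G y) k) :=
      fun k => hmn _ (hyP _ (seg_mem _ _))
    choose z hz1 hz2 hz3 using h6
    have h7 : Tendsto (fun k => G (z k)) atTop (𝓝 (G y)) := by
      rw [tendsto_pi_nhds]
      intro i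
      apply tendsto_const_nhds.congr'
      filter_upwards [eventually_gt_atTop i] with k hk
      have h8 := hz3 k i (by rw [seg_length]; exact hk)
      rw [seg_getElem] at h8
      exact h8.symm
    have h8 : G y ∈ closure (G '' (C1 m \ Zs)) :=
      mem_closure_of_tendsto h7 (Eventually.of_forall fun k => ⟨z k, ⟨hz1 k, hz2 k⟩, rfl⟩)
    have h9 := hGe (C1 m \ Zs) (fun w hw => hw.2) y hyZ h8
    exact (hC1 m).closure_subset_iff.mpr (fun w hw => hw.1) h9
  have h10 : Q n ⊆ C1 m := by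
    apply hQC n (C1 m) (hC1 m)
    rw [Measure.restrict_apply (hC1 m).measurableSet.compl]
    have h11 : (C1 m)ᶜ ∩ RS Zs G (P n) = ∅ := by
      ext y
      simp only [mem_inter_iff, mem_compl_iff, mem_empty_iff_false, iff_false, not_and]
      intro h12 h13
      exact absurd (h5 h13) h12
    rw [h11, measure_empty]
  have h11 : {z : Q n | (z : X) ∈ ⋃ m, C1 m} = univ :=
    eq_univ_of_forall fun z => mem_iUnion.mpr ⟨m, h10 z.2⟩
  have h12 := hmeag n
  rw [h11] at h12
  have : PolishSpace (Q n) := (hQp n).closed.polishSpace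
  let _ := TopologicalSpace.upgradeIsCompletelyMetrizable (Q n)
  have : Nonempty (Q n) := (hQn n).to_subtype
  exact not_isMeagre_of_isOpen isOpen_univ univ_nonempty h12

end Pool.Agent.H631.THD.TRANS
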