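import Pool.Agent.H631.TH.FStm

/-!
# TREE: construction of the tree of nodes
-/

set_option autoImplicit false
set_option linter.unusedSectionVars false
set_option linter.unusedVariables false

namespace Pool.Agent.H631.THD.TREE

open Classical Set Pool.Agent.H631.TH

variable {M T : Type} [LinearOrder T] [WellFoundedLT T] {Γ : Par M T}

theorem le_univ_of {j : T} {q r : Cond M T} (hq : ∀ i ∉ Iio j, q i = CV.top)
    (h : le Γ (Iio j) r q) : le Γ univ r q := fun i _ => by
  by_cases hi : i ∈ Iio j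
  · exact h i hi
  · exact ext_top (hq i hi)

theorem Bd.mono {j : T} {w w' : Cond M T} {m : M} {t : List ℕ} {f f' : ℕ}
    (h : Bd Γ j w m t f) (hw : le Γ (Iio j) w' w) (hf : f ≤ f') : Bd Γ j w' m t f' :=
  fun r hr n hn => (h r (le_trans' (low_iio j) hr hw) n hn).trans hf

theorem Fol.mono {j : T} {w w' : Cond M T} {m : M} {t t3 : List ℕ}
    (h : Fol Γ j w m t t3) (hw : le Γ (Iio j) w' w) : Fol Γ j w' m t t3 :=
  fun i hi hi' r hr n hn => h i hi hi' r (le_trans' (low_iio j) hr hw) n hn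

theorem sup_Xt (j : T) (X : TN M T) (t : List ℕ) (f : ℕ) : SupT (Iio j) (Xt Γ j X t f) :=
  fun _ _ hs => hs.1

theorem GNull.congr {γ j : T} (hγ : γ ≤ j) {X : TN M T} (hX : SupT (Iio j) X) {p p' : Cond M T}
    (hpp : ∀ i ∈ Iio j, p i = p' i) (h : GNull Γ γ X p) : GNull Γ γ X p' := by
  intro N r hr
  have hsub : ∀ i ∈ Iio γ, i ∈ Iio j := fun i hi => lt_of_lt_of_le hi hγ
  have hr1 : le Γ (Iio γ) r p := le_congr (low_iio γ) (fun _ _ => rfl)
    (fun i hi => (hpp i (hsub i hi)).symm) hr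
  obtain ⟨r', hr', n, L, hL, hu⟩ := h N r hr1
  refine ⟨r', hr', n, L, hL, fun u h1 h2 => ?_⟩
  refine (Out.iff_of_eq (low_iio j) (hX u) fun i hi => ?_).1 (hu u h1 h2)
  by_cases hi' : i ∈ Iio γ
  · rw [mix_mem _ _ hi', mix_mem _ _ hi']
  · rw [mix_notMem _ _ hi', mix_notMem _ _ hi']
    exact hpp i hi

/-- Decision of finitely many values, and `GNull`. -/
theorem dec {γ j : T} (hγ : γ ≤ j) {X : TN M T} {p : Cond M T}
    (hcase : ∀ w t f, le Γ (Iio j) w p → (p j).stem <+: t →
      (∀ m ∈ (p j).pr, Fol Γ j w m (p j).stem t) → (∀ m ∈ (p j).pr, Bd Γ j w m t f) →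
      ∃ w', le Γ (Iio j) w' w ∧ GNull Γ γ (Xt Γ j X t f) w')
    (t : List ℕ) (E : Finset M) (f0 : ℕ) (w : Cond M T) (hw : le Γ (Iio j) w p)
    (ht : (p j).stem <+: t) (hE : (p j).pr ⊆ E)
    (hF : ∀ m ∈ (p j).pr, Fol Γ j w m (p j).stem t) :
    ∃ v : Cond M T, (∀ i ∉ Iio j, v i = CV.top) ∧ le Γ (Iio j) v w ∧ ∃ f, f0 ≤ f ∧
      (∀ m ∈ E, Bd Γ j v m t f) ∧ GNull Γ γ (Xt Γ j X t f) v := by
  obtain ⟨w1, hw1, hval⟩ := Val.decideF (Γ := Γ) (low_iio j) E (fun m => Γ j m)
    (fun _ => Encodable.encode t) w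
  have hval' : ∀ m, ∃ v, m ∈ E → Val (le Γ (Iio j)) w1 (Γ j m) (Encodable.encode t) v := by
    intro m
    by_cases hm : m ∈ E
    · obtain ⟨v, hv⟩ := hval m hm
      exact ⟨v, fun _ => hv⟩
    · exact ⟨0, fun h => absurd h hm⟩
  choose V hV using hval'
  have hBd : ∀ m ∈ E, Bd Γ j w1 m t (f0 + E.sup V) := by
    intro m hm r hr n hn
    have h1 := (hV m hm).mono (low_iio j) hr
    rw [Val.unique hn h1]
    exact (Finset.le_sup (f := V) hm).trans (Nat.le_add_left _ _)
  obtain ⟨w2, hw2, hG⟩ := hcase w1 t (f0 + E.sup V) (le_trans' (low_iio j) hw1 hw) ht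
    (fun m hm => Fol.mono (hF m hm) hw1) (fun m hm => hBd m (hE hm))
  have h3 : le Γ (Iio j) (rst (Iio j) w2) w2 := rst_eq (low_iio j) w2
  refine ⟨rst (Iio j) w2, fun i hi => rst_notMem w2 hi,
    le_trans' (low_iio j) h3 (le_trans' (low_iio j) hw2 hw1), f0 + E.sup V, Nat.le_add_right _ _,
    fun m hm => Bd.mono (hBd m hm) (le_trans' (low_iio j) h3 hw2) le_rfl,
    GNull.congr hγ (sup_Xt j X t _) (fun i hi => (rst_mem w2 hi).symm) hG⟩

/-- The children of a node. -/
theorem kids (hP : S_PRED) (hc : CCC Γ) {γ j : T} (hγ : γ ≤ j) {X : TN M T} {p : Cond M T}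
    (D : List ℕ → ℕ → ℕ → Finset M) (R : Node M T → Finset M)
    (hD : ∀ t f k, ∀ m ∈ D t f k, ∀ w, Bd Γ j w m t f)
    (hcase : ∀ w t f, le Γ (Iio j) w p → (p j).stem <+: t →
      (∀ m ∈ (p j).pr, Fol Γ j w m (p j).stem t) → (∀ m ∈ (p j).pr, Bd Γ j w m t f) →
      ∃ w', le Γ (Iio j) w' w ∧ GNull Γ γ (Xt Γ j X t f) w')
    (π : Node M T) (hπ : NodeInv Γ γ j X p π) :
    ∃ kid : ℕ → Option (Node M T),
      (∀ e π', kid e = some π' → Child Γ D R e π π' ∧ NodeInv Γ γ j X p π') ∧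
      (∀ a, (π.a = true → π.f ≤ a) → ∀ v, le Γ (Iio j) v π.w →
        ∃ e π', kid e = some π' ∧ (π.a = true → π'.t = π.t ++ [a]) ∧
          Cmp (le Γ (Iio j)) v π'.w) ∧
      ∀ e e' π' π'', e ≠ e' → kid e = some π' → kid e' = some π'' →
        π'.t = π''.t → ¬ Cmp (le Γ (Iio j)) π'.w π''.w := by
  obtain ⟨hsup, hwp, hst, hFol, hBd, hdem, hGN⟩ := hπ
  have hlow := low_iio j
  cases ha : π.a with
  | true =>
    have hF : ∀ (a : ℕ) (v : Cond M T), ∃ f, ((∀ i ∉ Iio j, v i = CV.top) ∧ le Γ univ v π.w ∧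
        ∃ f, (∀ m ∈ (p j).pr, Bd Γ j v m (π.t ++ [a]) f) ∧
          GNull Γ γ (Xt Γ j X (π.t ++ [a]) f) v) →
        (∀ m ∈ (p j).pr, Bd Γ j v m (π.t ++ [a]) f) ∧
          GNull Γ γ (Xt Γ j X (π.t ++ [a]) f) v := by
      intro a v
      by_cases h : ((∀ i ∉ Iio j, v i = CV.top) ∧ le Γ univ v π.w ∧
        ∃ f, (∀ m ∈ (p j).pr, Bd Γ j v m (π.t ++ [a]) f) ∧
          GNull Γ γ (Xt Γ j X (π.t ++ [a]) f) v)
      · obtain ⟨h1, h2, f, h3⟩ := h
        exact ⟨f, fun _ => h3⟩
      · exact ⟨0, fun h' => absurd h' h⟩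
    choose F hF using hF
    choose G hG1 hG2 hG3 using fun a : ℕ => hP M T Γ hc
      {v | (∀ i ∉ Iio j, v i = CV.top) ∧ le Γ univ v π.w ∧
        ∃ f, (∀ m ∈ (p j).pr, Bd Γ j v m (π.t ++ [a]) f) ∧
          GNull Γ γ (Xt Γ j X (π.t ++ [a]) f) v}
    obtain ⟨mk, hmk⟩ : ∃ mk : ℕ → Cond M T → Node M T, mk = fun e v =>
        ⟨v, π.t ++ [e.unpair.1], F e.unpair.1 v,
          π.dem ∪ R π ∪ (Finset.range (e + 1)).biUnion (fun k => D π.t π.f k),
          π.wt + e + 2, false⟩ := ⟨_, rfl⟩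
    obtain ⟨kid, hkid⟩ : ∃ kid : ℕ → Option (Node M T), kid = fun e =>
        if π.f ≤ e.unpair.1 then (G e.unpair.1 e.unpair.2).map (mk e) else none := ⟨_, rfl⟩
    have hk : ∀ e π', kid e = some π' → π.f ≤ e.unpair.1 ∧
        ∃ v, G e.unpair.1 e.unpair.2 = some v ∧ mk e v = π' := by
      intro e π' h
      rw [hkid] at h
      simp only at h
      split_ifs at h with h1
      exact ⟨h1, Option.map_eq_some_iff.1 h⟩
    refine ⟨kid, ?_, ?_, ?_⟩
    · intro e π' h
      obtain ⟨h1, v, hv, rfl⟩ := hk e π' h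
      have h2 := hG1 _ _ _ hv
      obtain ⟨h3, h4, -⟩ := id h2
      obtain ⟨h5, h6⟩ := hF e.unpair.1 v h2
      have h7 : le Γ (Iio j) v π.w := le_mono (subset_univ _) h4
      rw [hmk]
      refine ⟨⟨h4, ?_, ?_, ?_, rfl, ?_, fun _ => ⟨e.unpair.1, h1, rfl⟩, fun h => ?_⟩, h3, ?_, ?_,
        ?_, h5, ?_, h6⟩
      · exact Finset.subset_union_left.trans Finset.subset_union_left
      · exact Finset.subset_union_right.trans Finset.subset_union_left
      · intro k hk'
        refine (Finset.subset_biUnion_of_mem (fun k => D π.t π.f k)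
          (Finset.mem_range.2 (Nat.lt_succ_of_le hk'))).trans Finset.subset_union_right
      · show false = !π.a
        rw [ha]
        rfl
      · rw [ha] at h
        exact absurd h (by simp)
      · exact le_trans' hlow h7 hwp
      · exact hst.trans (List.prefix_append _ _)
      · intro m hm i hi hi' r hr n hn
        have h8 : i < (π.t ++ [e.unpair.1]).length := hi'
        rw [List.length_append, List.length_singleton] at h8
        rcases Nat.lt_or_ge i π.t.length with h9 | h9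
        · have h10 : (π.t ++ [e.unpair.1]).getD i 0 = π.t.getD i 0 :=
            getD_prefix (List.prefix_append _ _) h9
          have h11 : (π.t ++ [e.unpair.1]).take i = π.t.take i :=
            take_prefix (List.prefix_append _ _) h9.le
          show n ≤ (π.t ++ [e.unpair.1]).getD i 0
          rw [h10]
          have hn' : Val (le Γ (Iio j)) r (Γ j m)
            (Encodable.encode ((π.t ++ [e.unpair.1]).take i)) n := hn
          rw [h11] at hn'
          exact Fol.mono (hFol m hm) h7 i hi h9 r hr n hn'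
        · have h10 : i = π.t.length := by omega
          have h11 : (π.t ++ [e.unpair.1]).take i = π.t := by
            rw [h10]
            exact List.take_left
          have h12 : (π.t ++ [e.unpair.1]).getD i 0 = e.unpair.1 := by
            rw [h10]
            simp [List.getD]
          show n ≤ (π.t ++ [e.unpair.1]).getD i 0
          rw [h12]
          have hn' : Val (le Γ (Iio j)) r (Γ j m)
            (Encodable.encode ((π.t ++ [e.unpair.1]).take i)) n := hn
          rw [h11] at hn'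
          exact (hBd m hm r (le_trans' hlow hr h7) n hn').trans h1
      · intro h
        exact absurd h (by simp)
    · intro a hfa v hv
      have hfa' := hfa rfl
      have hF' : ∀ m ∈ (p j).pr, Fol Γ j v m (p j).stem (π.t ++ [a]) := by
        intro m hm i hi hi' r hr n hn
        rw [List.length_append, List.length_singleton] at hi'
        rcases Nat.lt_or_ge i π.t.length with h9 | h9
        · rw [getD_prefix (List.prefix_append _ _) h9]
          rw [take_prefix (List.prefix_append _ _) h9.le] at hn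
          exact Fol.mono (hFol m hm) hv i hi h9 r hr n hn
        · have h10 : i = π.t.length := by omega
          have h11 : (π.t ++ [a]).take i = π.t := by
            rw [h10]
            exact List.take_left
          have h12 : (π.t ++ [a]).getD i 0 = a := by
            rw [h10]
            simp [List.getD]
          rw [h12]
          rw [h11] at hn
          exact (hBd m hm r (le_trans' hlow hr hv) n hn).trans hfa'
      obtain ⟨v', h1, h2, f, -, h3, h4⟩ := dec hγ hcase (π.t ++ [a]) (p j).pr 0 v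
        (le_trans' hlow hv hwp) (hst.trans (List.prefix_append _ _)) (Finset.Subset.refl _) hF'
      have h5 : le Γ univ v' π.w := le_univ_of hsup (le_trans' hlow h2 hv)
      obtain ⟨b, c, hb, r, hr1, hr2⟩ := hG3 a v' ⟨h1, h5, f, h3, h4⟩
      have hpair1 : (Nat.pair a b).unpair.1 = a := by rw [Nat.unpair_pair]
      have hpair2 : (Nat.pair a b).unpair.2 = b := by rw [Nat.unpair_pair]
      refine ⟨Nat.pair a b, mk (Nat.pair a b) c, ?_, fun _ => ?_, r, ?_, ?_⟩
      · rw [hkid]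
        simp only
        rw [hpair1, hpair2, if_pos hfa', hb]
        rfl
      · rw [hmk]
        show π.t ++ [(Nat.pair a b).unpair.1] = π.t ++ [a]
        rw [hpair1]
      · exact le_trans' hlow (le_mono (subset_univ _) hr1) h2
      · rw [hmk]
        exact le_mono (subset_univ _) hr2
    · intro e e' π' π'' hne h h' htt hcmp
      obtain ⟨h1, v, hv, rfl⟩ := hk e π' h
      obtain ⟨h1', v', hv', rfl⟩ := hk e' π'' h'
      have h2 := hG1 _ _ _ hv
      have h2' := hG1 _ _ _ hv'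
      rw [hmk] at htt hcmp
      have h3 : π.t ++ [e.unpair.1] = π.t ++ [e'.unpair.1] := htt
      have h4 : e.unpair.1 = e'.unpair.1 := by
        have h5 := List.append_cancel_left h3
        exact List.head_eq_of_cons_eq h5
      have h5 : e.unpair.2 ≠ e'.unpair.2 := by
        intro h6
        apply hne
        rw [← Nat.pair_unpair e, ← Nat.pair_unpair e', h4, h6]
      rw [← h4] at hv'
      obtain ⟨r, hr1, hr2⟩ := hcmp
      exact hG2 _ _ _ _ _ h5 hv hv' ⟨r, le_univ_of h2.1 hr1, le_univ_of h2'.1 hr2⟩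
  | false =>
    have hF : ∀ (v : Cond M T), ∃ f, ((∀ i ∉ Iio j, v i = CV.top) ∧ le Γ univ v π.w ∧
        ∃ f, π.f ≤ f ∧ (∀ m ∈ π.dem ∪ R π ∪ (p j).pr, Bd Γ j v m π.t f) ∧
          GNull Γ γ (Xt Γ j X π.t f) v) →
        π.f ≤ f ∧ (∀ m ∈ π.dem ∪ R π ∪ (p j).pr, Bd Γ j v m π.t f) ∧
          GNull Γ γ (Xt Γ j X π.t f) v := by
      intro v
      by_cases h : ((∀ i ∉ Iio j, v i = CV.top) ∧ le Γ univ v π.w ∧
        ∃ f, π.f ≤ f ∧ (∀ m ∈ π.dem ∪ R π ∪ (p j).pr, Bd Γ j v m π.t f) ∧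
          GNull Γ γ (Xt Γ j X π.t f) v)
      · obtain ⟨h1, h2, f, h3⟩ := h
        exact ⟨f, fun _ => h3⟩
      · exact ⟨0, fun h' => absurd h' h⟩
    choose F hF using hF
    obtain ⟨G, hG1, hG2, hG3⟩ := hP M T Γ hc
      {v | (∀ i ∉ Iio j, v i = CV.top) ∧ le Γ univ v π.w ∧
        ∃ f, π.f ≤ f ∧ (∀ m ∈ π.dem ∪ R π ∪ (p j).pr, Bd Γ j v m π.t f) ∧
          GNull Γ γ (Xt Γ j X π.t f) v}
    obtain ⟨mk, hmk⟩ : ∃ mk : ℕ → Cond M T → Node M T, mk = fun e v =>
        ⟨v, π.t, F v,
          π.dem ∪ R π ∪ (Finset.range (e + 1)).biUnion (fun k => D π.t π.f k),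
          π.wt + e + 2, true⟩ := ⟨_, rfl⟩
    refine ⟨fun e => (G e).map (mk e), ?_, ?_, ?_⟩
    · intro e π' h
      obtain ⟨v, hv, rfl⟩ := Option.map_eq_some_iff.1 h
      have h2 := hG1 _ _ hv
      obtain ⟨h3, h4, -⟩ := id h2
      obtain ⟨h0, h5, h6⟩ := hF v h2
      have h7 : le Γ (Iio j) v π.w := le_mono (subset_univ _) h4
      rw [hmk]
      refine ⟨⟨h4, ?_, ?_, ?_, rfl, ?_, fun h => ?_, fun _ => ⟨rfl, h0⟩⟩, h3, ?_, hst,
        fun m hm => Fol.mono (hFol m hm) h7, fun m hm => h5 m (Finset.mem_union_right _ hm),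
        ?_, h6⟩
      · exact Finset.subset_union_left.trans Finset.subset_union_left
      · exact Finset.subset_union_right.trans Finset.subset_union_left
      · intro k hk'
        refine (Finset.subset_biUnion_of_mem (fun k => D π.t π.f k)
          (Finset.mem_range.2 (Nat.lt_succ_of_le hk'))).trans Finset.subset_union_right
      · show true = !π.a
        rw [ha]
        rfl
      · rw [ha] at h
        exact absurd h (by simp)
      · exact le_trans' hlow h7 hwp
      · intro _ m hm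
        have hm' : m ∈ π.dem ∪ R π ∪ (Finset.range (e + 1)).biUnion (fun k => D π.t π.f k) := hm
        rcases Finset.mem_union.1 hm' with hm1 | hm1
        · exact h5 m (Finset.mem_union_left _ hm1)
        · obtain ⟨k, -, hk⟩ := Finset.mem_biUnion.1 hm1
          exact Bd.mono (hD π.t π.f k m hk v) (le_refl' _ _) h0
    · intro a _ v hv
      obtain ⟨v', h1, h2, f, hf, h3, h4⟩ := dec hγ hcase π.t (π.dem ∪ R π ∪ (p j).pr) π.f v
        (le_trans' hlow hv hwp) hst Finset.subset_union_right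
        (fun m hm => Fol.mono (hFol m hm) hv)
      have h5 : le Γ univ v' π.w := le_univ_of hsup (le_trans' hlow h2 hv)
      obtain ⟨b, c, hb, r, hr1, hr2⟩ := hG3 v' ⟨h1, h5, f, hf, h3, h4⟩
      refine ⟨b, mk b c, ?_, fun h => ?_, r, ?_, ?_⟩
      · simp only
        rw [hb]
        rfl
      · exact absurd h (by simp)
      · exact le_trans' hlow (le_mono (subset_univ _) hr1) h2
      · rw [hmk]
        exact le_mono (subset_univ _) hr2
    · intro e e' π' π'' hne h h' htt hcmp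
      obtain ⟨v, hv, rfl⟩ := Option.map_eq_some_iff.1 h
      obtain ⟨v', hv', rfl⟩ := Option.map_eq_some_iff.1 h'
      have h2 := hG1 _ _ hv
      have h2' := hG1 _ _ hv'
      rw [hmk] at hcmp
      obtain ⟨r, hr1, hr2⟩ := hcmp
      exact hG2 _ _ _ _ hne hv hv' ⟨r, le_univ_of h2.1 hr1, le_univ_of h2'.1 hr2⟩

theorem th_TREE (hP : S_PRED) : S_TREE := by
  intro M T _ _ Γ hc γ j hγ X hX hS p D R hD hcase
  have hlow := low_iio j
  have hK : ∀ π : Node M T, ∃ kid : ℕ → Option (Node M T), NodeInv Γ γ j X p π →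
      (∀ e π', kid e = some π' → Child Γ D R e π π' ∧ NodeInv Γ γ j X p π') ∧
      (∀ a, (π.a = true → π.f ≤ a) → ∀ v, le Γ (Iio j) v π.w →
        ∃ e π', kid e = some π' ∧ (π.a = true → π'.t = π.t ++ [a]) ∧
          Cmp (le Γ (Iio j)) v π'.w) ∧
      ∀ e e' π' π'', e ≠ e' → kid e = some π' → kid e' = some π'' →
        π'.t = π''.t → ¬ Cmp (le Γ (Iio j)) π'.w π''.w := by
    intro π
    by_cases h : NodeInv Γ γ j X p π
    · obtain ⟨kid, hk⟩ := kids hP hc hγ D R hD hcase π h
      exact ⟨kid, fun _ => hk⟩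
    · exact ⟨fun _ => none, fun h' => absurd h' h⟩
  choose K hK using hK
  obtain ⟨v, h1, h2, f, -, h3, h4⟩ := dec hγ hcase (p j).stem (p j).pr 0 p (le_refl' _ _)
    (List.prefix_refl _) (Finset.Subset.refl _) (fun m _ i hi hi' => by omega)
  obtain ⟨rt, hrt⟩ : ∃ rt : Node M T, rt = ⟨v, (p j).stem, f, ∅, 0, true⟩ := ⟨_, rfl⟩
  have hrtI : NodeInv Γ γ j X p rt := by
    rw [hrt]
    refine ⟨h1, h2, List.prefix_refl _, ?_, h3, ?_, h4⟩
    · intro m _ i hi hi'
      exact absurd hi' (not_lt.2 hi)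
    · intro _ m hm
      exact absurd hm (Finset.notMem_empty m)
  obtain ⟨nd, hnd⟩ : ∃ nd : List ℕ → Option (Node M T), nd = fun l =>
      l.foldl (fun o e => o.bind (fun π => K π e)) (some rt) := ⟨_, rfl⟩
  have hnil : nd [] = some rt := by rw [hnd]; rfl
  have happ : ∀ l e, nd (l ++ [e]) = (nd l).bind (fun π => K π e) := by
    intro l e
    rw [hnd]
    simp only [List.foldl_append, List.foldl_cons, List.foldl_nil]
  have hchild : ∀ l e π', nd (l ++ [e]) = some π' → ∃ π, nd l = some π ∧ K π e = some π' := by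
    intro l e π' h
    rw [happ] at h
    exact Option.bind_eq_some_iff.1 h
  have hinv : ∀ l π, nd l = some π → NodeInv Γ γ j X p π := by
    intro l
    induction l using List.reverseRecOn with
    | nil =>
      intro π h
      rw [hnil] at h
      rw [← Option.some_injective _ h]
      exact hrtI
    | append_singleton l e ih =>
      intro π' h
      obtain ⟨π, hπ, hk⟩ := hchild l e π' h
      exact ((hK π (ih π hπ)).1 e π' hk).2
  refine ⟨nd, ⟨⟨rt, hnil, by rw [hrt], by rw [hrt], by rw [hrt]⟩, ?_, hinv, ?_, ?_⟩⟩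
  · intro l e π' h
    obtain ⟨π, hπ, hk⟩ := hchild l e π' h
    exact ⟨π, hπ, ((hK π (hinv l π hπ)).1 e π' hk).1⟩
  · intro l π hπ a ha v hv
    obtain ⟨e, π', hk, h5, h6⟩ := (hK π (hinv l π hπ)).2.1 a ha v hv
    refine ⟨e, π', ?_, h5, h6⟩
    rw [happ, hπ]
    exact hk
  · intro l e e' π' π'' hne h h'
    obtain ⟨π, hπ, hk⟩ := hchild l e π' h
    obtain ⟨π1, hπ1, hk'⟩ := hchild l e' π'' h'
    rw [hπ] at hπ1
    rw [← Option.some_injective _ hπ1] at hk'
    exact (hK π (hinv l π hπ)).2.2 e e' π' π'' hne hk hk'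

end Pool.Agent.H631.THD.TREE
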