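import Pool.Agent.H631.TH.GStm

/-!
# The meaning of the sentence over the trivial notion of forcing
-/

set_option autoImplicit false

namespace Pool.Agent.H631.THD.UNIT

open Pool.Agent.H631.TH Pool.Agent.Helper669.Forcing

universe v w

theorem u_fnot {φ : Set Unit} {p : Unit} : p ∈ fnot φ ↔ p ∉ φ :=
  ⟨fun h => h p le_rfl, fun h _ _ => h⟩

theorem u_fall {ι : Sort v} {φ : ι → Set Unit} {p : Unit} : p ∈ fall φ ↔ ∀ i, p ∈ φ i := Iff.rfl

theorem u_fand {φ ψ : Set Unit} {p : Unit} : p ∈ fand φ ψ ↔ p ∈ φ ∧ p ∈ ψ := Iff.rfl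

theorem u_fground {h : Prop} {p : Unit} : p ∈ fground (P := Unit) h ↔ h := Iff.rfl

theorem u_fex {ι : Sort v} {φ : ι → Set Unit} {p : Unit} : p ∈ fex φ ↔ ∃ i, p ∈ φ i := by
  constructor
  · intro h
    by_contra h1
    exact h p le_rfl (fun i => u_fnot.2 (fun hi => h1 ⟨i, hi⟩))
  · rintro ⟨i, hi⟩ q _ h1
    exact (u_fnot.1 (h1 i)) hi

theorem u_fimp {φ ψ : Set Unit} {p : Unit} : p ∈ fimp φ ψ ↔ (p ∈ φ → p ∈ ψ) := by
  constructor
  · intro h h1
    by_contra h2
    exact h p le_rfl ⟨h1, u_fnot.2 h2⟩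
  · rintro h q _ ⟨h1, h2⟩
    exact (u_fnot.1 h2) (h h1)

theorem u_meets {N : Set Unit} {p : Unit} : p ∈ meets N ↔ p ∈ N := by
  constructor
  · intro h
    obtain ⟨r, -, s, hs, -⟩ := h p le_rfl
    exact hs
  · intro h q _
    exact ⟨q, le_rfl, p, h, le_rfl⟩

/-- the meaning of `InitN` -/
theorem u_init {u : List Bool} {a : ℕ → Set Unit} {p : Unit} :
    p ∈ InitN u a ↔ Init u {i | p ∈ a i} := by
  simp only [InitN, u_fand, u_fall, u_fimp, u_fground, u_meets, u_fnot]
  exact Iff.rfl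

theorem u_thin {F : List Bool → Set Unit} {p : Unit} : p ∈ ThinS F ↔ Thin {u | p ∈ F u} := by
  simp only [ThinS, u_fand, u_fall, u_fimp, u_fground, u_meets, u_fex]
  exact Iff.rfl

theorem u_fat {X : List Bool → Set Unit} {p : Unit} : p ∈ FatS X ↔ Fat {u | p ∈ X u} := by
  simp only [FatS, u_fand, u_fall, u_fimp, u_fground, u_meets, u_fex]
  exact Iff.rfl

theorem surj2 {κ ι : Type} (p : Unit) :
    Function.Surjective (fun (F : κ → ι → Set Unit) (k : κ) => {i : ι | p ∈ F k i}) :=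
  fun s => ⟨fun k i => {_q | i ∈ s k}, rfl⟩

theorem surj3 {τ κ ι : Type} (p : Unit) :
    Function.Surjective (fun (F : τ → κ → ι → Set Unit) (t : τ) (k : κ) => {i : ι | p ∈ F t k i}) :=
  fun s => ⟨fun t k i => {_q | i ∈ s t k}, rfl⟩

theorem th_UNIT : S_UNIT := by
  intro T p
  unfold PhiHolds PhiFor
  rw [u_fex, (surj3 p).exists]
  refine exists_congr fun F => ?_
  rw [u_fand]
  refine and_congr ?_ ?_
  · simp only [u_fall, u_thin]
  · rw [u_fall, (surj2 p).forall]
    refine forall_congr' fun a => ?_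
    rw [u_fimp]
    refine imp_congr ?_ ?_
    · simp only [u_fall, u_fex, u_fand, u_init, u_fnot, u_meets]
      exact Iff.rfl
    · rw [u_fex, (surj2 p).exists]
      refine exists_congr fun Y => ?_
      rw [u_fand]
      refine and_congr ?_ ?_
      · simp only [u_fall, u_fat]
      · rw [u_fall, (surj2 p).forall]
        refine forall_congr' fun C => ?_
        rw [u_fimp]
        refine imp_congr ?_ ?_
        · simp only [u_fall, u_fex, u_fimp, u_init, u_meets]
          exact Iff.rfl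
        · simp only [u_fall, u_fex, u_fimp, u_meets]
          exact Iff.rfl

end Pool.Agent.H631.THD.UNIT
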