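import Pool.Agent.H631.TH.GStm

/-! Names from dense sets -/

set_option autoImplicit false

namespace Pool.Agent.H631.THD.RAW

open Pool.Agent.H631.TH Classical

/-- **RAW.** -/
theorem th_RAW (hP : S_PRED) : S_RAW := by
  intro M T _ _ Γ hccc W hW V hmono hdense
  let φ : ℕ → Set (Cond M T) := fun n => {q | (∃ z, q ∈ V n z) ∧ ∀ i ∉ W, q i = CV.top}
  choose g hg1 _ hg2 using fun n => hP M T Γ hccc (φ n)
  let val : ℕ → Cond M T → ℕ := fun n u =>
    if h : ∃ z, u ∈ V n z then Classical.choose h else 0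
  have hval : ∀ n (u : Cond M T), (∃ z, u ∈ V n z) → u ∈ V n (val n u) := by
    intro n u h
    simp only [val, dif_pos h]
    exact Classical.choose_spec h
  refine ⟨fun n m => (g n m).map fun u => (u, val n u), ?_, ?_⟩
  · intro n m u v hu i hi
    obtain ⟨u', hu', he⟩ := Option.map_eq_some_iff.1 hu
    have h3 : u' = u := (Prod.mk.inj he).1
    rw [h3] at hu'
    exact (hg1 n m u hu').2 i hi
  · intro t n z hv
    rcases hv with ⟨m, u, h1, h2, _⟩ | ⟨_, h2⟩
    · obtain ⟨u', hu', he⟩ := Option.map_eq_some_iff.1 h1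
      have h3 : u' = u := (Prod.mk.inj he).1
      have h4 : val n u' = z := (Prod.mk.inj he).2
      rw [h3] at hu' h4
      have h5 : u ∈ φ n := hg1 n m u hu'
      have h6 := hval n u h5.1
      rw [h4] at h6
      exact hmono n z u t h6 h2
    · exfalso
      obtain ⟨q, hq, z', hz'⟩ := hdense n t
      have h3 : mix W q Cond.one ∈ φ n := by
        refine ⟨⟨z', hmono n z' q _ hz' (mix_eq hW _ _)⟩, fun i hi => ?_⟩
        rw [mix_notMem _ _ hi]
        rfl
      obtain ⟨m, a, hm, s, hs, hs'⟩ := hg2 n _ h3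
      refine h2 m a (val n a) ?_ ⟨s, ?_, le_mono (Set.subset_univ _) hs'⟩
      · show (g n m).map _ = _
        rw [hm]
        rfl
      · exact le_trans' hW (le_trans' hW (le_mono (Set.subset_univ _) hs) (mix_eq hW _ _)) hq

end Pool.Agent.H631.THD.RAW
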