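import Pool.Agent.H631.TH.FStm

/-!
# Project TH (helper631), XT: basic properties of the names `Xt`
-/

set_option autoImplicit false
set_option linter.unusedSectionVars false

namespace Pool.Agent.H631.THD.XT

open Classical Set
open Pool.Agent.H631.TH

theorem th_XT : S_XT := by
  intro M T _ _ Γ j X hX _ t f
  refine ⟨?_, fun u s hs => hs.1, fun u w => ⟨?_, ?_⟩⟩
  · intro u v huv q hq s hs
    refine hq s ⟨hs.1, fun r' hr' hA => hs.2 r' hr' ?_⟩
    obtain ⟨pr, h1, h2⟩ := hA
    exact ⟨pr, h1, hX u v huv _ h2⟩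
  · intro hO w' hw'
    by_contra hcon
    have hs : rst (Iio j) w' ∈ Xt Γ j X t f u := by
      refine ⟨fun i hi => rst_notMem w' hi, fun r' hr' hA => hcon ⟨r', ?_, hA⟩⟩
      exact le_trans' (low_iio j) hr' (rst_eq (low_iio j) w')
    refine hO _ hs ⟨mix (Iio j) w' w, mix_le (low_iio j) hw', fun i _ => ?_⟩
    by_cases hi : i ∈ Iio j
    · exact ext_of_eq ((mix_mem w' w hi).trans (rst_mem w' hi).symm)
    · exact ext_top (rst_notMem w' hi)
  · rintro h s hs ⟨r, h1, h2⟩
    obtain ⟨w'', h3, h4⟩ := h r (le_mono (subset_univ _) h1)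
    exact hs.2 w'' (le_trans' (low_iio j) h3 (le_mono (subset_univ _) h2)) h4

end Pool.Agent.H631.THD.XT
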